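import Pool.Agent.H726.GB.Tail

/-!
# Finite sets with exchangeable local states
-/

set_option autoImplicit false

namespace U443.LG

open Finset TH966.AK
open scoped Classical

noncomputable section

/-- a family of finite sets with exchangeable local states `A g`, `A' g` in the windows `Λ g` -/
structure Fam (E Γ : Type) [DecidableEq E] where
  K : ℕ → Finset (Finset E)
  cardK : ∀ n w, w ∈ K n → w.card = n
  Λ : Γ → Finset E
  A : Γ → Finset E
  A' : Γ → Finset E
  cand : E → Finset Γ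
  cand_iff : ∀ e g, g ∈ cand e ↔ e ∈ Λ g
  D : ℕ
  card_cand : ∀ e, (cand e).card ≤ D
  M : ℕ
  card_Λ : ∀ g, (Λ g).card ≤ M
  subA : ∀ g, A g ⊆ Λ g
  subA' : ∀ g, A' g ⊆ Λ g
  s : ℕ
  neA : ∀ g, (A g).Nonempty
  neA' : ∀ g, (A' g).Nonempty
  exch : ∀ g W n, Disjoint W (Λ g) → (W ∪ A g ∈ K n ↔ W ∪ A' g ∈ K (n + s))

namespace Fam

variable {E Γ : Type} [DecidableEq E] (F : Fam E Γ)

/-- the places with the first state -/
def S (w : Finset E) : Finset Γ := (w.biUnion F.cand).filter (fun g => w ∩ F.Λ g = F.A g)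

/-- the places with the second state -/
def B (w : Finset E) : Finset Γ := (w.biUnion F.cand).filter (fun g => w ∩ F.Λ g = F.A' g)

theorem mem_S {w : Finset E} {g : Γ} : g ∈ F.S w ↔ w ∩ F.Λ g = F.A g := by
  unfold S
  rw [mem_filter, mem_biUnion]
  constructor
  · exact fun h => h.2
  · intro h
    refine ⟨?_, h⟩
    obtain ⟨e, he⟩ := F.neA g
    have h1 : e ∈ w ∩ F.Λ g := by rw [h]; exact he
    rw [mem_inter] at h1
    exact ⟨e, h1.1, (F.cand_iff e g).2 h1.2⟩

theorem mem_B {w : Finset E} {g : Γ} : g ∈ F.B w ↔ w ∩ F.Λ g = F.A' g := by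
  unfold B
  rw [mem_filter, mem_biUnion]
  constructor
  · exact fun h => h.2
  · intro h
    refine ⟨?_, h⟩
    obtain ⟨e, he⟩ := F.neA' g
    have h1 : e ∈ w ∩ F.Λ g := by rw [h]; exact he
    rw [mem_inter] at h1
    exact ⟨e, h1.1, (F.cand_iff e g).2 h1.2⟩

/-- the windows that meet the window at `g` -/
def near (g : Γ) : Finset Γ := (F.Λ g).biUnion F.cand

theorem card_near (g : Γ) : (F.near g).card ≤ F.M * F.D :=
  (Finset.card_biUnion_le_card_mul _ _ F.D fun e _ => F.card_cand e).trans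
    (Nat.mul_le_mul_right _ (F.card_Λ g))

theorem disj_of_not_near {g g' : Γ} (h : g' ∉ F.near g) : ∀ e ∈ F.Λ g', e ∉ F.Λ g := by
  intro e he he2
  apply h
  unfold near
  rw [mem_biUnion]
  exact ⟨e, he2, (F.cand_iff e g').2 he⟩

/-- `w` and `w'` agree outside the window at `g` -/
def Agree (g : Γ) (w w' : Finset E) : Prop := ∀ e, e ∉ F.Λ g → (e ∈ w ↔ e ∈ w')

theorem agree_inter {g g' : Γ} {w w' : Finset E} (h : F.Agree g w w') (hg : g' ∉ F.near g) :
    w ∩ F.Λ g' = w' ∩ F.Λ g' := by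
  ext e
  rw [mem_inter, mem_inter]
  constructor
  · rintro ⟨h1, h2⟩
    exact ⟨(h e (F.disj_of_not_near hg e h2)).1 h1, h2⟩
  · rintro ⟨h1, h2⟩
    exact ⟨(h e (F.disj_of_not_near hg e h2)).2 h1, h2⟩

theorem agree_symm {g : Γ} {w w' : Finset E} (h : F.Agree g w w') : F.Agree g w' w :=
  fun e he => (h e he).symm

theorem S_agree {g : Γ} {w w' : Finset E} (h : F.Agree g w w') :
    (F.S w).card ≤ (F.S w').card + (F.M * F.D + F.D + 1) := by
  have h1 : F.S w ⊆ F.S w' ∪ F.near g := by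
    intro g' hg'
    rw [mem_union]
    by_cases hn : g' ∈ F.near g
    · exact Or.inr hn
    · left
      rw [mem_S] at hg' ⊢
      rw [← hg']
      exact (F.agree_inter h hn).symm
  have h2 := (Finset.card_le_card h1).trans (Finset.card_union_le _ _)
  have h3 := F.card_near g
  omega

theorem B_agree {g : Γ} {w w' : Finset E} (h : F.Agree g w w') :
    (F.B w).card ≤ (F.B w').card + (F.M * F.D + F.D + 1) := by
  have h1 : F.B w ⊆ F.B w' ∪ F.near g := by
    intro g' hg'
    rw [mem_union]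
    by_cases hn : g' ∈ F.near g
    · exact Or.inr hn
    · left
      rw [mem_B] at hg' ⊢
      rw [← hg']
      exact (F.agree_inter h hn).symm
  have h2 := (Finset.card_le_card h1).trans (Finset.card_union_le _ _)
  have h3 := F.card_near g
  omega

theorem put_inter {g : Γ} {w X : Finset E} (hX : X ⊆ F.Λ g) :
    (w \ F.Λ g ∪ X) ∩ F.Λ g = X := by
  ext e
  rw [mem_inter, mem_union, mem_sdiff]
  constructor
  · rintro ⟨⟨-, h⟩ | h, h2⟩
    · exact absurd h2 h
    · exact h
  · intro h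
    exact ⟨Or.inr h, hX h⟩

theorem put_sdiff {g : Γ} {w X : Finset E} (hX : X ⊆ F.Λ g) :
    (w \ F.Λ g ∪ X) \ F.Λ g = w \ F.Λ g := by
  ext e
  rw [mem_sdiff, mem_union, mem_sdiff]
  constructor
  · rintro ⟨h | h, h2⟩
    · exact h
    · exact absurd (hX h) h2
  · intro h
    exact ⟨Or.inl h, h.2⟩

theorem put_self {g : Γ} {w X : Finset E} (h : w ∩ F.Λ g = X) : w \ F.Λ g ∪ X = w := by
  rw [← h, Finset.sdiff_union_inter]

theorem put_agree (g : Γ) (w X : Finset E) (hX : X ⊆ F.Λ g) :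
    F.Agree g w (w \ F.Λ g ∪ X) := by
  intro e he
  rw [mem_union, mem_sdiff]
  constructor
  · exact fun h => Or.inl ⟨h, he⟩
  · rintro (h | h)
    · exact h.1
    · exact absurd (hX h) he

theorem card_S_le (w : Finset E) : (F.S w).card ≤ w.card * F.D :=
  (Finset.card_filter_le _ _).trans
    (Finset.card_biUnion_le_card_mul _ _ F.D fun e _ => F.card_cand e)

theorem card_B_le (w : Finset E) : (F.B w).card ≤ w.card * F.D :=
  (Finset.card_filter_le _ _).trans
    (Finset.card_biUnion_le_card_mul _ _ F.D fun e _ => F.card_cand e)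

/-- the system of local moves -/
def sys : Sys (Finset E) Γ where
  K := F.K
  S := F.S
  B := F.B
  ins := fun w g => w \ F.Λ g ∪ F.A' g
  rem := fun w g => w \ F.Λ g ∪ F.A g
  s := F.s
  C := F.M * F.D + F.D + 1
  n0 := 0
  hC := by omega
  ins_K := by
    intro n w g hw hg
    rw [F.mem_S] at hg
    have h1 := F.exch g (w \ F.Λ g) n Finset.sdiff_disjoint
    rw [F.put_self hg] at h1
    exact h1.1 hw
  ins_B := by
    intro n w g _ _
    rw [F.mem_B]
    exact F.put_inter (F.subA' g)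
  rem_ins := by
    intro n w g _ hg
    rw [F.mem_S] at hg
    show (w \ F.Λ g ∪ F.A' g) \ F.Λ g ∪ F.A g = w
    rw [F.put_sdiff (F.subA' g), F.put_self hg]
  rem_K := by
    intro n w g _ hw hg
    rw [F.mem_B] at hg
    have h1 := F.exch g (w \ F.Λ g) n Finset.sdiff_disjoint
    rw [F.put_self hg] at h1
    exact h1.2 hw
  rem_S := by
    intro n w g _ _ _
    rw [F.mem_S]
    exact F.put_inter (F.subA g)
  ins_rem := by
    intro n w g _ _ hg
    rw [F.mem_B] at hg
    show (w \ F.Λ g ∪ F.A g) \ F.Λ g ∪ F.A' g = w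
    rw [F.put_sdiff (F.subA g), F.put_self hg]
  chS1 := fun n w g _ _ => F.S_agree (F.put_agree g w _ (F.subA' g))
  chS2 := fun n w g _ _ => F.S_agree (F.agree_symm (F.put_agree g w _ (F.subA' g)))
  chB1 := fun n w g _ _ => F.B_agree (F.put_agree g w _ (F.subA' g))
  chB2 := fun n w g _ _ => F.B_agree (F.agree_symm (F.put_agree g w _ (F.subA' g)))
  S_le := by
    intro n w hw
    have h1 := F.card_S_le w
    rw [F.cardK n w hw] at h1
    nlinarith

/-- **Gaussian balance of exchangeable states** -/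
theorem tail {μ : ℝ} (hμ : 1 ≤ μ) : ∃ c : ℝ, 0 < c ∧ ∀ (H : ℝ) (n : ℕ), 1 ≤ n →
    (∀ j ≤ 2 * n, ((F.K j).card : ℝ) ≤ H * μ ^ j) → ∀ t : ℝ, 0 ≤ t →
    (((F.K n).filter (fun w => t ≤ |((F.S w).card : ℝ) - μ ^ F.s * (F.B w).card|)).card : ℝ) ≤
      2 * Real.exp 1 * H * μ ^ n * Real.exp (-(c * (t ^ 2 / n))) := by
  obtain ⟨c, hc, h⟩ := H726.GB.tail (Y := F.sys) rfl hμ (by
    intro n w hw
    have h1 := F.card_B_le w
    rw [F.cardK n w hw] at h1
    show (F.B w).card ≤ (F.M * F.D + F.D + 1) * (n + 1)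
    nlinarith)
  refine ⟨c, hc, fun H n hn hH t ht => ?_⟩
  have h1 := h (fun _ => 1) ⟨fun _ _ _ => zero_le_one, fun _ _ _ _ _ => rfl⟩ H n hn (by
    intro j hj
    have e : F.sys.af (fun _ => 1) j = ((F.K j).card : ℝ) := by
      unfold Sys.af
      rw [Finset.sum_const, nsmul_eq_mul, mul_one]
      rfl
    rw [e]
    exact hH j hj) t ht
  rw [Finset.sum_const, nsmul_eq_mul, mul_one] at h1
  exact h1

end Fam

end

end U443.LG
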