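import Pool.Agent.U443.LG.Quen

/-!
# Families of walks of subexponential proportion
-/

set_option autoImplicit false

namespace U443.LG

open Finset MeasureTheory Filter Topology
open scoped Classical

noncomputable section

variable {V : Type} [AddCommGroup V] (G : Geo V) [Countable V]

/-- the mean of finitely many measures -/
def avg {ι : Type} (F : Finset ι) (P : ι → Measure (Cfg V)) : Measure (Cfg V) :=
  ((F.card : ENNReal)⁻¹) • ∑ i ∈ F, P i

theorem avg_real {ι : Type} {F : Finset ι} {P : ι → Measure (Cfg V)}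
    (hP : ∀ i ∈ F, IsProbabilityMeasure (P i)) (D : Set (Cfg V)) :
    (avg F P).real D = (∑ i ∈ F, (P i).real D) / F.card := by
  unfold avg Measure.real
  rw [Measure.smul_apply, Measure.finset_sum_apply, smul_eq_mul, ENNReal.toReal_mul,
    ENNReal.toReal_sum]
  · simp only [ENNReal.toReal_inv, ENNReal.toReal_natCast]
    rw [div_eq_inv_mul]
  · intro i hi
    haveI := hP i hi
    exact measure_ne_top _ _

theorem avg_ae {ι : Type} {F : Finset ι} {P : ι → Measure (Cfg V)} {p : Cfg V → Prop}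
    (h : ∀ i ∈ F, ∀ᵐ η ∂(P i), p η) : ∀ᵐ η ∂(avg F P), p η := by
  rw [ae_iff]
  unfold avg
  rw [Measure.smul_apply, Measure.finset_sum_apply]
  rw [Finset.sum_eq_zero, smul_zero]
  intro i hi
  exact ae_iff.1 (h i hi)

theorem phase_avg {ι : Type} {F : Finset ι} (hF : F.Nonempty) {P : ι → Measure (Cfg V)} {x : ℝ}
    (h : ∀ i ∈ F, Phase G x (P i)) : Phase G x (avg F P) := by
  have hp : ∀ i ∈ F, IsProbabilityMeasure (P i) := fun i hi => (h i hi).prob
  have hc : (F.card : ℝ) ≠ 0 := by exact_mod_cast (Finset.card_pos.2 hF).ne'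
  refine ⟨?_, ?_, avg_ae fun i hi => (h i hi).vis, avg_ae fun i hi => (h i hi).paths, ?_⟩
  · have h1 : (avg F P).real Set.univ = 1 := by
      rw [avg_real hp]
      have h2 : ∑ i ∈ F, (P i).real Set.univ = F.card := by
        rw [Finset.sum_congr rfl (g := fun _ => (1 : ℝ))]
        · simp
        · intro i hi
          haveI := hp i hi
          exact probReal_univ
      rw [h2, div_self hc]
    constructor
    unfold Measure.real at h1
    rw [ENNReal.toReal_eq_one_iff] at h1
    exact h1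
  · intro Λ A A' hE C hC hC1 hC2
    rw [avg_real hp, avg_real hp, mul_div_assoc', mul_div_assoc', Finset.mul_sum, Finset.mul_sum]
    congr 1
    exact Finset.sum_congr rfl fun i hi => (h i hi).gibbs Λ A A' hE C hC hC1 hC2
  · intro g hg D hD
    rw [avg_real hp, avg_real hp]
    congr 1
    exact Finset.sum_congr rfl fun i hi => (h i hi).stat g hg D hD

/-- **families of walks** -/
theorem families {μ : ℝ} (hg : Growth G μ) {ε : ℝ} (hε : 0 < ε) (R : Finset (Sym2 V)) :
    ∃ c : ℝ, 0 < c ∧ ∀ᶠ n : ℕ in atTop, ∀ F : Finset (List V), F ⊆ WL G n →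
      Real.exp (-(c * n)) * (WL G n).card ≤ F.card →
      ∃ P : Measure (Cfg V), Phase G (1 / μ) P ∧ ∀ S, S ⊆ R →
        |(∑ l ∈ F, (emp G l).real (Cyl R S)) / F.card - P.real (Cyl R S)| ≤ ε := by
  obtain ⟨c, hc, h1⟩ := quenched G hg (half_pos hε) R
  refine ⟨c / 2, by positivity, ?_⟩
  have hmu : 0 < μ := lt_of_lt_of_le one_pos hg.one
  have hlim : Tendsto (fun n : ℕ => (c / 2) * (n : ℝ)) atTop atTop :=
    tendsto_natCast_atTop_atTop.const_mul_atTop (by positivity)
  filter_upwards [h1, hlim.eventually_ge_atTop (Real.log (4 / ε)),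
    hlim.eventually_ge_atTop (Real.log 2)] with n h2 h3 h3'
  intro F hF hFc
  have hW : (0 : ℝ) < (WL G n).card := lt_of_lt_of_le (by positivity) (hg.low n)
  have hF0 : (0 : ℝ) < F.card := lt_of_lt_of_le (by positivity) hFc
  -- the bad walks
  have hB : (((WL G n).filter (fun l => ¬ Near G (1 / μ) (ε / 2) R l)).card : ℝ) ≤
      Real.exp (-(c / 2 * n)) * F.card := by
    refine h2.trans ?_
    have e1 : Real.exp (-(c * n)) = Real.exp (-(c / 2 * n)) * Real.exp (-(c / 2 * n)) := by
      rw [← Real.exp_add]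
      congr 1
      ring
    rw [e1, mul_assoc]
    gcongr
  have hsm : Real.exp (-(c / 2 * n)) ≤ ε / 4 := by
    have e1 : ε / 4 = Real.exp (-Real.log (4 / ε)) := by
      rw [Real.exp_neg, Real.exp_log (by positivity), inv_div]
    rw [e1, Real.exp_le_exp]
    linarith
  have hsm2 : Real.exp (-(c / 2 * n)) ≤ 1 / 2 := by
    have e1 : (1 : ℝ) / 2 = Real.exp (-Real.log 2) := by
      rw [Real.exp_neg, Real.exp_log two_pos, one_div]
    rw [e1, Real.exp_le_exp]
    linarith
  obtain ⟨B, hBd⟩ : ∃ B, B = F.filter (fun l => ¬ Near G (1 / μ) (ε / 2) R l) := ⟨_, rfl⟩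
  have hBc : (B.card : ℝ) ≤ Real.exp (-(c / 2 * n)) * F.card := by
    refine le_trans (Nat.cast_le.2 (Finset.card_le_card ?_)) hB
    rw [hBd]
    exact Finset.filter_subset_filter _ hF
  obtain ⟨l0, hl0, hl0'⟩ : ∃ l ∈ F, Near G (1 / μ) (ε / 2) R l := by
    by_contra hcon
    push Not at hcon
    have h4 : B = F := by
      rw [hBd]
      exact Finset.filter_true_of_mem hcon
    rw [h4] at hBc
    nlinarith
  obtain ⟨P0, hP0, -⟩ := hl0'
  have hex : ∀ l : List V, ∃ P : Measure (Cfg V), Phase G (1 / μ) P ∧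
      (Near G (1 / μ) (ε / 2) R l → ∀ S, S ⊆ R →
        |(emp G l).real (Cyl R S) - P.real (Cyl R S)| ≤ ε / 2) := by
    intro l
    by_cases h : Near G (1 / μ) (ε / 2) R l
    · obtain ⟨P, h4, h5⟩ := h
      exact ⟨P, h4, fun _ => h5⟩
    · exact ⟨P0, hP0, fun h' => absurd h' h⟩
  choose P hP1 hP2 using hex
  refine ⟨avg F P, phase_avg G ⟨l0, hl0⟩ fun i _ => hP1 i, fun S hS => ?_⟩
  rw [avg_real (fun i _ => (hP1 i).prob), ← sub_div, ← Finset.sum_sub_distrib, abs_div,
    abs_of_pos hF0, div_le_iff₀ hF0]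
  refine (Finset.abs_sum_le_sum_abs _ _).trans ?_
  have hterm : ∀ l ∈ F, |(emp G l).real (Cyl R S) - (P l).real (Cyl R S)| ≤
      ε / 2 + (if l ∈ B then 1 else 0) := by
    intro l hl
    haveI := (hP1 l).prob
    haveI := emp_prob G ((mem_WL G).1 (hF hl)).1
    by_cases h : Near G (1 / μ) (ε / 2) R l
    · have h4 := hP2 l h S hS
      have h5 : (0 : ℝ) ≤ (if l ∈ B then 1 else 0) := by split_ifs <;> norm_num
      linarith
    · have h4 : l ∈ B := by
        rw [hBd, Finset.mem_filter]
        exact ⟨hl, h⟩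
      rw [if_pos h4, abs_le]
      have a1 := measureReal_nonneg (μ := emp G l) (s := Cyl R S)
      have a2 := measureReal_nonneg (μ := P l) (s := Cyl R S)
      have a3 := measureReal_le_one (μ := emp G l) (s := Cyl R S)
      have a4 := measureReal_le_one (μ := P l) (s := Cyl R S)
      constructor <;> linarith
  refine (Finset.sum_le_sum hterm).trans ?_
  rw [Finset.sum_add_distrib, Finset.sum_const, nsmul_eq_mul, Finset.sum_ite_mem,
    Finset.sum_const, nsmul_eq_mul, mul_one]
  have h6 : F ∩ B = B := by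
    rw [hBd]
    exact Finset.inter_eq_right.2 (Finset.filter_subset _ _)
  rw [h6]
  have h7 : Real.exp (-(c / 2 * n)) * F.card ≤ ε / 4 * F.card := by gcongr
  nlinarith

end

end U443.LG
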