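import Pool.Agent.U443.LG.Meas

/-!
# The empirical field of a walk, and its weak limits
-/

set_option autoImplicit false

namespace U443.LG

open Finset MeasureTheory Filter Topology
open scoped Classical

noncomputable section

variable {V : Type} [AddCommGroup V] (G : Geo V)

/-- the visited vertices in `T` -/
def Ts (l : List V) : Finset V := l.toFinset.filter (fun x => x ∈ G.T)

/-- the walk seen from `x` -/
def vw (l : List V) (x : V) : Cfg V := fun e => decide (Sym2.map (x + ·) e ∈ tr l)

theorem vw_iff {l : List V} {x : V} {e : Sym2 V} :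
    vw l x e = true ↔ Sym2.map (x + ·) e ∈ tr l := by
  unfold vw
  rw [decide_eq_true_iff]

theorem vw_mk {l : List V} {x a b : V} : vw l x s(a, b) = true ↔ s(x + a, x + b) ∈ tr l := vw_iff

/-- translated configuration -/
def mv (g : V) (η : Cfg V) : Cfg V := fun e => η (Sym2.map (-g + ·) e)

theorem vw_add (l : List V) (x g : V) : vw l x = mv g (vw l (x + g)) := by
  funext e
  unfold mv vw
  rw [map_comp]
  congr 3
  rw [add_neg_cancel_right]

theorem adj_shift {x : V} (hx : x ∈ G.T) {a b : V} : G.Adj (x + a) (x + b) ↔ G.Adj a b := by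
  constructor
  · intro h
    have := G.shift (-x) (G.T.neg_mem hx) _ _ h
    rwa [neg_add_cancel_left, neg_add_cancel_left] at this
  · exact G.shift x hx a b

theorem vis_vw {l : List V} {v : V} (hl : Walk G.Adj v l) (h2 : 2 ≤ l.length) {x : V}
    (hx : x ∈ G.T) (g : V) : Vis G g (vw l x) ↔ x + g ∈ l := by
  constructor
  · rintro ⟨y, -, h⟩
    rw [vw_mk] at h
    exact (tr_sub_left h).1
  · intro h
    obtain ⟨y, hy⟩ := exists_edge h2 h
    refine ⟨-x + y, ?_, ?_⟩
    · rw [← adj_shift G hx, add_neg_cancel_left]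
      exact adj_of_mem_tr G.symm hl.2.2 hy
    · rw [vw_mk, add_neg_cancel_left]
      exact hy

/-- the empirical field -/
def emp (l : List V) : Measure (Cfg V) :=
  ((Ts G l).card : ENNReal)⁻¹ • ∑ x ∈ Ts G l, Measure.dirac (vw l x)

theorem zero_mem {l : List V} (hl : Walk G.Adj 0 l) : (0 : V) ∈ Ts G l := by
  unfold Ts
  rw [Finset.mem_filter, List.mem_toFinset]
  exact ⟨List.mem_of_mem_head? hl.1, G.T.zero_mem⟩

theorem Ts_pos {l : List V} (hl : Walk G.Adj 0 l) : 0 < (Ts G l).card :=
  Finset.card_pos.2 ⟨0, zero_mem G hl⟩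

theorem emp_real {l : List V} {D : Set (Cfg V)} (hD : MeasurableSet D)
    [DecidablePred fun x : V => vw l x ∈ D] :
    (emp G l).real D = (((Ts G l).filter (fun x => vw l x ∈ D)).card : ℝ) / (Ts G l).card := by
  unfold emp Measure.real
  rw [Measure.smul_apply, Measure.finset_sum_apply, smul_eq_mul, ENNReal.toReal_mul]
  have e1 : (∑ x ∈ Ts G l, (Measure.dirac (vw l x)) D) =
      ((((Ts G l).filter (fun x => vw l x ∈ D)).card : ℕ) : ENNReal) := by
    rw [Finset.card_filter, Nat.cast_sum]
    refine Finset.sum_congr rfl fun x _ => ?_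
    rw [Measure.dirac_apply' _ hD, Set.indicator_apply]
    split_ifs <;> simp
  rw [e1]
  simp only [ENNReal.toReal_inv, ENNReal.toReal_natCast]
  rw [div_eq_inv_mul]

theorem emp_zero {l : List V} {D : Set (Cfg V)} (hD : MeasurableSet D)
    (h : ∀ x ∈ Ts G l, vw l x ∉ D) : (emp G l).real D = 0 := by
  rw [emp_real G hD, Finset.filter_eq_empty_iff.2 (fun x hx => h x hx), Finset.card_empty,
    Nat.cast_zero, zero_div]

theorem emp_prob {l : List V} (hl : Walk G.Adj 0 l) : IsProbabilityMeasure (emp G l) := by
  have h1 := emp_real G (l := l) (D := Set.univ) MeasurableSet.univ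
  have h2 : ((Ts G l).card : ℝ) ≠ 0 := by exact_mod_cast (Ts_pos G hl).ne'
  have h3 : (emp G l).real Set.univ = 1 := by
    have h4 : (Ts G l).filter (fun x => vw l x ∈ (Set.univ : Set (Cfg V))) = Ts G l :=
      Finset.filter_true_of_mem (fun x _ => Set.mem_univ _)
    rw [h1, h4, div_self h2]
  constructor
  unfold Measure.real at h3
  rw [ENNReal.toReal_eq_one_iff] at h3
  exact h3

theorem len_le {l : List V} (hc : l.IsChain G.Adj) :
    l.length ≤ 2 * l.countP (fun x => decide (x ∈ G.T)) + 1 := by
  obtain ⟨n, hn⟩ : ∃ n, n = l.length := ⟨_, rfl⟩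
  induction n using Nat.strong_induction_on generalizing l with
  | _ n ih =>
    rcases l with - | ⟨a, l⟩
    · simp
    rcases l with - | ⟨b, l⟩
    · simp
    rw [List.isChain_cons_cons] at hc
    have h1 := ih l.length (by rw [hn]; simp) (l := l) (hc.2.of_cons) rfl
    have h2 : 1 + l.countP (fun x => decide (x ∈ G.T)) ≤
        (a :: b :: l).countP (fun x => decide (x ∈ G.T)) := by
      rw [List.countP_cons, List.countP_cons]
      rcases G.half a b hc.1 with h | h
      · simp only [h, decide_true, if_true]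
        omega
      · simp only [h, decide_true, if_true]
        omega
    simp only [List.length_cons]
    omega

theorem Ts_card {l : List V} {v : V} (hl : Walk G.Adj v l) : l.length ≤ 2 * (Ts G l).card + 1 := by
  have h1 := len_le G hl.2.2
  have h2 : (Ts G l).card = l.countP (fun x => decide (x ∈ G.T)) := by
    unfold Ts
    rw [List.countP_eq_length_filter, ← List.toFinset_card_of_nodup (hl.2.1.filter _)]
    congr 1
    ext x
    simp
  rw [h2]
  exact h1

theorem Ts_card_le (l : List V) : (Ts G l).card ≤ l.length :=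
  (Finset.card_filter_le _ _).trans (List.toFinset_card_le l)

variable [Countable V]

theorem emp_cyl {l : List V} (hl : Walk G.Adj 0 l) {R S : Finset (Sym2 V)} (hS : S ⊆ R)
    (h0 : Vis G 0 (conf S)) :
    (emp G l).real (Cyl R S) = (NN G R S (tr l) : ℝ) / (Ts G l).card := by
  rw [emp_real G (dep_cyl R S).meas]
  congr 2
  unfold NN
  rw [← Set.ncard_coe_finset]
  congr 1
  ext g
  rw [Finset.mem_coe, Finset.mem_filter, Set.mem_setOf_eq]
  unfold Ts
  rw [Finset.mem_filter, List.mem_toFinset]
  have key : vw l g ∈ Cyl R S ↔ ∀ e ∈ R, (Sym2.map (g + ·) e ∈ tr l ↔ e ∈ S) := by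
    unfold Cyl
    rw [Set.mem_setOf_eq]
    constructor
    · intro h e he
      rw [← vw_iff]
      exact h e he
    · intro h e he
      rw [vw_iff]
      exact h e he
  rw [key]
  constructor
  · rintro ⟨⟨-, h1⟩, h2⟩
    exact ⟨h1, h2⟩
  · rintro ⟨h1, h2⟩
    refine ⟨⟨?_, h1⟩, h2⟩
    obtain ⟨y, -, hy⟩ := h0
    unfold conf at hy
    rw [decide_eq_true_iff] at hy
    have h3 := (h2 _ (hS hy)).2 hy
    rw [Sym2.map_mk] at h3
    have h4 := (tr_sub_left h3).1
    simpa using h4

/-- in every finite nonempty set of edges of a self-avoiding path there is a vertex of degree one -/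
theorem leaf {l : List V} (hl : l.Nodup) {Z : Finset (Sym2 V)} (hZ : Z.Nonempty) (h : Z ⊆ tr l) :
    ∃ x y, s(x, y) ∈ Z ∧ ∀ z, s(x, z) ∈ Z → z = y := by
  induction l with
  | nil =>
    obtain ⟨e, he⟩ := hZ
    have := h he
    simp [tr] at this
  | cons a l ih =>
    cases l with
    | nil =>
      obtain ⟨e, he⟩ := hZ
      have := h he
      simp [tr] at this
    | cons b l =>
      by_cases hab : s(a, b) ∈ Z
      · refine ⟨a, b, hab, fun z hz => ?_⟩
        have h1 := h hz
        simp only [tr, Finset.mem_insert] at h1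
        rcases h1 with h1 | h1
        · rw [Sym2.eq_iff] at h1
          rcases h1 with ⟨-, h1⟩ | ⟨h1, h2⟩
          · exact h1
          · rw [h2, h1]
        · exact absurd (tr_sub_left h1).1 (List.nodup_cons.1 hl).1
      · refine ih (List.nodup_cons.1 hl).2 fun e he => ?_
        have h1 := h he
        simp only [tr, Finset.mem_insert] at h1
        rcases h1 with h1 | h1
        · rw [h1] at he
          exact absurd he hab
        · exact h1

/-- the neighbours of an inner vertex -/
theorem nbrs_mid {p q : List V} {u v w b : V} (hl : (p ++ u :: v :: w :: q).Nodup) :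
    s(v, b) ∈ tr (p ++ u :: v :: w :: q) ↔ b = u ∨ b = w := by
  constructor
  · intro h
    obtain ⟨p', x, y, q', h1, h2⟩ := mem_tr.1 h
    rw [Sym2.eq_iff] at h2
    have e0 : p ++ u :: v :: w :: q = (p ++ [u]) ++ v :: w :: q := by simp
    rw [e0] at h1 hl
    rcases h2 with ⟨rfl, rfl⟩ | ⟨rfl, rfl⟩
    · obtain ⟨-, h4⟩ := split_unique h1 hl
      simp only [List.cons.injEq] at h4
      exact Or.inr h4.1.symm
    · have h1' : (p ++ [u]) ++ v :: w :: q = (p' ++ [b]) ++ v :: q' := by rw [h1]; simp
      obtain ⟨h3, -⟩ := split_unique h1' hl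
      have h6 := congrArg List.getLast? h3
      simp at h6
      exact Or.inl h6.symm
  · rintro (rfl | rfl)
    · exact mem_tr.2 ⟨p, b, v, w :: q, rfl, Sym2.eq_swap⟩
    · exact mem_tr.2 ⟨p ++ [u], v, b, q, by simp, rfl⟩

/-- degrees in a walk -/
theorem deg_walk {l : List V} {v0 : V} (hl : Walk G.Adj v0 l) {v : V}
    (h1 : l.head? ≠ some v) (h2 : l.getLast? ≠ some v) :
    ((star G v).filter (fun e => e ∈ tr l)).card = 0 ∨
    ((star G v).filter (fun e => e ∈ tr l)).card = 2 := by
  by_cases hv : v ∈ l
  · right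
    obtain ⟨p, q, rfl⟩ := List.append_of_mem hv
    rcases List.eq_nil_or_concat p with rfl | ⟨p, u, rfl⟩
    · simp at h1
    rcases q with - | ⟨w, q⟩
    · simp at h2
    rw [List.concat_eq_append] at *
    have e0 : p ++ [u] ++ v :: w :: q = p ++ u :: v :: w :: q := by simp
    rw [e0] at hl ⊢
    have hnd := hl.2.1
    have hch := hl.2.2
    have e1 : (star G v).filter (fun e => e ∈ tr (p ++ u :: v :: w :: q)) =
        {s(v, u), s(v, w)} := by
      ext e
      rw [Finset.mem_filter, Finset.mem_insert, Finset.mem_singleton]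
      constructor
      · rintro ⟨h3, h4⟩
        unfold star at h3
        rw [Finset.mem_image] at h3
        obtain ⟨b, -, rfl⟩ := h3
        rcases (nbrs_mid hnd).1 h4 with rfl | rfl
        · exact Or.inl rfl
        · exact Or.inr rfl
      · intro h3
        have h4 : e ∈ tr (p ++ u :: v :: w :: q) := by
          rcases h3 with rfl | rfl
          · exact (nbrs_mid hnd).2 (Or.inl rfl)
          · exact (nbrs_mid hnd).2 (Or.inr rfl)
        refine ⟨?_, h4⟩
        unfold star
        rw [Finset.mem_image]
        rcases h3 with rfl | rfl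
        · exact ⟨u, (G.mem_nb v u).2 (adj_of_mem_tr G.symm hch h4), rfl⟩
        · exact ⟨w, (G.mem_nb v w).2 (adj_of_mem_tr G.symm hch h4), rfl⟩
    rw [e1]
    apply Finset.card_pair
    intro h3
    rw [Sym2.eq_iff] at h3
    have huw : u ≠ w := by
      rintro rfl
      rw [List.nodup_append] at hnd
      have := hnd.2.1
      simp at this
    rcases h3 with ⟨-, h3⟩ | ⟨h3, h4⟩
    · exact huw h3
    · exact huw (h4.trans h3)
  · left
    rw [Finset.card_eq_zero, Finset.filter_eq_empty_iff]
    intro e he h3
    unfold star at he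
    rw [Finset.mem_image] at he
    obtain ⟨b, -, rfl⟩ := he
    exact hv (tr_sub_left h3).1

/-- a union of disjoint two-sided infinite self-avoiding paths of the lattice -/
def BiInf (η : Cfg V) : Prop :=
  (∀ x y, η s(x, y) = true → G.Adj x y) ∧
  (∀ x, ((star G x).filter (fun e => η e = true)).card = 0 ∨
    ((star G x).filter (fun e => η e = true)).card = 2) ∧
  ∀ Z : Finset (Sym2 V), Z.Nonempty → (∀ e ∈ Z, η e = true) →
    ∃ x y, s(x, y) ∈ Z ∧ ∀ z, s(x, z) ∈ Z → z = y

/-- stationary Gibbs measures of two-sided infinite walks at fugacity `x`, seen from a vertex -/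
structure Phase (x : ℝ) (P : Measure (Cfg V)) : Prop where
  prob : IsProbabilityMeasure P
  gibbs : IsGibbs G x P
  vis : ∀ᵐ η ∂P, Vis G 0 η
  paths : ∀ᵐ η ∂P, BiInf G η
  stat : ∀ g ∈ G.T, ∀ D : Set (Cfg V), MeasurableSet D →
    P.real ({η | Vis G g η} ∩ D) = P.real ({η | Vis G (-g) η} ∩ {η | mv g η ∈ D})

theorem measurable_mv (g : V) : Measurable (mv g : Cfg V → Cfg V) := by
  rw [measurable_pi_iff]
  intro e
  exact measurable_pi_apply _

theorem dep_mv (g : V) {R : Finset (Sym2 V)} {D : Set (Cfg V)} (h : Dep R D) :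
    Dep (sh (-g) R) {η : Cfg V | mv g η ∈ D} := by
  intro η η' he hη
  refine h _ _ (fun e h1 => ?_) hη
  unfold mv
  exact he _ (sh_map.2 h1)

/-- stationarity of the empirical field -/
theorem emp_stat {l : List V} (hl : Walk G.Adj 0 l) (h2 : 2 ≤ l.length) {g : V} (hg : g ∈ G.T)
    {D : Set (Cfg V)} (hD : MeasurableSet D) :
    (emp G l).real ({η | Vis G g η} ∩ D) =
      (emp G l).real ({η | Vis G (-g) η} ∩ {η | mv g η ∈ D}) := by
  have hm2 : MeasurableSet ({η | Vis G (-g) η} ∩ {η : Cfg V | mv g η ∈ D}) :=
    (dep_vis G (-g)).meas.inter (measurable_mv g hD)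
  rw [emp_real G ((dep_vis G g).meas.inter hD), emp_real G hm2]
  congr 2
  refine Finset.card_bij' (fun x _ => x + g) (fun x _ => x - g) ?_ ?_ ?_ ?_
  · intro x hx
    rw [Finset.mem_filter] at hx ⊢
    obtain ⟨h3, h4, h5⟩ := hx
    unfold Ts at h3 ⊢
    rw [Finset.mem_filter, List.mem_toFinset] at h3 ⊢
    rw [Set.mem_setOf_eq, vis_vw G hl h2 h3.2] at h4
    have hxg : x + g ∈ G.T := G.T.add_mem h3.2 hg
    refine ⟨⟨h4, hxg⟩, ?_, ?_⟩
    · rw [Set.mem_setOf_eq, vis_vw G hl h2 hxg, add_neg_cancel_right]
      exact h3.1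
    · rw [Set.mem_setOf_eq, ← vw_add]
      exact h5
  · intro x hx
    rw [Finset.mem_filter] at hx ⊢
    obtain ⟨h3, h4, h5⟩ := hx
    unfold Ts at h3 ⊢
    rw [Finset.mem_filter, List.mem_toFinset] at h3 ⊢
    rw [Set.mem_setOf_eq, vis_vw G hl h2 h3.2, ← sub_eq_add_neg] at h4
    have hxg : x - g ∈ G.T := G.T.sub_mem h3.2 hg
    refine ⟨⟨h4, hxg⟩, ?_, ?_⟩
    · rw [Set.mem_setOf_eq, vis_vw G hl h2 hxg, sub_add_cancel]
      exact h3.1
    · rw [vw_add l (x - g) g, sub_add_cancel]
      exact h5
  · intro x _
    exact add_sub_cancel_right x g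
  · intro x _
    exact sub_add_cancel x g

/-- limits of empirical fields -/
theorem phase_of_limit {μ : ℝ} (hμ : 0 < μ) {Q : ℕ → ProbabilityMeasure (Cfg V)}
    {P : ProbabilityMeasure (Cfg V)} (hQ : Tendsto Q atTop (𝓝 P)) (l : ℕ → List V)
    (hl : ∀ k, Walk G.Adj 0 (l k)) (hlen : Tendsto (fun k => (l k).length) atTop atTop)
    (hemp : ∀ k, (Q k : Measure (Cfg V)) = emp G (l k))
    (hbal : ∀ Λ A A' : Finset (Sym2 V), Exch G Λ A A' → A.Nonempty → A'.Nonempty →
      Tendsto (fun k => (μ ^ A.card * NN G Λ A (tr (l k)) - μ ^ A'.card * NN G Λ A' (tr (l k))) /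
        (l k).length) atTop (𝓝 0)) : Phase G (1 / μ) (P : Measure (Cfg V)) := by
  have hlim : ∀ {R : Finset (Sym2 V)} {D : Set (Cfg V)}, Dep R D →
      Tendsto (fun k => (emp G (l k)).real D) atTop (𝓝 ((P : Measure (Cfg V)).real D)) := by
    intro R D h
    have h1 := h.tendsto hQ
    simpa only [hemp] using h1
  have hlen2 : ∀ᶠ k in atTop, 2 ≤ (l k).length := hlen.eventually_ge_atTop 2
  have hlenR : Tendsto (fun k => ((l k).length : ℝ)) atTop atTop :=
    tendsto_natCast_atTop_atTop.comp hlen
  have hTs : Tendsto (fun k => ((Ts G (l k)).card : ℝ)) atTop atTop := by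
    refine tendsto_atTop_mono' atTop ?_ ((hlenR.atTop_add (tendsto_const_nhds (x := (-1 : ℝ)))).atTop_div_const
      (show (0 : ℝ) < 2 by norm_num))
    refine Eventually.of_forall fun k => ?_
    have h1 := Ts_card G (hl k)
    have h2 : ((l k).length : ℝ) ≤ 2 * (Ts G (l k)).card + 1 := by exact_mod_cast h1
    show (((l k).length : ℝ) + -1) / 2 ≤ _
    linarith
  -- (1) visited
  have hvis : ∀ᵐ η ∂(P : Measure (Cfg V)), Vis G 0 η := by
    have h1 := hlim (dep_vis G 0).compl
    have h2 : (fun k => (emp G (l k)).real {η : Cfg V | Vis G 0 η}ᶜ) =ᶠ[atTop] fun _ => 0 := by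
      filter_upwards [hlen2] with k hk
      apply emp_zero G (dep_vis G 0).compl.meas
      intro x hx hcon
      apply hcon
      unfold Ts at hx
      rw [Finset.mem_filter, List.mem_toFinset] at hx
      rw [Set.mem_setOf_eq, vis_vw G (hl k) hk hx.2, add_zero]
      exact hx.1
    have h3 := tendsto_nhds_unique (h1.congr' h2) tendsto_const_nhds
    rw [ae_iff]
    have h4 : (P : Measure (Cfg V)) {η : Cfg V | Vis G 0 η}ᶜ = 0 := by
      rwa [measureReal_eq_zero_iff] at h3
    exact h4
  -- (2) lattice edges
  have hedge : ∀ᵐ η ∂(P : Measure (Cfg V)), ∀ x y, η s(x, y) = true → G.Adj x y := by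
    rw [ae_all_iff]
    intro x
    rw [ae_all_iff]
    intro y
    by_cases hxy : G.Adj x y
    · exact Eventually.of_forall fun _ _ => hxy
    · have hd : Dep {s(x, y)} {η : Cfg V | η s(x, y) = true} := by
        intro η η' he hη
        rw [Set.mem_setOf_eq, ← he _ (Finset.mem_singleton_self _)]
        exact hη
      have h1 := hlim hd
      have h2 : (fun k => (emp G (l k)).real {η : Cfg V | η s(x, y) = true}) = fun _ => 0 := by
        funext k
        apply emp_zero G hd.meas
        intro z hz hcon
        unfold Ts at hz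
        rw [Finset.mem_filter, List.mem_toFinset] at hz
        rw [Set.mem_setOf_eq, vw_mk] at hcon
        exact hxy ((adj_shift G hz.2).1 (adj_of_mem_tr G.symm (hl k).2.2 hcon))
      rw [h2] at h1
      have h3 := tendsto_nhds_unique h1 tendsto_const_nhds
      rw [measureReal_eq_zero_iff] at h3
      rw [ae_iff]
      refine measure_mono_null (fun η hη => ?_) h3
      rw [Set.mem_setOf_eq] at hη ⊢
      by_contra hcon
      exact hη fun h => absurd h hcon
  -- (3) degrees
  have hdeg : ∀ᵐ η ∂(P : Measure (Cfg V)), ∀ x,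
      ((star G x).filter (fun e => η e = true)).card = 0 ∨
      ((star G x).filter (fun e => η e = true)).card = 2 := by
    rw [ae_all_iff]
    intro x
    obtain ⟨D, hDdef⟩ : ∃ D : Set (Cfg V), D = {η : Cfg V |
      ((star G x).filter (fun e => η e = true)).card = 0 ∨
      ((star G x).filter (fun e => η e = true)).card = 2} := ⟨_, rfl⟩
    have hd : Dep (star G x) D := by
      intro η η' he hη
      rw [hDdef, Set.mem_setOf_eq] at hη ⊢
      have e1 : (star G x).filter (fun e => η' e = true) =
          (star G x).filter (fun e => η e = true) := by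
        apply Finset.filter_congr
        intro e h
        rw [he e h]
      rw [e1]
      exact hη
    have h1 := hlim hd.compl
    have h2 : ∀ k, (emp G (l k)).real Dᶜ ≤ 2 / (Ts G (l k)).card := by
      intro k
      rw [emp_real G hd.compl.meas]
      apply div_le_div_of_nonneg_right _ (by positivity)
      obtain ⟨a, ha⟩ : ∃ a, (l k).head? = some a := ⟨0, (hl k).1⟩
      obtain ⟨b, hb⟩ : ∃ b, (l k).getLast? = some b := by
        cases hb : (l k).getLast? with
        | none =>
          rw [List.getLast?_eq_none_iff] at hb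
          rw [hb] at ha
          simp at ha
        | some b => exact ⟨b, rfl⟩
      have h3 : (Ts G (l k)).filter (fun z => vw (l k) z ∈ Dᶜ) ⊆ {a - x, b - x} := by
        intro z hz
        rw [Finset.mem_filter] at hz
        unfold Ts at hz
        rw [Finset.mem_filter, List.mem_toFinset] at hz
        rw [Finset.mem_insert, Finset.mem_singleton]
        by_contra hcon
        rw [not_or] at hcon
        apply hz.2
        have h4 : (l k).head? ≠ some (z + x) := by
          rw [ha]
          intro h5
          rw [Option.some.injEq] at h5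
          exact hcon.1 (by rw [h5, add_sub_cancel_right])
        have h5 : (l k).getLast? ≠ some (z + x) := by
          rw [hb]
          intro h5
          rw [Option.some.injEq] at h5
          exact hcon.2 (by rw [h5, add_sub_cancel_right])
        have h6 := deg_walk G (hl k) h4 h5
        have e1 : ((star G (z + x)).filter (fun e => e ∈ tr (l k))).card =
            ((star G x).filter (fun e => vw (l k) z e = true)).card := by
          symm
          refine Finset.card_bij' (fun e _ => Sym2.map (z + ·) e) (fun e _ => Sym2.map (-z + ·) e)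
            ?_ ?_ ?_ ?_
          · intro e he
            rw [Finset.mem_filter] at he ⊢
            refine ⟨?_, vw_iff.1 he.2⟩
            have h7 := he.1
            unfold star at h7 ⊢
            rw [Finset.mem_image] at h7 ⊢
            obtain ⟨y, hy, rfl⟩ := h7
            exact ⟨z + y, (G.mem_nb _ _).2 ((adj_shift G hz.1.2).2 ((G.mem_nb _ _).1 hy)), rfl⟩
          · intro e he
            rw [Finset.mem_filter] at he ⊢
            refine ⟨?_, by rw [vw_iff, map_neg]; exact he.2⟩
            have h7 := he.1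
            unfold star at h7 ⊢
            rw [Finset.mem_image] at h7 ⊢
            obtain ⟨y, hy, rfl⟩ := h7
            refine ⟨-z + y, ?_, ?_⟩
            · rw [G.mem_nb] at hy ⊢
              rw [← adj_shift G hz.1.2, add_neg_cancel_left]
              exact hy
            · rw [Sym2.map_mk]
              simp
          · intro e _
            exact map_neg' z e
          · intro e _
            exact map_neg z e
        rw [e1] at h6
        rw [hDdef]
        exact h6
      have h4 := (Finset.card_le_card h3).trans Finset.card_le_two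
      refine le_trans (Nat.cast_le.2 h4) ?_
      norm_num
    have h3 : Tendsto (fun k => (2 : ℝ) / (Ts G (l k)).card) atTop (𝓝 0) :=
      hTs.const_div_atTop 2
    have h4 : (P : Measure (Cfg V)).real Dᶜ ≤ 0 := le_of_tendsto_of_tendsto' h1 h3 h2
    have h5 : (P : Measure (Cfg V)).real Dᶜ = 0 := le_antisymm h4 measureReal_nonneg
    rw [measureReal_eq_zero_iff] at h5
    rw [ae_iff]
    rw [hDdef] at h5
    exact h5
  -- (4) no polygons
  have hpoly : ∀ᵐ η ∂(P : Measure (Cfg V)), ∀ Z : Finset (Sym2 V), Z.Nonempty →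
      (∀ e ∈ Z, η e = true) → ∃ x y, s(x, y) ∈ Z ∧ ∀ z, s(x, z) ∈ Z → z = y := by
    rw [ae_all_iff]
    intro Z
    by_cases hZ : Z.Nonempty → ∃ x y, s(x, y) ∈ Z ∧ ∀ z, s(x, z) ∈ Z → z = y
    · exact Eventually.of_forall fun _ h _ => hZ h
    · push Not at hZ
      obtain ⟨hne, hZ⟩ := hZ
      have hd : Dep Z {η : Cfg V | ∀ e ∈ Z, η e = true} := by
        intro η η' he hη e h
        rw [← he e h]
        exact hη e h
      have h1 := hlim hd
      have h2 : (fun k => (emp G (l k)).real {η : Cfg V | ∀ e ∈ Z, η e = true}) = fun _ => 0 := by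
        funext k
        apply emp_zero G hd.meas
        intro z _ hcon
        have hsub : sh z Z ⊆ tr (l k) := by
          intro e he
          rw [mem_sh] at he
          have h3 := hcon _ he
          rw [vw_iff, map_neg] at h3
          exact h3
        obtain ⟨x, y, h3, h4⟩ := leaf (hl k).2.1 (show (sh z Z).Nonempty from hne.image _) hsub
        rw [mem_sh, Sym2.map_mk] at h3
        obtain ⟨w, h5, h6⟩ := hZ _ _ h3
        apply h6
        have h7 := h4 (z + w) (by
          have h8 : s(x, z + w) = Sym2.map (z + ·) s(-z + x, w) := by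
            rw [Sym2.map_mk]; simp
          rw [h8]
          exact sh_map.2 h5)
        rw [← h7, neg_add_cancel_left]
      rw [h2] at h1
      have h3 := tendsto_nhds_unique h1 tendsto_const_nhds
      rw [measureReal_eq_zero_iff] at h3
      rw [ae_iff]
      refine measure_mono_null (fun η hη => ?_) h3
      rw [Set.mem_setOf_eq] at hη ⊢
      by_contra hcon
      exact hη fun _ h => absurd h hcon
  refine ⟨inferInstance, ?_, hvis, ?_, ?_⟩
  · -- Gibbs
    apply gibbs_of_atomic G hμ
    intro Λ A A' hE hA hA'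
    have hne : ∀ X : Finset (Sym2 V), Vis G 0 (conf X) → X.Nonempty := by
      rintro X ⟨y, -, hy⟩
      unfold conf at hy
      rw [decide_eq_true_iff] at hy
      exact ⟨_, hy⟩
    have h1 := hlim (dep_cyl Λ A)
    have h2 := hlim (dep_cyl Λ A')
    have h3 := (h1.const_mul (μ ^ A.card)).sub (h2.const_mul (μ ^ A'.card))
    have h4 := hbal Λ A A' hE (hne A hA) (hne A' hA')
    have h5 : Tendsto (fun k => μ ^ A.card * (emp G (l k)).real (Cyl Λ A) -
        μ ^ A'.card * (emp G (l k)).real (Cyl Λ A')) atTop (𝓝 0) := by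
      rw [tendsto_zero_iff_abs_tendsto_zero] at h4 ⊢
      have h6 := h4.const_mul 3
      rw [mul_zero] at h6
      refine squeeze_zero' (Eventually.of_forall fun k => abs_nonneg _) ?_ h6
      filter_upwards [hlen2] with k hk
      simp only [Function.comp_apply]
      rw [emp_cyl G (hl k) hE.1 hA, emp_cyl G (hl k) hE.2.1 hA']
      have hT : (0 : ℝ) < (Ts G (l k)).card := by exact_mod_cast Ts_pos G (hl k)
      have hL : (0 : ℝ) < (l k).length := by
        have : 0 < (l k).length := by omega
        exact_mod_cast this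
      have e1 : μ ^ A.card * ((NN G Λ A (tr (l k)) : ℝ) / (Ts G (l k)).card) -
          μ ^ A'.card * ((NN G Λ A' (tr (l k)) : ℝ) / (Ts G (l k)).card) =
          (μ ^ A.card * NN G Λ A (tr (l k)) - μ ^ A'.card * NN G Λ A' (tr (l k))) /
            (Ts G (l k)).card := by ring
      rw [e1, abs_div, abs_div, abs_of_pos hT, abs_of_pos hL, mul_div_assoc']
      rw [div_le_div_iff₀ hT hL]
      have h7 : ((l k).length : ℝ) ≤ 3 * (Ts G (l k)).card := by
        have h8 := Ts_card G (hl k)
        have h9 := Ts_pos G (hl k)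
        have : (l k).length ≤ 3 * (Ts G (l k)).card := by omega
        exact_mod_cast this
      have h8 := abs_nonneg (μ ^ A.card * (NN G Λ A (tr (l k)) : ℝ) -
        μ ^ A'.card * NN G Λ A' (tr (l k)))
      nlinarith
    have h6 := tendsto_nhds_unique h3 h5
    linarith
  · filter_upwards [hedge, hdeg, hpoly] with η h1 h2 h3
    exact ⟨h1, h2, h3⟩
  · -- stationarity
    intro g hg D hD
    obtain ⟨m₁, hm₁⟩ : ∃ m : Measure (Cfg V), m = (P : Measure (Cfg V)).restrict {η | Vis G g η} :=
      ⟨_, rfl⟩
    obtain ⟨m₂, hm₂⟩ : ∃ m : Measure (Cfg V),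
      m = ((P : Measure (Cfg V)).restrict {η | Vis G (-g) η}).map (mv g) := ⟨_, rfl⟩
    have hf1 : IsFiniteMeasure m₁ := by rw [hm₁]; infer_instance
    have hf2 : IsFiniteMeasure m₂ := by rw [hm₂]; infer_instance
    have v1 : ∀ D, MeasurableSet D → m₁.real D =
        (P : Measure (Cfg V)).real ({η | Vis G g η} ∩ D) := by
      intro D hD
      rw [hm₁]
      unfold Measure.real
      rw [Measure.restrict_apply hD, Set.inter_comm]
    have v2 : ∀ D, MeasurableSet D → m₂.real D =
        (P : Measure (Cfg V)).real ({η | Vis G (-g) η} ∩ {η | mv g η ∈ D}) := by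
      intro D hD
      rw [hm₂]
      unfold Measure.real
      rw [Measure.map_apply (measurable_mv g) hD,
        Measure.restrict_apply ((measurable_mv g) hD), Set.inter_comm]
      rfl
    have hEq : m₁ = m₂ := by
      refine ext_cyl fun R S _ => ?_
      have h1 : m₁.real (Cyl R S) = m₂.real (Cyl R S) := by
        rw [v1 _ (dep_cyl R S).meas, v2 _ (dep_cyl R S).meas]
        have h2 := hlim ((dep_vis G g).inter (dep_cyl R S))
        have h3 := hlim ((dep_vis G (-g)).inter (dep_mv g (dep_cyl R S)))
        refine tendsto_nhds_unique (h2.congr' ?_) h3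
        filter_upwards [hlen2] with k hk
        exact emp_stat G (hl k) hk hg (dep_cyl R S).meas
      unfold Measure.real at h1
      exact (ENNReal.toReal_eq_toReal_iff' (measure_ne_top _ _) (measure_ne_top _ _)).1 h1
    rw [← v1 D hD, ← v2 D hD, hEq]

end

end U443.LG
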