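import Pool.Agent.U443.LG.Hexa

/-!
# The faces of the honeycomb lattice
-/

set_option autoImplicit false

namespace U443.LG

/-- the vertices of the hexagon at `0` -/
def hv : ZMod 6 → ℤ × ℤ := ![(0, 0), (1, 0), (2, 0), (2, 1), (1, 1), (0, 1)]

/-- the path of `k` edges along the hexagon, from its `r`-th vertex -/
def arc (r : ZMod 6) (k : ℕ) : List (ℤ × ℤ) :=
  (List.range (k + 1)).map (fun i : ℕ => hv (r + (i : ZMod 6)))

instance hexAdj_dec : DecidableRel HexAdj := fun p q => by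
  unfold HexAdj
  infer_instance

theorem hv_adj : ∀ i : ZMod 6, HexAdj (hv i) (hv (i + 1)) := by decide

theorem hv_inj : Function.Injective hv := by decide

theorem arc_nodup : ∀ (r : ZMod 6) (k : Fin 6), (arc r k).Nodup := by decide

theorem arc_chain : ∀ (r : ZMod 6) (k : Fin 6), (arc r k).IsChain HexAdj := by decide

theorem arc_ends : ∀ (r : ZMod 6) (k : Fin 6), 1 ≤ k.1 → (arc r k).head? = some (hv r) ∧
    (arc r k).getLast? = some (hv (r + ((k : ℕ) : ZMod 6))) ∧
    (arc (r + ((k : ℕ) : ZMod 6)) (6 - k)).head? = some (hv (r + ((k : ℕ) : ZMod 6))) ∧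
    (arc (r + ((k : ℕ) : ZMod 6)) (6 - k)).getLast? = some (hv r) := by decide

open Finset MeasureTheory Filter Topology
open scoped Classical

noncomputable section

theorem mem_star {V : Type} [AddCommGroup V] {G : Geo V} {x y : V} (h : G.Adj x y) :
    s(x, y) ∈ star G x := by
  unfold star
  rw [Finset.mem_image]
  exact ⟨y, (G.mem_nb _ _).2 h, rfl⟩

/-- the edges of the hexagon at `0` -/
def hexE : Finset (Sym2 (ℤ × ℤ)) := (Finset.univ : Finset (ZMod 6)).image (fun i => s(hv i, hv (i + 1)))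

/-- the edges of the hexagon and the edges at its vertices other than the `a`-th and the `b`-th -/
def hexW (a b : ZMod 6) : Finset (Sym2 (ℤ × ℤ)) :=
  hexE ∪ ((Finset.univ : Finset (ZMod 6)).filter (fun i => i ≠ a ∧ i ≠ b)).biUnion
    (fun i => star hexG (hv i))

theorem tr_arc_sub (r : ZMod 6) (k : ℕ) : tr (arc r k) ⊆ hexE := by
  intro e he
  obtain ⟨p, a, b, q, h1, rfl⟩ := mem_tr.1 he
  have hlen : (arc r k).length = k + 1 := by simp [arc]
  have hp : p.length + 1 < k + 1 := by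
    rw [← hlen, h1]
    simp
  have ha : a = hv (r + ((p.length : ℕ) : ZMod 6)) := by
    have h2 : (arc r k)[p.length]? = some a := by
      rw [h1]; simp
    unfold arc at h2
    rw [List.getElem?_map, List.getElem?_range (by omega)] at h2
    simpa using h2.symm
  have hb : b = hv (r + (((p.length + 1 : ℕ)) : ZMod 6)) := by
    have h2 : (arc r k)[p.length + 1]? = some b := by
      rw [h1]; simp
    unfold arc at h2
    rw [List.getElem?_map, List.getElem?_range (by omega)] at h2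
    simpa using h2.symm
  unfold hexE
  rw [Finset.mem_image]
  refine ⟨r + ((p.length : ℕ) : ZMod 6), Finset.mem_univ _, ?_⟩
  rw [ha, hb]
  push_cast
  rw [add_assoc]

theorem mem_arc {r : ZMod 6} {k : ℕ} {x : ℤ × ℤ} (h : x ∈ arc r k) : ∃ i, x = hv i := by
  unfold arc at h
  rw [List.mem_map] at h
  obtain ⟨i, -, hi⟩ := h
  exact ⟨_, hi.symm⟩

/-- an arc of the hexagon and the complementary arc -/
theorem arc_twin (r : ZMod 6) (k : Fin 6) (hk : 1 ≤ k.1) :
    Twin HexAdj (arc r k) (arc (r + ((k : ℕ) : ZMod 6)) (6 - k)).reverse := by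
  obtain ⟨h1, h2, h3, h4⟩ := arc_ends r k hk
  have hk' : 6 - k.1 < 6 := by omega
  have h5 := arc_nodup (r + ((k : ℕ) : ZMod 6)) ⟨6 - k.1, hk'⟩
  have h6 := arc_chain (r + ((k : ℕ) : ZMod 6)) ⟨6 - k.1, hk'⟩
  refine ⟨arc_nodup r k, List.nodup_reverse.2 h5, arc_chain r k, ?_, ?_, ?_, ?_⟩
  · rw [List.isChain_reverse]
    exact h6.imp fun a b h => hexG.symm a b h
  · rw [List.head?_reverse, h4, h1]
  · rw [List.getLast?_reverse, h3, h2]
  · simp only [arc, List.length_map, List.length_range]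
    omega

theorem arc_exch (r : ZMod 6) (k : Fin 6) (hk : 1 ≤ k.1) :
    Exch hexG (hexW r (r + ((k : ℕ) : ZMod 6))) (tr (arc r k))
      (tr (arc (r + ((k : ℕ) : ZMod 6)) (6 - k))) := by
  obtain ⟨s, hs⟩ : ∃ s : ZMod 6, s = r + ((k : ℕ) : ZMod 6) := ⟨_, rfl⟩
  rw [← hs]
  have htw := arc_twin r k hk
  rw [← hs] at htw
  obtain ⟨e1, e2, e3, e4⟩ := arc_ends r k hk
  rw [← hs] at e2 e3 e4
  have hE : ∀ (r' : ZMod 6) (k' : ℕ), tr (arc r' k') ⊆ hexW r s := fun r' k' =>
    (tr_arc_sub r' k').trans Finset.subset_union_left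
  have hstar : ∀ (x : ℤ × ℤ), (∃ i, x = hv i) → x ≠ hv r → x ≠ hv s → ∀ y, HexAdj x y →
      s(x, y) ∈ hexW r s := by
    rintro x ⟨i, rfl⟩ hr hs' y hy
    unfold hexW
    apply Finset.mem_union_right
    rw [Finset.mem_biUnion]
    refine ⟨i, ?_, ?_⟩
    · rw [Finset.mem_filter]
      exact ⟨Finset.mem_univ _, fun h => hr (by rw [h]), fun h => hs' (by rw [h])⟩
    · exact mem_star hy
  have hr1 : hv r ∈ arc r k := List.mem_of_mem_head? e1
  have hs1 : hv s ∈ arc r k := List.mem_of_getLast? e2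
  have hs2 : hv s ∈ arc s (6 - k) := List.mem_of_mem_head? e3
  have hr2 : hv r ∈ arc s (6 - k) := List.mem_of_getLast? e4
  refine ⟨hE _ _, hE _ _, fun v W hW => ?_⟩
  constructor
  · rintro ⟨l, hl, ht⟩
    have := exch_path hexG.symm htw (hE _ _) (by rw [tr_reverse]; exact hE _ _) (by
      intro x hx hxU
      rw [List.mem_reverse] at hx
      refine hstar x (mem_arc hx) ?_ ?_
      · rintro rfl; exact hxU hr1
      · rintro rfl; exact hxU hs1) hW hl ht
    rwa [tr_reverse] at this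
  · rintro ⟨l, hl, ht⟩
    have := exch_path hexG.symm htw.symm (by rw [tr_reverse]; exact hE _ _) (hE _ _) (by
      intro x hx hxU
      rw [List.mem_reverse] at hxU
      refine hstar x (mem_arc hx) ?_ ?_
      · rintro rfl; exact hxU hr2
      · rintro rfl; exact hxU hs2) hW hl (by rw [tr_reverse]; exact ht)
    exact this

/-- `faces k l`: the number of the hexagons such that, of their six edges and of the edges at their
vertices other than the end points of the path, the walk `l` uses exactly the edges of a path of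
`k` consecutive edges of the hexagon -/
def faces (k : ℕ) (l : List (ℤ × ℤ)) : ℕ :=
  ∑ r : ZMod 6, NN hexG (hexW r (r + (k : ZMod 6))) (tr (arc r k)) (tr l)

theorem hexW_comm (a b : ZMod 6) : hexW a b = hexW b a := by
  unfold hexW
  congr 2
  apply Finset.filter_congr
  intro i _
  exact and_comm

theorem card_arc (r : ZMod 6) (k : Fin 6) : (tr (arc r k)).card = k := by
  rw [card_tr (arc_nodup r k)]
  simp [arc]

theorem faces_compl (k : Fin 6) (hk : 1 ≤ k.1) (l : List (ℤ × ℤ)) :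
    (faces (6 - k) l) = ∑ r : ZMod 6, NN hexG (hexW r (r + ((k : ℕ) : ZMod 6)))
      (tr (arc (r + ((k : ℕ) : ZMod 6)) (6 - k))) (tr l) := by
  unfold faces
  refine (Fintype.sum_equiv (Equiv.addRight ((k : ℕ) : ZMod 6)) _ _ fun r => ?_).symm
  rw [Equiv.coe_addRight]
  have e1 : r + ((k : ℕ) : ZMod 6) + ((6 - k.1 : ℕ) : ZMod 6) = r := by
    rw [add_assoc, ← Nat.cast_add]
    have : k.1 + (6 - k.1) = 6 := by omega
    rw [this]
    have h6 : ((6 : ℕ) : ZMod 6) = 0 := by decide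
    rw [h6, add_zero]
  rw [e1, hexW_comm]

/-- **the law of the faces** -/
theorem faces_law : ∃ K c : ℝ, 0 < c ∧ ∀ k : Fin 6, 1 ≤ k.1 → ∀ n : ℕ, 2 ≤ n → ∀ t : ℝ, 0 ≤ t →
    (((WL hexG n).filter (fun l => t ≤ |mu ^ (k : ℕ) * faces k l -
      mu ^ (6 - (k : ℕ)) * faces (6 - k) l|)).card : ℝ) ≤
      Real.exp (K * Real.log n ^ 2 - c * t ^ 2 / n) * (WL hexG n).card := by
  obtain ⟨K, hK⟩ := hex_balance
  have hne : ∀ (r : ZMod 6) (k : ℕ), 1 ≤ k → k < 6 → (tr (arc r k)).Nonempty := by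
    intro r k hk hk6
    rw [← Finset.card_pos]
    have := card_arc r ⟨k, hk6⟩
    simp only at this
    omega
  have hex : ∀ (k : Fin 6) (r : ZMod 6), ∃ c : ℝ, 0 < c ∧ (1 ≤ k.1 → ∀ n : ℕ, 2 ≤ n → ∀ t : ℝ,
      0 ≤ t → (((WL hexG n).filter (fun l => t ≤ |mu ^ (k : ℕ) *
        NN hexG (hexW r (r + ((k : ℕ) : ZMod 6))) (tr (arc r k)) (tr l) -
      mu ^ (6 - (k : ℕ)) * NN hexG (hexW r (r + ((k : ℕ) : ZMod 6)))
        (tr (arc (r + ((k : ℕ) : ZMod 6)) (6 - k))) (tr l)|)).card : ℝ) ≤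
      Real.exp (K * Real.log n ^ 2 - c * t ^ 2 / n) * (WL hexG n).card) := by
    intro k r
    by_cases hk : 1 ≤ k.1
    · have hk6 : 6 - k.1 < 6 := by omega
      obtain ⟨c, hc, h⟩ := hK _ _ _ (arc_exch r k hk) (hne r k hk k.2)
        (hne (r + ((k : ℕ) : ZMod 6)) (6 - k) (by omega) hk6)
      rw [card_arc] at h
      have e1 := card_arc (r + ((k : ℕ) : ZMod 6)) ⟨6 - k.1, hk6⟩
      simp only at e1
      rw [e1] at h
      exact ⟨c, hc, fun _ => h⟩
    · exact ⟨1, one_pos, fun h => absurd h hk⟩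
  choose c hc h using hex
  obtain ⟨c0, hc0, hc0'⟩ : ∃ c0 : ℝ, 0 < c0 ∧ ∀ k r, c0 ≤ c k r := by
    refine ⟨Finset.univ.inf' Finset.univ_nonempty (fun p : Fin 6 × ZMod 6 => c p.1 p.2), ?_, ?_⟩
    · rw [Finset.lt_inf'_iff]
      intro p _
      exact hc p.1 p.2
    · intro k r
      exact Finset.inf'_le (fun p : Fin 6 × ZMod 6 => c p.1 p.2) (Finset.mem_univ (k, r))
  have hl2 : 0 < Real.log 2 := Real.log_pos (by norm_num)
  refine ⟨K + Real.log 6 / Real.log 2 ^ 2, c0 / 36, by positivity, ?_⟩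
  intro k hk n hn t ht
  have hn' : (2 : ℝ) ≤ n := by exact_mod_cast hn
  obtain ⟨X, hX⟩ : ∃ X : ZMod 6 → List (ℤ × ℤ) → ℝ, X = fun r l => mu ^ (k : ℕ) *
        NN hexG (hexW r (r + ((k : ℕ) : ZMod 6))) (tr (arc r k)) (tr l) -
      mu ^ (6 - (k : ℕ)) * NN hexG (hexW r (r + ((k : ℕ) : ZMod 6)))
        (tr (arc (r + ((k : ℕ) : ZMod 6)) (6 - k))) (tr l) := ⟨_, rfl⟩
  have hsum : ∀ l, mu ^ (k : ℕ) * faces k l - mu ^ (6 - (k : ℕ)) * faces (6 - k) l =
      ∑ r : ZMod 6, X r l := by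
    intro l
    rw [faces_compl k hk l]
    unfold faces
    rw [hX]
    push_cast
    rw [Finset.mul_sum, Finset.mul_sum, ← Finset.sum_sub_distrib]
  have hsub : ((WL hexG n).filter (fun l => t ≤ |mu ^ (k : ℕ) * faces k l -
      mu ^ (6 - (k : ℕ)) * faces (6 - k) l|)) ⊆
      (Finset.univ : Finset (ZMod 6)).biUnion (fun r =>
        (WL hexG n).filter (fun l => t / 6 ≤ |X r l|)) := by
    intro l hl
    rw [Finset.mem_filter, hsum] at hl
    rw [Finset.mem_biUnion]
    by_contra hcon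
    push Not at hcon
    have h1 : ∀ r ∈ (Finset.univ : Finset (ZMod 6)), |X r l| < t / 6 := by
      intro r hr
      have h2 := hcon r hr
      rw [Finset.mem_filter, not_and, not_le] at h2
      exact h2 hl.1
    have h2 := Finset.abs_sum_le_sum_abs (fun r => X r l) (Finset.univ : Finset (ZMod 6))
    have h3 := Finset.sum_lt_sum_of_nonempty (Finset.univ_nonempty) h1
    rw [Finset.sum_const, nsmul_eq_mul] at h3
    have h4 : ((Finset.univ : Finset (ZMod 6)).card : ℝ) = 6 := by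
      rw [Finset.card_univ, ZMod.card]
      norm_num
    rw [h4] at h3
    linarith
  have h1 := (Finset.card_le_card hsub).trans Finset.card_biUnion_le
  have h2 := (Nat.cast_le (α := ℝ)).2 h1
  rw [Nat.cast_sum] at h2
  have h3 : ∀ r ∈ (Finset.univ : Finset (ZMod 6)),
      (((WL hexG n).filter (fun l => t / 6 ≤ |X r l|)).card : ℝ) ≤
      Real.exp (K * Real.log n ^ 2 - c0 / 36 * t ^ 2 / n) * (WL hexG n).card := by
    intro r _
    have h4 := h k r hk n hn (t / 6) (by positivity)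
    rw [hX]
    refine h4.trans ?_
    apply mul_le_mul_of_nonneg_right _ (Nat.cast_nonneg _)
    rw [Real.exp_le_exp]
    have h5 : c0 / 36 * t ^ 2 / n ≤ c k r * (t / 6) ^ 2 / n := by
      apply div_le_div_of_nonneg_right _ (by positivity)
      have := hc0' k r
      nlinarith [sq_nonneg t]
    linarith
  have h4 := Finset.sum_le_sum h3
  rw [Finset.sum_const, nsmul_eq_mul] at h4
  have h5 : ((Finset.univ : Finset (ZMod 6)).card : ℝ) = 6 := by
    rw [Finset.card_univ, ZMod.card]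
    norm_num
  rw [h5] at h4
  refine h2.trans (h4.trans ?_)
  rw [← mul_assoc]
  apply mul_le_mul_of_nonneg_right _ (Nat.cast_nonneg _)
  have e6 : (6 : ℝ) = Real.exp (Real.log 6) := (Real.exp_log (by norm_num)).symm
  conv_lhs => rw [e6]
  rw [← Real.exp_add, Real.exp_le_exp]
  have hln : Real.log 2 ≤ Real.log n := Real.log_le_log (by norm_num) hn'
  have h7 : Real.log 6 ≤ Real.log 6 / Real.log 2 ^ 2 * Real.log n ^ 2 := by
    rw [div_mul_eq_mul_div, le_div_iff₀ (by positivity)]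
    apply mul_le_mul_of_nonneg_left _ (Real.log_nonneg (by norm_num))
    exact pow_le_pow_left₀ hl2.le hln 2
  nlinarith

end

end U443.LG
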