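import Mathlib

/-!
# The edge set of a self-avoiding list of vertices
-/

set_option autoImplicit false

namespace U443.LG

open Finset
open scoped Classical

noncomputable section

variable {V : Type}

/-- the edges of a list of vertices -/
def tr : List V → Finset (Sym2 V)
  | [] => ∅
  | [_] => ∅
  | a :: b :: l => insert s(a, b) (tr (b :: l))

theorem mem_tr {l : List V} {e : Sym2 V} :
    e ∈ tr l ↔ ∃ p a b q, l = p ++ a :: b :: q ∧ e = s(a, b) := by
  induction l with
  | nil =>
    simp only [tr, Finset.notMem_empty, false_iff]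
    rintro ⟨p, a, b, q, h, -⟩
    simp at h
  | cons x l ih =>
    cases l with
    | nil =>
      simp only [tr, Finset.notMem_empty, false_iff]
      rintro ⟨p, a, b, q, h, -⟩
      have := congrArg List.length h
      simp at this
      omega
    | cons y l =>
      simp only [tr, Finset.mem_insert]
      constructor
      · rintro (h | h)
        · exact ⟨[], x, y, l, rfl, h⟩
        · obtain ⟨p, a, b, q, h1, h2⟩ := ih.1 h
          exact ⟨x :: p, a, b, q, by rw [h1]; rfl, h2⟩
      · rintro ⟨p, a, b, q, h1, h2⟩
        cases p with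
        | nil =>
          left
          simp only [List.nil_append, List.cons.injEq] at h1
          rw [h2, h1.1, h1.2.1]
        | cons z p =>
          right
          simp only [List.cons_append, List.cons.injEq] at h1
          exact ih.2 ⟨p, a, b, q, h1.2, h2⟩

theorem tr_sub_left {l : List V} {a b : V} (h : s(a, b) ∈ tr l) : a ∈ l ∧ b ∈ l := by
  obtain ⟨p, x, y, q, h1, h2⟩ := mem_tr.1 h
  rw [Sym2.eq_iff] at h2
  rw [h1]
  rcases h2 with ⟨rfl, rfl⟩ | ⟨rfl, rfl⟩ <;> simp

theorem mem_of_mem_tr {l : List V} {e : Sym2 V} (h : e ∈ tr l) {x : V} (hx : x ∈ e) : x ∈ l := by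
  obtain ⟨p, a, b, q, h1, rfl⟩ := mem_tr.1 h
  rw [Sym2.mem_iff] at hx
  rw [h1]
  rcases hx with rfl | rfl <;> simp

theorem adj_of_mem_tr {Adj : V → V → Prop} (hs : ∀ a b, Adj a b → Adj b a) {l : List V}
    (hl : l.IsChain Adj) {a b : V} (h : s(a, b) ∈ tr l) : Adj a b := by
  obtain ⟨p, x, y, q, rfl, h2⟩ := mem_tr.1 h
  rw [List.isChain_append] at hl
  have h3 := hl.2.1
  rw [List.isChain_cons_cons] at h3
  rw [Sym2.eq_iff] at h2
  rcases h2 with ⟨rfl, rfl⟩ | ⟨rfl, rfl⟩
  · exact h3.1
  · exact hs _ _ h3.1

theorem tr_reverse (l : List V) : tr l.reverse = tr l := by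
  have key : ∀ l : List V, tr l ⊆ tr l.reverse := by
    intro l e he
    obtain ⟨p, a, b, q, h1, h2⟩ := mem_tr.1 he
    rw [mem_tr]
    refine ⟨q.reverse, b, a, p.reverse, by rw [h1]; simp, ?_⟩
    rw [h2]
    exact Sym2.eq_swap
  apply Finset.Subset.antisymm _ (key l)
  have := key l.reverse
  rwa [List.reverse_reverse] at this

theorem tr_append (p : List V) (a : V) (q : List V) :
    tr (p ++ a :: q) = tr (p ++ [a]) ∪ tr (a :: q) := by
  induction p with
  | nil => simp [tr]
  | cons x p ih =>
    cases p with
    | nil =>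
      simp only [List.cons_append, List.nil_append, tr]
      rw [Finset.insert_union, Finset.empty_union]
    | cons y p =>
      simp only [List.cons_append, tr] at ih ⊢
      rw [ih, Finset.insert_union]

theorem card_tr {l : List V} (hl : l.Nodup) : (tr l).card = l.length - 1 := by
  induction l with
  | nil => rfl
  | cons x l ih =>
    cases l with
    | nil => rfl
    | cons y l =>
      rw [List.nodup_cons] at hl
      have h1 : s(x, y) ∉ tr (y :: l) := fun h => hl.1 (tr_sub_left h).1
      show (insert s(x, y) (tr (y :: l))).card = _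
      rw [Finset.card_insert_of_notMem h1, ih hl.2]
      simp

theorem exists_edge {l : List V} (h2 : 2 ≤ l.length) {x : V} (hx : x ∈ l) :
    ∃ y, s(x, y) ∈ tr l := by
  obtain ⟨p, q, rfl⟩ := List.append_of_mem hx
  cases q with
  | cons y q => exact ⟨y, mem_tr.2 ⟨p, x, y, q, rfl, rfl⟩⟩
  | nil =>
    rcases List.eq_nil_or_concat p with rfl | ⟨p', y, rfl⟩
    · simp at h2
    · refine ⟨y, mem_tr.2 ⟨p', y, x, [], by simp, Sym2.eq_swap⟩⟩

/-- a self-avoiding list is determined by its first point and its edges -/
theorem tr_inj {l l' : List V} (hl : l.Nodup) (hl' : l'.Nodup) (h0 : l ≠ []) (h0' : l' ≠ [])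
    (hh : l.head? = l'.head?) (ht : tr l = tr l') : l = l' := by
  induction l generalizing l' with
  | nil => exact absurd rfl h0
  | cons a l ih =>
    cases l' with
    | nil => exact absurd rfl h0'
    | cons a' l' =>
      simp only [List.head?_cons, Option.some.injEq] at hh
      subst hh
      cases l with
      | nil =>
        cases l' with
        | nil => rfl
        | cons b' l' =>
          exfalso
          have : s(a, b') ∈ tr [a] := by
            rw [ht]
            simp [tr]
          simp [tr] at this
      | cons b l =>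
        cases l' with
        | nil =>
          exfalso
          have : s(a, b) ∈ tr [a] := by
            rw [← ht]
            simp [tr]
          simp [tr] at this
        | cons b' l' =>
          rw [List.nodup_cons] at hl hl'
          have hb : b = b' := by
            have h1 : s(a, b) ∈ tr (a :: b' :: l') := by rw [← ht]; simp [tr]
            simp only [tr, Finset.mem_insert] at h1
            rcases h1 with h1 | h1
            · rw [Sym2.eq_iff] at h1
              rcases h1 with ⟨-, h⟩ | ⟨h, h'⟩
              · exact h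
              · rw [h', h]
            · exact absurd (tr_sub_left h1).1 hl'.1
          subst hb
          have ht' : tr (b :: l) = tr (b :: l') := by
            have e1 : tr (b :: l) = (tr (a :: b :: l)).erase s(a, b) := by
              have h1 : s(a, b) ∉ tr (b :: l) := fun h => hl.1 (tr_sub_left h).1
              show _ = (insert s(a, b) (tr (b :: l))).erase s(a, b)
              rw [Finset.erase_insert h1]
            have e2 : tr (b :: l') = (tr (a :: b :: l')).erase s(a, b) := by
              have h1 : s(a, b) ∉ tr (b :: l') := fun h => hl'.1 (tr_sub_left h).1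
              show _ = (insert s(a, b) (tr (b :: l'))).erase s(a, b)
              rw [Finset.erase_insert h1]
            rw [e1, e2, ht]
          rw [ih hl.2 hl'.2 (by simp) (by simp) rfl ht']

theorem split_unique {p q p' q' : List V} {a : V} (h : p ++ a :: q = p' ++ a :: q')
    (hn : (p ++ a :: q).Nodup) : p = p' ∧ q = q' := by
  have h1 : a ∉ p := by
    intro hp
    rw [List.nodup_append] at hn
    exact hn.2.2 a hp a (by simp) rfl
  have h2 : a ∉ p' := by
    intro hp
    rw [h, List.nodup_append] at hn
    exact hn.2.2 a hp a (by simp) rfl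
  have h3 := congrArg (List.takeWhile (fun x => decide (x ≠ a))) h
  rw [List.takeWhile_append_of_pos (by
      intro x hx
      simp only [ne_eq, decide_not, Bool.not_eq_eq_eq_not, Bool.not_true, decide_eq_false_iff_not]
      rintro rfl
      exact h1 hx), List.takeWhile_append_of_pos (by
      intro x hx
      simp only [ne_eq, decide_not, Bool.not_eq_eq_eq_not, Bool.not_true, decide_eq_false_iff_not]
      rintro rfl
      exact h2 hx)] at h3
  simp only [ne_eq, decide_not, List.takeWhile_cons, decide_true, Bool.not_true,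
    Bool.false_eq_true, if_false, List.append_nil] at h3
  subst h3
  exact ⟨rfl, by simpa using h⟩

/-- one more edge of a block -/
theorem block_step {l U : List V} {x z y : V} (hl : l.Nodup) (hU : (U ++ [z, y] ++ [x]).Nodup)
    (hb : U ++ [z, y] <:+: l) (he : s(y, x) ∈ tr l) : U ++ [z, y] ++ [x] <:+: l := by
  obtain ⟨p, q, rfl⟩ := hb
  have e0 : p ++ (U ++ [z, y]) ++ q = (p ++ U ++ [z]) ++ y :: q := by simp
  rw [e0] at hl he ⊢
  obtain ⟨p', a, b, q', h1, h2⟩ := mem_tr.1 he
  rw [Sym2.eq_iff] at h2
  rcases h2 with ⟨rfl, rfl⟩ | ⟨rfl, rfl⟩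
  · obtain ⟨h3, h4⟩ := split_unique h1 hl
    rw [h4]
    exact ⟨p, q', by simp⟩
  · exfalso
    have h1' : (p ++ U ++ [z]) ++ y :: q = (p' ++ [x]) ++ y :: q' := by rw [h1]; simp
    obtain ⟨h3, h4⟩ := split_unique h1' hl
    have h5 : z = x := by
      have h6 := congrArg List.getLast? h3
      simpa using h6
    subst h5
    rw [List.nodup_append] at hU
    exact hU.2.2 z (by simp) z (by simp) rfl

/-- the edges of a self-avoiding path contained in those of `l` form a block of `l` -/
theorem block {l : List V} (hl : l.Nodup) (U : List V) (hU : U.Nodup) (h2 : 2 ≤ U.length)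
    (hs : tr U ⊆ tr l) : U <:+: l ∨ U <:+: l.reverse := by
  induction U using List.reverseRecOn with
  | nil => simp at h2
  | append_singleton U x ih =>
    rcases List.eq_nil_or_concat U with rfl | ⟨U1, y, rfl⟩
    · simp at h2
    · rw [List.concat_eq_append] at *
      rcases List.eq_nil_or_concat U1 with rfl | ⟨U2, z, rfl⟩
      · have h3 : s(y, x) ∈ tr l := hs (by simp [tr])
        obtain ⟨p, a, b, q, h4, h5⟩ := mem_tr.1 h3
        rw [Sym2.eq_iff] at h5
        rcases h5 with ⟨rfl, rfl⟩ | ⟨rfl, rfl⟩
        · left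
          exact ⟨p, q, by rw [h4]; simp⟩
        · right
          exact ⟨q.reverse, p.reverse, by rw [h4]; simp⟩
      · rw [List.concat_eq_append] at *
        have e0 : U2 ++ [z] ++ [y] = U2 ++ [z, y] := by simp
        rw [e0] at hU hs ih ⊢
        have hsub : tr (U2 ++ [z, y]) ⊆ tr (U2 ++ [z, y] ++ [x]) := by
          have e1 : U2 ++ [z, y] ++ [x] = (U2 ++ [z]) ++ y :: [x] := by simp
          have e2 : U2 ++ [z, y] = (U2 ++ [z]) ++ [y] := by simp
          rw [e1, tr_append (U2 ++ [z]) y [x], e2]
          exact Finset.subset_union_left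
        have hlast : s(y, x) ∈ tr (U2 ++ [z, y] ++ [x]) :=
          mem_tr.2 ⟨U2 ++ [z], y, x, [], by simp, rfl⟩
        have hU' : (U2 ++ [z, y]).Nodup := by
          rw [List.nodup_append] at hU
          exact hU.1
        rcases ih hU' (by simp) (hsub.trans hs) with h | h
        · exact Or.inl (block_step hl hU h (hs hlast))
        · refine Or.inr (block_step (List.nodup_reverse.2 hl) hU h ?_)
          rw [tr_reverse]
          exact hs hlast

/-- self-avoiding walk from `v`, as a list -/
def Walk (Adj : V → V → Prop) (v : V) (l : List V) : Prop :=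
  l.head? = some v ∧ l.Nodup ∧ l.IsChain Adj

/-- two self-avoiding paths with the same end points -/
structure Twin (Adj : V → V → Prop) (U U' : List V) : Prop where
  nd : U.Nodup
  nd' : U'.Nodup
  ch : U.IsChain Adj
  ch' : U'.IsChain Adj
  hd : U.head? = U'.head?
  lt : U.getLast? = U'.getLast?
  len : 2 ≤ U.length

theorem Twin.ne {Adj : V → V → Prop} {U U' : List V} (h : Twin Adj U U') : U ≠ [] := by
  rintro rfl
  have := h.len
  simp at this

theorem Twin.ne' {Adj : V → V → Prop} {U U' : List V} (h : Twin Adj U U') : U' ≠ [] := by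
  rintro rfl
  have h1 := h.hd
  rw [List.head?_nil, List.head?_eq_none_iff] at h1
  exact h.ne h1

theorem Twin.len' {Adj : V → V → Prop} {U U' : List V} (h : Twin Adj U U') : 2 ≤ U'.length := by
  by_contra hcon
  obtain ⟨a, ha⟩ : ∃ a, U' = [a] := by
    rcases U' with - | ⟨a, U'⟩
    · exact absurd rfl h.ne'
    · rcases U' with - | ⟨b, U'⟩
      · exact ⟨a, rfl⟩
      · simp at hcon
  subst ha
  have h1 := h.hd
  have h2 := h.lt
  obtain ⟨b, c, U1, rfl⟩ : ∃ b c U1, U = b :: c :: U1 := by
    rcases U with - | ⟨b, U⟩
    · exact absurd rfl h.ne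
    · rcases U with - | ⟨c, U⟩
      · have := h.len
        simp at this
      · exact ⟨b, c, U, rfl⟩
  simp only [List.head?_cons, Option.some.injEq] at h1
  subst h1
  have h3 := h.nd
  rw [List.nodup_cons] at h3
  apply h3.1
  apply List.mem_of_getLast?
  rw [List.getLast?_cons_cons] at h2
  rw [h2]
  rfl

theorem Twin.symm {Adj : V → V → Prop} {U U' : List V} (h : Twin Adj U U') : Twin Adj U' U :=
  ⟨h.nd', h.nd, h.ch', h.ch, h.hd.symm, h.lt.symm, h.len'⟩

theorem Twin.rev {Adj : V → V → Prop} (hs : ∀ a b, Adj a b → Adj b a) {U U' : List V}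
    (h : Twin Adj U U') : Twin Adj U.reverse U'.reverse where
  nd := List.nodup_reverse.2 h.nd
  nd' := List.nodup_reverse.2 h.nd'
  ch := by
    rw [List.isChain_reverse]
    exact h.ch.imp fun a b => hs a b
  ch' := by
    rw [List.isChain_reverse]
    exact h.ch'.imp fun a b => hs a b
  hd := by rw [List.head?_reverse, List.head?_reverse, h.lt]
  lt := by rw [List.getLast?_reverse, List.getLast?_reverse, h.hd]
  len := by rw [List.length_reverse]; exact h.len

/-- the decomposition of the edges of `p ++ U ++ q` -/
theorem tr_three (p U q : List V) (a b : V) (ha : U.head? = some a) (hb : U.getLast? = some b) :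
    tr (p ++ U ++ q) = (tr (p ++ [a]) ∪ tr (b :: q)) ∪ tr U := by
  obtain ⟨U1, rfl⟩ : ∃ U1, U = a :: U1 := by
    rcases U with - | ⟨x, U⟩
    · simp at ha
    · simp only [List.head?_cons, Option.some.injEq] at ha
      exact ⟨U, by rw [ha]⟩
  have e1 : p ++ a :: U1 ++ q = p ++ a :: (U1 ++ q) := by simp
  rw [e1, tr_append p a (U1 ++ q)]
  rcases List.eq_nil_or_concat (a :: U1) with h | ⟨U2, c, h⟩
  · simp at h
  · rw [List.concat_eq_append] at h
    rw [h, List.getLast?_append] at hb
    simp at hb
    subst hb
    have e2 : a :: (U1 ++ q) = U2 ++ c :: q := by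
      have : a :: (U1 ++ q) = (a :: U1) ++ q := by simp
      rw [this, h]
      simp
    rw [e2, tr_append U2 c q, h]
    ext e
    simp only [Finset.mem_union]
    tauto

theorem exch_aux {Adj : V → V → Prop} (hs : ∀ a b, Adj a b → Adj b a) {U U' : List V}
    (h : Twin Adj U U') {Λ W : Finset (Sym2 V)} (h1 : tr U ⊆ Λ) (h2 : tr U' ⊆ Λ)
    (h3 : ∀ x ∈ U', x ∉ U → ∀ y, Adj x y → s(x, y) ∈ Λ) (hW : Disjoint W Λ)
    {v : V} {l : List V} (hl : Walk Adj v l) (ht : tr l = W ∪ tr U) (hb : U <:+: l) :
    ∃ l', Walk Adj v l' ∧ tr l' = W ∪ tr U' := by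
  obtain ⟨p, q, rfl⟩ := hb
  obtain ⟨g1, g2, g3⟩ := hl
  obtain ⟨a, ha⟩ : ∃ a, U.head? = some a := by
    cases hU : U.head? with
    | none => rw [List.head?_eq_none_iff] at hU; exact absurd hU h.ne
    | some a => exact ⟨a, rfl⟩
  obtain ⟨b, hb⟩ : ∃ b, U.getLast? = some b := by
    cases hU : U.getLast? with
    | none => rw [List.getLast?_eq_none_iff] at hU; exact absurd hU h.ne
    | some a => exact ⟨a, rfl⟩
  have ha' : U'.head? = some a := by rw [← h.hd, ha]
  have hb' : U'.getLast? = some b := by rw [← h.lt, hb]
  have hnew : ∀ x ∈ U', x ∉ U → x ∉ p ++ U ++ q := by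
    intro x hx hxU hxl
    have hlen : 2 ≤ (p ++ U ++ q).length := by
      have := h.len
      simp only [List.length_append]
      omega
    obtain ⟨y, hy⟩ := exists_edge hlen hxl
    have hadj : Adj x y := adj_of_mem_tr hs g3 hy
    have hΛ := h3 x hx hxU y hadj
    rw [ht, Finset.mem_union] at hy
    rcases hy with hy | hy
    · exact (Finset.disjoint_left.1 hW) hy hΛ
    · exact hxU (tr_sub_left hy).1
  have hnd := g2
  rw [List.nodup_append, List.nodup_append] at hnd
  obtain ⟨⟨n1, n2, n3⟩, n4, n5⟩ := hnd
  have hpU : ∀ x ∈ U', x ∉ p := by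
    intro x hx hxp
    by_cases hxU : x ∈ U
    · exact n3 x hxp x hxU rfl
    · exact hnew x hx hxU (by simp [hxp])
  have hqU : ∀ x ∈ U', x ∉ q := by
    intro x hx hxq
    by_cases hxU : x ∈ U
    · exact n5 x (by simp [hxU]) x hxq rfl
    · exact hnew x hx hxU (by simp [hxq])
  refine ⟨p ++ U' ++ q, ⟨?_, ?_, ?_⟩, ?_⟩
  · cases p with
    | nil =>
      rw [List.nil_append, List.head?_append_of_ne_nil _ h.ne'] 
      rw [List.nil_append, List.head?_append_of_ne_nil _ h.ne] at g1
      rw [ha', ← ha, g1]
    | cons x p => simpa using g1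
  · rw [List.nodup_append, List.nodup_append]
    refine ⟨⟨n1, h.nd', ?_⟩, n4, ?_⟩
    · rintro x hx y hy rfl
      exact hpU x hy hx
    · rintro x hx y hy rfl
      rw [List.mem_append] at hx
      rcases hx with hx | hx
      · exact n5 x (by simp [hx]) x hy rfl
      · exact hqU x hx hy
  · rw [List.isChain_append, List.isChain_append] at g3 ⊢
    obtain ⟨⟨c1, c2, c3⟩, c4, c5⟩ := g3
    refine ⟨⟨c1, h.ch', ?_⟩, c4, ?_⟩
    · rw [← h.hd]
      exact c3
    · rw [List.getLast?_append_of_ne_nil _ h.ne', ← h.lt, ← List.getLast?_append_of_ne_nil p h.ne]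
      exact c5
  · have k1 := tr_three p U q a b ha hb
    have k2 := tr_three p U' q a b ha' hb'
    rw [k2]
    have hW' : W = tr (p ++ [a]) ∪ tr (b :: q) := by
      have d1 : ∀ e ∈ tr (p ++ [a]) ∪ tr (b :: q), e ∉ tr U := by
        intro e he heU
        rw [Finset.mem_union] at he
        rcases he with he | he
        · obtain ⟨p1, x, y, q1, e1, rfl⟩ := mem_tr.1 he
          have hxU := (tr_sub_left heU).1
          have hxp : x ∈ p := by
            rcases List.eq_nil_or_concat q1 with rfl | ⟨q2, z, rfl⟩
            · have e2 : p ++ [a] = (p1 ++ [x]) ++ [y] := by rw [e1]; simp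
              have e3 := (List.append_inj' e2 rfl).1
              rw [e3]; simp
            · rw [List.concat_eq_append] at e1
              have e2 : p ++ [a] = (p1 ++ x :: y :: q2) ++ [z] := by rw [e1]; simp
              have e3 := (List.append_inj' e2 rfl).1
              rw [e3]; simp
          exact n3 x hxp x hxU rfl
        · obtain ⟨p1, x, y, q1, e1, rfl⟩ := mem_tr.1 he
          have hyU := (tr_sub_left heU).2
          have hyq : y ∈ q := by
            cases p1 with
            | nil =>
              simp only [List.nil_append, List.cons.injEq] at e1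
              rw [e1.2]; simp
            | cons z p1 =>
              simp only [List.cons_append, List.cons.injEq] at e1
              rw [e1.2]; simp
          exact n5 y (by simp [hyU]) y hyq rfl
      have d2 : ∀ e ∈ W, e ∉ tr U := fun e he heU => (Finset.disjoint_left.1 hW) he (h1 heU)
      rw [k1] at ht
      ext e
      constructor
      · intro he
        have h6 : e ∈ (tr (p ++ [a]) ∪ tr (b :: q)) ∪ tr U := by
          rw [ht]
          exact Finset.mem_union_left _ he
        rcases Finset.mem_union.1 h6 with h6 | h6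
        · exact h6
        · exact absurd h6 (d2 e he)
      · intro he
        have h6 : e ∈ W ∪ tr U := by
          rw [← ht]
          exact Finset.mem_union_left _ he
        rcases Finset.mem_union.1 h6 with h6 | h6
        · exact h6
        · exact absurd h6 (d1 e he)
    rw [hW']

/-- **replacing a path by another one** -/
theorem exch_path {Adj : V → V → Prop} (hs : ∀ a b, Adj a b → Adj b a) {U U' : List V}
    (h : Twin Adj U U') {Λ W : Finset (Sym2 V)} (h1 : tr U ⊆ Λ) (h2 : tr U' ⊆ Λ)
    (h3 : ∀ x ∈ U', x ∉ U → ∀ y, Adj x y → s(x, y) ∈ Λ) (hW : Disjoint W Λ)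
    {v : V} {l : List V} (hl : Walk Adj v l) (ht : tr l = W ∪ tr U) :
    ∃ l', Walk Adj v l' ∧ tr l' = W ∪ tr U' := by
  have hsub : tr U ⊆ tr l := by rw [ht]; exact Finset.subset_union_right
  rcases block hl.2.1 U h.nd h.len hsub with hb | hb
  · exact exch_aux hs h h1 h2 h3 hW hl ht hb
  · have hb' : U.reverse <:+: l := by
      rw [← List.reverse_infix, List.reverse_reverse]
      exact hb
    have := exch_aux hs (h.rev hs) (by rwa [tr_reverse]) (by rwa [tr_reverse])
      (by
        intro x hx hxU
        rw [List.mem_reverse] at hx hxU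
        exact h3 x hx hxU) hW hl (by rw [tr_reverse]; exact ht) hb'
    rwa [tr_reverse] at this

end

end U443.LG
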