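import Pool.Agent.U443.LG.Abs
import Pool.Agent.U443.LG.Tr

/-!
# Self-avoiding walks on a periodic lattice and exchangeable local states
-/

set_option autoImplicit false

namespace U443.LG

open Finset
open scoped Classical

noncomputable section

variable {V : Type} [AddCommGroup V]

/-- a locally finite graph on `V` with a group `T` of translations -/
structure Geo (V : Type) [AddCommGroup V] where
  Adj : V → V → Prop
  T : AddSubgroup V
  symm : ∀ a b, Adj a b → Adj b a
  irr : ∀ a, ¬ Adj a a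
  shift : ∀ g ∈ T, ∀ a b, Adj a b → Adj (g + a) (g + b)
  nb : V → Finset V
  mem_nb : ∀ a b, b ∈ nb a ↔ Adj a b
  half : ∀ a b, Adj a b → a ∈ T ∨ b ∈ T

variable (G : Geo V)

/-- `w` is the set of edges of a self-avoiding walk with first point `v` -/
def IsTr (v : V) (w : Finset (Sym2 V)) : Prop := ∃ l, Walk G.Adj v l ∧ tr l = w

/-- exchangeable states of the edges in `Λ` -/
def Exch (Λ A A' : Finset (Sym2 V)) : Prop :=
  A ⊆ Λ ∧ A' ⊆ Λ ∧ ∀ (v : V) (W : Finset (Sym2 V)), Disjoint W Λ →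
    (IsTr G v (W ∪ A) ↔ IsTr G v (W ∪ A'))

/-- translated set of edges -/
def sh (g : V) (w : Finset (Sym2 V)) : Finset (Sym2 V) := w.image (Sym2.map (g + ·))

theorem map_comp (g h : V) (e : Sym2 V) :
    Sym2.map (g + ·) (Sym2.map (h + ·) e) = Sym2.map ((g + h) + ·) e := by
  rw [Sym2.map_map]
  congr 1
  funext x
  simp [add_assoc]

theorem map_zero (e : Sym2 V) : Sym2.map ((0 : V) + ·) e = e := by
  have : ((0 : V) + ·) = id := by
    funext x; simp
  rw [this, Sym2.map_id]
  rfl

theorem map_neg (g : V) (e : Sym2 V) : Sym2.map (g + ·) (Sym2.map (-g + ·) e) = e := by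
  rw [map_comp, add_neg_cancel, map_zero]

theorem map_neg' (g : V) (e : Sym2 V) : Sym2.map (-g + ·) (Sym2.map (g + ·) e) = e := by
  rw [map_comp, neg_add_cancel, map_zero]

theorem map_inj (g : V) : Function.Injective (Sym2.map (g + · : V → V)) := by
  intro e e' h
  have := congrArg (Sym2.map (-g + ·)) h
  rwa [map_neg', map_neg'] at this

theorem mem_sh {g : V} {w : Finset (Sym2 V)} {e : Sym2 V} :
    e ∈ sh g w ↔ Sym2.map (-g + ·) e ∈ w := by
  unfold sh
  rw [Finset.mem_image]
  constructor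
  · rintro ⟨x, hx, rfl⟩
    rwa [map_neg']
  · intro h
    exact ⟨_, h, map_neg g e⟩

theorem sh_map {g : V} {w : Finset (Sym2 V)} {e : Sym2 V} :
    Sym2.map (g + ·) e ∈ sh g w ↔ e ∈ w := by
  rw [mem_sh, map_neg']

theorem card_sh (g : V) (w : Finset (Sym2 V)) : (sh g w).card = w.card :=
  Finset.card_image_of_injective _ (map_inj g)

theorem sh_union (g : V) (w w' : Finset (Sym2 V)) : sh g (w ∪ w') = sh g w ∪ sh g w' :=
  Finset.image_union _ _

theorem sh_sh (g h : V) (w : Finset (Sym2 V)) : sh g (sh h w) = sh (g + h) w := by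
  ext e
  rw [mem_sh, mem_sh, mem_sh, map_comp, neg_add_rev]

theorem sh_zero (w : Finset (Sym2 V)) : sh 0 w = w := by
  ext e
  rw [mem_sh, neg_zero, map_zero]

theorem tr_map (g : V) (l : List V) : tr (l.map (g + ·)) = sh g (tr l) := by
  induction l with
  | nil => rfl
  | cons a l ih =>
    cases l with
    | nil => rfl
    | cons b l =>
      simp only [List.map_cons, tr] at ih ⊢
      rw [ih]
      unfold sh
      rw [Finset.image_insert]
      rfl

theorem walk_map {g : V} (hg : g ∈ G.T) {v : V} {l : List V} (h : Walk G.Adj v l) :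
    Walk G.Adj (g + v) (l.map (g + ·)) := by
  refine ⟨?_, ?_, ?_⟩
  · rw [List.head?_map, h.1]
    rfl
  · exact h.2.1.map (add_right_injective g)
  · rw [List.isChain_map]
    exact h.2.2.imp fun a b => G.shift g hg a b

theorem isTr_sh {g : V} (hg : g ∈ G.T) {v : V} {w : Finset (Sym2 V)} (h : IsTr G v w) :
    IsTr G (g + v) (sh g w) := by
  obtain ⟨l, h1, rfl⟩ := h
  exact ⟨_, walk_map G hg h1, tr_map g l⟩

theorem isTr_sh_iff {g : V} (hg : g ∈ G.T) {v : V} {w : Finset (Sym2 V)} :
    IsTr G (g + v) (sh g w) ↔ IsTr G v w := by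
  refine ⟨fun h => ?_, isTr_sh G hg⟩
  have h1 := isTr_sh G (G.T.neg_mem hg) h
  rwa [sh_sh, neg_add_cancel, sh_zero, neg_add_cancel_left] at h1

theorem Exch.symm {Λ A A' : Finset (Sym2 V)} (h : Exch G Λ A A') : Exch G Λ A' A :=
  ⟨h.2.1, h.1, fun v W hW => (h.2.2 v W hW).symm⟩

theorem Exch.sh {Λ A A' : Finset (Sym2 V)} (h : Exch G Λ A A') {g : V} (hg : g ∈ G.T) :
    Exch G (sh g Λ) (sh g A) (sh g A') := by
  refine ⟨Finset.image_subset_image h.1, Finset.image_subset_image h.2.1, fun v W hW => ?_⟩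
  have e1 : W = LG.sh g (LG.sh (-g) W) := by rw [sh_sh, add_neg_cancel, sh_zero]
  have e2 : v = g + (-g + v) := by abel
  have hd : Disjoint (LG.sh (-g) W) Λ := by
    rw [Finset.disjoint_left]
    intro e he he2
    rw [mem_sh, neg_neg] at he
    exact (Finset.disjoint_left.1 hW) he (sh_map.2 he2)
  rw [e1, e2, ← sh_union, ← sh_union, isTr_sh_iff G hg, isTr_sh_iff G hg]
  exact h.2.2 _ _ hd

/-- a larger window with the same additional edges -/
theorem Exch.extend {Λ A A' : Finset (Sym2 V)} (h : Exch G Λ A A') {R S : Finset (Sym2 V)}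
    (hR : Disjoint R Λ) (hS : S ⊆ R) : Exch G (Λ ∪ R) (A ∪ S) (A' ∪ S) := by
  refine ⟨Finset.union_subset_union h.1 hS, Finset.union_subset_union h.2.1 hS,
    fun v W hW => ?_⟩
  rw [Finset.disjoint_union_right] at hW
  have e1 : W ∪ (A ∪ S) = (W ∪ S) ∪ A := by
    rw [Finset.union_comm A S, Finset.union_assoc]
  have e2 : W ∪ (A' ∪ S) = (W ∪ S) ∪ A' := by
    rw [Finset.union_comm A' S, Finset.union_assoc]
  rw [e1, e2]
  refine h.2.2 v _ ?_
  rw [Finset.disjoint_union_left]
  exact ⟨hW.1, Finset.disjoint_of_subset_left hS hR⟩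

theorem fin_ball (v : V) : ∀ n : ℕ, {l : List V | Walk G.Adj v l ∧ l.length = n + 1}.Finite := by
  intro n
  have h : ∀ n : ℕ, {l : List V | l.head? = some v ∧ l.IsChain G.Adj ∧ l.length = n + 1}.Finite := by
    intro n
    induction n generalizing v with
    | zero =>
      refine Set.Finite.subset (Set.finite_singleton [v]) ?_
      rintro l ⟨h1, -, h2⟩
      rw [List.length_eq_one_iff] at h2
      obtain ⟨a, rfl⟩ := h2
      simp only [List.head?_cons, Option.some.injEq] at h1
      rw [h1]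
      rfl
    | succ n ih =>
      have hfin : (⋃ b ∈ (G.nb v : Set V), (fun l : List V => v :: l) ''
          {l : List V | l.head? = some b ∧ l.IsChain G.Adj ∧ l.length = n + 1}).Finite := by
        refine Set.Finite.biUnion (Finset.finite_toSet _) fun b _ => ?_
        exact (ih b).image _
      refine hfin.subset ?_
      rintro l ⟨h1, h2, h3⟩
      rcases l with - | ⟨a, l⟩
      · simp at h1
      rcases l with - | ⟨b, l⟩
      · simp at h3
      simp only [List.head?_cons, Option.some.injEq] at h1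
      subst h1
      rw [List.isChain_cons_cons] at h2
      rw [Set.mem_iUnion₂]
      refine ⟨b, ?_, b :: l, ⟨rfl, h2.2, by simpa using h3⟩, rfl⟩
      rw [Finset.mem_coe, G.mem_nb]
      exact h2.1
  refine (h n).subset ?_
  rintro l ⟨h1, h2⟩
  exact ⟨h1.1, h1.2.2, h2⟩

/-- the walks from `0` with `n` steps, as lists -/
def WL (n : ℕ) : Finset (List V) := (fin_ball G 0 n).toFinset

theorem mem_WL {n : ℕ} {l : List V} : l ∈ WL G n ↔ Walk G.Adj 0 l ∧ l.length = n + 1 := by
  unfold WL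
  rw [Set.Finite.mem_toFinset]
  rfl

/-- their sets of edges -/
def KT (n : ℕ) : Finset (Finset (Sym2 V)) := (WL G n).image tr

theorem mem_KT {n : ℕ} {w : Finset (Sym2 V)} : w ∈ KT G n ↔ IsTr G 0 w ∧ w.card = n := by
  unfold KT
  rw [Finset.mem_image]
  constructor
  · rintro ⟨l, h1, rfl⟩
    rw [mem_WL] at h1
    refine ⟨⟨l, h1.1, rfl⟩, ?_⟩
    rw [card_tr h1.1.2.1, h1.2]
    rfl
  · rintro ⟨⟨l, h1, rfl⟩, h2⟩
    refine ⟨l, ?_, rfl⟩
    rw [mem_WL]
    refine ⟨h1, ?_⟩
    rw [card_tr h1.2.1] at h2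
    have h3 : l ≠ [] := by
      rintro rfl
      simpa using h1.1
    have h4 : 0 < l.length := List.length_pos_iff.2 h3
    omega

theorem tr_injOn (n : ℕ) : Set.InjOn tr (WL G n : Set (List V)) := by
  intro l hl l' hl' h
  rw [Finset.mem_coe, mem_WL] at hl hl'
  refine tr_inj hl.1.2.1 hl'.1.2.1 ?_ ?_ (by rw [hl.1.1, hl'.1.1]) h
  · rintro rfl; simpa using hl.2
  · rintro rfl; simpa using hl'.2

theorem card_KT (n : ℕ) : (KT G n).card = (WL G n).card :=
  Finset.card_image_of_injOn (tr_injOn G n)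

/-- the windows that contain `e` -/
def candT (Λ : Finset (Sym2 V)) (e : Sym2 V) : Finset G.T :=
  (((e.toFinset ×ˢ Λ.biUnion Sym2.toFinset).image (fun q => q.1 - q.2)).filter
    (fun g => e ∈ sh g Λ)).subtype (fun g => g ∈ G.T)

/-- the family of the places with exchangeable states -/
def fam {Λ A A' : Finset (Sym2 V)} (h : Exch G Λ A A') (s : ℕ) (hc : A'.card = A.card + s)
    (h0 : A.Nonempty) (h0' : A'.Nonempty) : Fam (Sym2 V) G.T where
  K := KT G
  cardK := fun n w hw => ((mem_KT G).1 hw).2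
  Λ := fun g => sh g.1 Λ
  A := fun g => sh g.1 A
  A' := fun g => sh g.1 A'
  cand := candT G Λ
  cand_iff := by
    intro e g
    unfold candT
    rw [Finset.mem_subtype, Finset.mem_filter]
    constructor
    · exact fun h => h.2
    · intro he
      refine ⟨?_, he⟩
      rw [Finset.mem_image]
      have he' := mem_sh.1 he
      induction e with
      | _ a b =>
        refine ⟨(a, -g.1 + a), ?_, ?_⟩
        · rw [Finset.mem_product, Finset.mem_biUnion]
          refine ⟨by simp, _, he', ?_⟩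
          simp
        · simp
  D := 2 * (Λ.biUnion Sym2.toFinset).card
  card_cand := by
    intro e
    unfold candT
    rw [Finset.card_subtype]
    refine (Finset.card_filter_le _ _).trans ?_
    refine (Finset.card_filter_le _ _).trans ?_
    refine Finset.card_image_le.trans ?_
    rw [Finset.card_product]
    apply Nat.mul_le_mul_right
    induction e with
    | _ a b =>
      rw [Sym2.toFinset_mk_eq]
      exact Finset.card_le_two
  M := Λ.card
  card_Λ := fun g => (card_sh _ _).le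
  subA := fun g => (h.sh G g.2).1
  subA' := fun g => (h.sh G g.2).2.1
  s := s
  neA := fun g => h0.image _
  neA' := fun g => h0'.image _
  exch := by
    intro g W n hW
    rw [mem_KT, mem_KT]
    have h1 := (h.sh G g.2)
    have h2 := h1.2.2 0 W hW
    have d1 : Disjoint W (sh g.1 A) := Finset.disjoint_of_subset_right h1.1 hW
    have d2 : Disjoint W (sh g.1 A') := Finset.disjoint_of_subset_right h1.2.1 hW
    rw [Finset.card_union_of_disjoint d1, Finset.card_union_of_disjoint d2, card_sh, card_sh, hc, h2]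
    constructor
    · rintro ⟨h3, h4⟩
      exact ⟨h3, by omega⟩
    · rintro ⟨h3, h4⟩
      exact ⟨h3, by omega⟩

/-- `NN R S w`: the number of translates of the state `S` of the window `R` in `w` -/
def NN (R S w : Finset (Sym2 V)) : ℕ :=
  Set.ncard {g : V | g ∈ G.T ∧ ∀ e ∈ R, (Sym2.map (g + ·) e ∈ w ↔ e ∈ S)}

theorem state_iff {R S w : Finset (Sym2 V)} (hS : S ⊆ R) (g : V) :
    w ∩ sh g R = sh g S ↔ ∀ e ∈ R, (Sym2.map (g + ·) e ∈ w ↔ e ∈ S) := by
  constructor
  · intro h e he
    constructor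
    · intro h1
      have h2 : Sym2.map (g + ·) e ∈ w ∩ sh g R := Finset.mem_inter.2 ⟨h1, sh_map.2 he⟩
      rw [h] at h2
      exact sh_map.1 h2
    · intro h1
      have h2 : Sym2.map (g + ·) e ∈ w ∩ sh g R := by rw [h]; exact sh_map.2 h1
      exact (Finset.mem_inter.1 h2).1
  · intro h
    ext e
    rw [Finset.mem_inter, mem_sh, mem_sh]
    constructor
    · rintro ⟨h1, h2⟩
      have h3 := (h _ h2).1
      rw [map_neg] at h3
      exact h3 h1
    · intro h1
      have h3 := (h _ (hS h1)).2 h1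
      rw [map_neg] at h3
      exact ⟨h3, hS h1⟩

theorem NN_eq {R S w : Finset (Sym2 V)} (hS : S ⊆ R) (F : Finset G.T)
    (hF : ∀ g : G.T, g ∈ F ↔ w ∩ sh g.1 R = sh g.1 S) : NN G R S w = F.card := by
  have h1 : {g : V | g ∈ G.T ∧ ∀ e ∈ R, (Sym2.map (g + ·) e ∈ w ↔ e ∈ S)} =
      ((F.map (Function.Embedding.subtype _) : Finset V) : Set V) := by
    ext g
    rw [Finset.mem_coe, Finset.mem_map, Set.mem_setOf_eq]
    constructor
    · rintro ⟨h2, h3⟩
      exact ⟨⟨g, h2⟩, (hF _).2 ((state_iff hS g).2 h3), rfl⟩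
    · rintro ⟨x, hx, rfl⟩
      exact ⟨x.2, (state_iff hS x.1).1 ((hF x).1 hx)⟩
  unfold NN
  rw [h1, Set.ncard_coe_finset, Finset.card_map]

/-- **Gaussian balance** -/
theorem balance {μ : ℝ} (hμ : 1 ≤ μ) {Λ A A' : Finset (Sym2 V)} (h : Exch G Λ A A')
    (h0 : A.Nonempty) (h0' : A'.Nonempty) : ∃ c : ℝ, 0 < c ∧ ∀ (H : ℝ) (n : ℕ), 1 ≤ n →
    (∀ j ≤ 2 * n, ((WL G j).card : ℝ) ≤ H * μ ^ j) → ∀ t : ℝ, 0 ≤ t →
    (((WL G n).filter (fun l => t ≤ |μ ^ A.card * NN G Λ A (tr l) -
      μ ^ A'.card * NN G Λ A' (tr l)|)).card : ℝ) ≤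
      2 * Real.exp 1 * H * μ ^ n * Real.exp (-(c * (t ^ 2 / n))) := by
  have key : ∀ A A' : Finset (Sym2 V), Exch G Λ A A' → A.Nonempty → A'.Nonempty →
      A.card ≤ A'.card → ∃ c : ℝ, 0 < c ∧ ∀ (H : ℝ) (n : ℕ), 1 ≤ n →
    (∀ j ≤ 2 * n, ((WL G j).card : ℝ) ≤ H * μ ^ j) → ∀ t : ℝ, 0 ≤ t →
    (((WL G n).filter (fun l => t ≤ |μ ^ A.card * NN G Λ A (tr l) -
      μ ^ A'.card * NN G Λ A' (tr l)|)).card : ℝ) ≤
      2 * Real.exp 1 * H * μ ^ n * Real.exp (-(c * (t ^ 2 / n))) := by
    intro A A' h h0 h0' hle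
    obtain ⟨s, hs⟩ : ∃ s, A'.card = A.card + s := ⟨A'.card - A.card, by omega⟩
    obtain ⟨c, hc, h1⟩ := (fam G h s hs h0 h0').tail hμ
    have hp : 0 < μ ^ A.card := by positivity
    refine ⟨c / (μ ^ A.card) ^ 2, by positivity, fun H n hn hH t ht => ?_⟩
    have h2 := h1 H n hn (by
      intro j hj
      show ((KT G j).card : ℝ) ≤ _
      rw [card_KT]
      exact hH j hj) (t / μ ^ A.card) (by positivity)
    have e : c * ((t / μ ^ A.card) ^ 2 / n) = c / (μ ^ A.card) ^ 2 * (t ^ 2 / n) := by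
      rw [div_pow]
      field_simp
    rw [e] at h2
    refine le_trans ?_ h2
    have h3 : ((WL G n).filter (fun l => t ≤ |μ ^ A.card * NN G Λ A (tr l) -
        μ ^ A'.card * NN G Λ A' (tr l)|)).card ≤
        (((fam G h s hs h0 h0').K n).filter (fun w => t / μ ^ A.card ≤
          |(((fam G h s hs h0 h0').S w).card : ℝ) - μ ^ s *
          ((fam G h s hs h0 h0').B w).card|)).card := by
      refine Finset.card_le_card_of_injOn tr ?_ ?_
      · intro l hl
        rw [Finset.mem_coe, Finset.mem_filter] at hl ⊢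
        refine ⟨Finset.mem_image_of_mem _ hl.1, ?_⟩
        rw [← NN_eq G h.1 _ (fun g => (fam G h s hs h0 h0').mem_S),
          ← NN_eq G h.2.1 _ (fun g => (fam G h s hs h0 h0').mem_B)]
        rw [div_le_iff₀ hp]
        have h4 := hl.2
        rw [hs, pow_add] at h4
        have e2 : |((NN G Λ A (tr l) : ℝ)) - μ ^ s * (NN G Λ A' (tr l))| * μ ^ A.card =
            |μ ^ A.card * NN G Λ A (tr l) - μ ^ A.card * μ ^ s * NN G Λ A' (tr l)| := by
          rw [← abs_of_pos hp, ← abs_mul, abs_of_pos hp]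
          congr 1
          ring
        rw [e2]
        exact h4
      · intro l hl l' hl' he
        rw [Finset.mem_coe, Finset.mem_filter] at hl hl'
        exact tr_injOn G n hl.1 hl'.1 he
    exact Nat.cast_le.2 h3
  rcases le_total A.card A'.card with hle | hle
  · exact key A A' h h0 h0' hle
  · obtain ⟨c, hc, h1⟩ := key A' A (h.symm G) h0' h0 hle
    refine ⟨c, hc, fun H n hn hH t ht => ?_⟩
    have h2 := h1 H n hn hH t ht
    simp only [abs_sub_comm (μ ^ A'.card * (NN G Λ A' _ : ℝ))] at h2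
    exact h2

end

end U443.LG
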