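import Pool.Agent.U443.LG.Avg
import Pool.Agent.H726.GB.HexG

/-!
# The honeycomb lattice
-/

set_option autoImplicit false

namespace U443.LG

open Finset MeasureTheory Filter Topology
open scoped Classical

noncomputable section

/-- counting walks as functions -/
theorem WL_ncard {V : Type} [AddCommGroup V] (G : Geo V) (n : ℕ) :
    (WL G n).card = Set.ncard {f : Fin (n + 1) → V |
      f 0 = 0 ∧ Function.Injective f ∧ ∀ i : Fin n, G.Adj (f i.castSucc) (f i.succ)} := by
  rw [← Set.ncard_image_of_injective _ List.ofFn_injective, ← Set.ncard_coe_finset]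
  congr 1
  ext w
  rw [Finset.mem_coe, mem_WL, Set.mem_image]
  have key : ∀ f : Fin (n + 1) → V, Walk G.Adj 0 (List.ofFn f) ↔
      f 0 = 0 ∧ Function.Injective f ∧ ∀ i : Fin n, G.Adj (f i.castSucc) (f i.succ) := by
    intro f
    unfold Walk
    rw [List.nodup_ofFn, List.isChain_ofFn]
    refine and_congr ?_ (and_congr Iff.rfl ?_)
    · rw [List.ofFn_succ]
      simp
    · constructor
      · intro h i
        exact h i.1 (by have := i.2; omega)
      · intro h i hi
        exact h ⟨i, by omega⟩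
  constructor
  · rintro ⟨h2, h1⟩
    have e : List.ofFn (fun i : Fin (n + 1) => w[i.1]'(by rw [h1]; exact i.2)) = w := by
      apply List.ext_getElem
      · simp [h1]
      · intro i hi hi'
        rw [List.getElem_ofFn]
    exact ⟨_, (key (fun i : Fin (n + 1) => w[i.1]'(by rw [h1]; exact i.2))).1
      (by rw [e]; exact h2), e⟩
  · rintro ⟨f, hf, rfl⟩
    exact ⟨(key f).2 hf, by simp⟩

/-- the honeycomb lattice as a brick wall: every point of `ℤ²` has its two horizontal neighbours,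
and the vertical neighbour above it if the sum of its coordinates is even, below it if it is odd -/
def HexAdj (p q : ℤ × ℤ) : Prop :=
  (q.2 = p.2 ∧ (q.1 = p.1 + 1 ∨ q.1 = p.1 - 1)) ∨
  (q.1 = p.1 ∧ (((p.1 + p.2) % 2 = 0 ∧ q.2 = p.2 + 1) ∨ ((p.1 + p.2) % 2 = 1 ∧ q.2 = p.2 - 1)))

theorem hexAdj_iff (p q : ℤ × ℤ) : HexAdj p q ↔ TH966.AK.Hex.A p q := by
  rw [TH966.AK.Hex.A_iff]
  unfold HexAdj
  omega

/-- the points of one of the two classes -/
def evenPts : AddSubgroup (ℤ × ℤ) where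
  carrier := {x | (x.1 + x.2) % 2 = 0}
  add_mem' := by
    intro a b ha hb
    simp only [Set.mem_setOf_eq, Prod.fst_add, Prod.snd_add] at *
    omega
  zero_mem' := by simp
  neg_mem' := by
    intro a ha
    simp only [Set.mem_setOf_eq, Prod.fst_neg, Prod.snd_neg] at *
    omega

theorem mem_even (x : ℤ × ℤ) : x ∈ evenPts ↔ (x.1 + x.2) % 2 = 0 := Iff.rfl

/-- the honeycomb lattice with its translations -/
def hexG : Geo (ℤ × ℤ) where
  Adj := HexAdj
  T := evenPts
  symm := by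
    intro a b h
    unfold HexAdj at *
    omega
  irr := by
    intro a h
    unfold HexAdj at h
    omega
  shift := by
    intro g hg a b h
    rw [mem_even] at hg
    unfold HexAdj at *
    simp only [Prod.fst_add, Prod.snd_add]
    omega
  nb := fun p => {(p.1 + 1, p.2), (p.1 - 1, p.2), (p.1, if (p.1 + p.2) % 2 = 0 then p.2 + 1 else p.2 - 1)}
  mem_nb := by
    intro a b
    unfold HexAdj
    simp only [Finset.mem_insert, Finset.mem_singleton, Prod.ext_iff]
    split_ifs with h <;> omega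
  half := by
    intro a b h
    rw [mem_even, mem_even]
    unfold HexAdj at h
    omega

/-- the connective constant of the honeycomb lattice -/
def mu : ℝ := Real.sqrt (2 + Real.sqrt 2)

theorem hex_count (n : ℕ) : (WL hexG n).card = Set.ncard {f : Fin (n + 1) → ℤ × ℤ |
    f 0 = 0 ∧ Function.Injective f ∧ ∀ i : Fin n, HexAdj (f i.castSucc) (f i.succ)} :=
  WL_ncard hexG n

theorem hex_growth : (∀ n : ℕ, mu ^ n ≤ ((WL hexG n).card : ℝ)) ∧ ∃ K : ℝ, 0 ≤ K ∧
    ∀ n : ℕ, 2 ≤ n → ((WL hexG n).card : ℝ) ≤ mu ^ n * Real.exp (K * (Real.log n) ^ 2) :=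
  H726.GB.hex_facts (fun n => (WL hexG n).card) (fun n => by
    rw [hex_count]
    simp only [hexAdj_iff])

theorem one_le_mu : 1 ≤ mu := by
  unfold mu
  rw [Real.one_le_sqrt]
  have := Real.sqrt_nonneg 2
  linarith

theorem log_sq_le {K δ : ℝ} (hK : 0 ≤ K) (hδ : 0 < δ) (n : ℕ) (hn : 1 ≤ n) :
    K * Real.log n ^ 2 ≤ δ * n + 64 * K ^ 2 / δ := by
  have hn' : (1 : ℝ) ≤ n := by exact_mod_cast hn
  have h0 : 0 ≤ Real.log n := Real.log_nonneg hn'
  have h1 : Real.log n ≤ (n : ℝ) ^ (1 / 4 : ℝ) / (1 / 4) :=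
    Real.log_le_rpow_div (by linarith) (by norm_num)
  have h2 : Real.log n ^ 2 ≤ 16 * Real.sqrt n := by
    have h3 : Real.log n ≤ 4 * (n : ℝ) ^ (1 / 4 : ℝ) := by linarith
    have h4 := pow_le_pow_left₀ h0 h3 2
    have h5 : (4 * (n : ℝ) ^ (1 / 4 : ℝ)) ^ 2 = 16 * Real.sqrt n := by
      rw [mul_pow, ← Real.rpow_natCast ((n : ℝ) ^ (1 / 4 : ℝ)), ← Real.rpow_mul (by linarith),
        Real.sqrt_eq_rpow]
      norm_num
    linarith
  have h6 := Real.sq_sqrt (show (0 : ℝ) ≤ n by linarith)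
  have h7 : 16 * K * Real.sqrt n ≤ δ * n + 64 * K ^ 2 / δ := by
    have h8 : 0 ≤ (δ * Real.sqrt n - 8 * K) ^ 2 / δ := by positivity
    have h9 : (δ * Real.sqrt n - 8 * K) ^ 2 / δ = δ * (Real.sqrt n) ^ 2 - 16 * K * Real.sqrt n +
        64 * K ^ 2 / δ := by
      field_simp
      ring
    rw [h9, h6] at h8
    linarith
  have h8 : K * Real.log n ^ 2 ≤ K * (16 * Real.sqrt n) := mul_le_mul_of_nonneg_left h2 hK
  linarith

theorem hex_Growth : Growth hexG mu where
  one := one_le_mu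
  low := hex_growth.1
  up := by
    intro δ hδ
    obtain ⟨K, hK0, hK⟩ := hex_growth.2
    refine ⟨Real.exp (64 * K ^ 2 / δ) + (WL hexG 0).card + (WL hexG 1).card, fun n => ?_⟩
    have hmu := one_le_mu
    have hW0 : (0 : ℝ) ≤ (WL hexG 0).card := Nat.cast_nonneg _
    have hW1 : (0 : ℝ) ≤ (WL hexG 1).card := Nat.cast_nonneg _
    have hm : (1 : ℝ) ≤ mu ^ n := one_le_pow₀ hmu
    have he : (1 : ℝ) ≤ Real.exp (δ * n) := Real.one_le_exp (by positivity)
    have hE : 0 < Real.exp (64 * K ^ 2 / δ) := Real.exp_pos _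
    rcases Nat.lt_or_ge n 2 with h | h
    · have h1 : ((WL hexG n).card : ℝ) ≤ Real.exp (64 * K ^ 2 / δ) + (WL hexG 0).card +
          (WL hexG 1).card := by
        interval_cases n
        · linarith
        · linarith
      calc ((WL hexG n).card : ℝ) ≤ (Real.exp (64 * K ^ 2 / δ) + (WL hexG 0).card +
          (WL hexG 1).card) * 1 * 1 := by linarith
        _ ≤ _ := by gcongr
    · have h1 := log_sq_le hK0 hδ n (by omega)
      calc ((WL hexG n).card : ℝ) ≤ mu ^ n * Real.exp (K * (Real.log n) ^ 2) := hK n h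
        _ ≤ mu ^ n * Real.exp (δ * n + 64 * K ^ 2 / δ) := by gcongr
        _ = Real.exp (64 * K ^ 2 / δ) * Real.exp (δ * n) * mu ^ n := by
            rw [Real.exp_add]; ring
        _ ≤ _ := by
            gcongr
            linarith

/-- Gaussian balance with a logarithmic factor -/
theorem hex_balance : ∃ K : ℝ, ∀ Λ A A' : Finset (Sym2 (ℤ × ℤ)), Exch hexG Λ A A' →
    A.Nonempty → A'.Nonempty → ∃ c : ℝ, 0 < c ∧ ∀ n : ℕ, 2 ≤ n → ∀ t : ℝ, 0 ≤ t →
    (((WL hexG n).filter (fun l => t ≤ |mu ^ A.card * NN hexG Λ A (tr l) -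
      mu ^ A'.card * NN hexG Λ A' (tr l)|)).card : ℝ) ≤
      Real.exp (K * Real.log n ^ 2 - c * t ^ 2 / n) * (WL hexG n).card := by
  obtain ⟨K, hK0, hK⟩ := hex_growth.2
  obtain ⟨B, hB⟩ : ∃ B : ℝ, B = 1 + (WL hexG 0).card + (WL hexG 1).card := ⟨_, rfl⟩
  have h0 : (0 : ℝ) ≤ (WL hexG 0).card := Nat.cast_nonneg _
  have h1 : (0 : ℝ) ≤ (WL hexG 1).card := Nat.cast_nonneg _
  have hB1 : 1 ≤ B := by linarith
  have hmu := one_le_mu
  have hE0 : 0 < 2 * Real.exp 1 * B := by positivity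
  have hE1 : 1 ≤ 2 * Real.exp 1 * B := by
    have := Real.one_le_exp (show (0 : ℝ) ≤ 1 by norm_num)
    nlinarith
  have hl2 : 0 < Real.log 2 := Real.log_pos (by norm_num)
  refine ⟨4 * K + Real.log (2 * Real.exp 1 * B) / Real.log 2 ^ 2, ?_⟩
  intro Λ A A' hE hA hA'
  obtain ⟨c, hc, hbal⟩ := balance hexG hmu hE hA hA'
  refine ⟨c, hc, fun n hn t ht => ?_⟩
  have hn' : (2 : ℝ) ≤ n := by exact_mod_cast hn
  have hln : Real.log 2 ≤ Real.log n := Real.log_le_log (by norm_num) hn'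
  have h2n : ∀ j : ℕ, 2 ≤ j → j ≤ 2 * n → Real.log j ^ 2 ≤ 4 * Real.log n ^ 2 := by
    intro j hj2 hj
    have hj' : (j : ℝ) ≤ 2 * n := by exact_mod_cast hj
    have hj2' : (2 : ℝ) ≤ j := by exact_mod_cast hj2
    have h3 : Real.log j ≤ Real.log (2 * n) := Real.log_le_log (by linarith) hj'
    rw [Real.log_mul (by norm_num) (by positivity)] at h3
    have h4 : 0 ≤ Real.log j := Real.log_nonneg (by linarith)
    have h5 : Real.log j ≤ 2 * Real.log n := by linarith
    have := pow_le_pow_left₀ h4 h5 2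
    linarith
  have h3 := hbal (B * Real.exp (K * (4 * Real.log n ^ 2))) n (by omega) (by
    intro j hj
    have hm : (1 : ℝ) ≤ mu ^ j := one_le_pow₀ hmu
    have he : (1 : ℝ) ≤ Real.exp (K * (4 * Real.log n ^ 2)) := Real.one_le_exp (by positivity)
    rcases Nat.lt_or_ge j 2 with h | h
    · have h1 : ((WL hexG j).card : ℝ) ≤ B := by
        interval_cases j
        · linarith
        · linarith
      calc ((WL hexG j).card : ℝ) ≤ B * 1 * 1 := by linarith
        _ ≤ _ := by gcongr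
    · have h5 := h2n j h hj
      calc ((WL hexG j).card : ℝ) ≤ mu ^ j * Real.exp (K * (Real.log j) ^ 2) := hK j h
        _ ≤ mu ^ j * Real.exp (K * (4 * Real.log n ^ 2)) := by gcongr
        _ = 1 * Real.exp (K * (4 * Real.log n ^ 2)) * mu ^ j := by ring
        _ ≤ _ := by gcongr) t ht
  refine h3.trans ?_
  have e1 : c * (t ^ 2 / (n : ℝ)) = c * t ^ 2 / n := by ring
  rw [e1]
  have h6 : 2 * Real.exp 1 * (B * Real.exp (K * (4 * Real.log n ^ 2))) ≤
      Real.exp ((4 * K + Real.log (2 * Real.exp 1 * B) / Real.log 2 ^ 2) * Real.log n ^ 2) := by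
    have e2 : 2 * Real.exp 1 * (B * Real.exp (K * (4 * Real.log n ^ 2))) =
        Real.exp (Real.log (2 * Real.exp 1 * B) + K * (4 * Real.log n ^ 2)) := by
      rw [Real.exp_add, Real.exp_log hE0]; ring
    rw [e2, Real.exp_le_exp]
    have h7 : Real.log (2 * Real.exp 1 * B) ≤
        Real.log (2 * Real.exp 1 * B) / Real.log 2 ^ 2 * Real.log n ^ 2 := by
      rw [div_mul_eq_mul_div, le_div_iff₀ (by positivity)]
      apply mul_le_mul_of_nonneg_left _ (Real.log_nonneg hE1)
      exact pow_le_pow_left₀ hl2.le hln 2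
    nlinarith
  calc 2 * Real.exp 1 * (B * Real.exp (K * (4 * Real.log n ^ 2))) * mu ^ n *
        Real.exp (-(c * t ^ 2 / n)) ≤
      Real.exp ((4 * K + Real.log (2 * Real.exp 1 * B) / Real.log 2 ^ 2) * Real.log n ^ 2) *
        ((WL hexG n).card : ℝ) * Real.exp (-(c * t ^ 2 / n)) := by
        gcongr
        exact hex_growth.1 n
    _ = _ := by
        rw [sub_eq_add_neg, Real.exp_add]; ring

end

end U443.LG
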