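import Pool.Agent.U443.LG.Geo

/-!
# Random configurations: cylinder events, Gibbs measures, weak limits
-/

set_option autoImplicit false

namespace U443.LG

open Finset MeasureTheory Filter Topology
open scoped Classical

noncomputable section

variable {V : Type}

/-- configurations of open pairs of vertices -/
abbrev Cfg (V : Type) : Type := Sym2 V → Bool

/-- in the window `R` exactly the pairs in `S` are open -/
def Cyl (R S : Finset (Sym2 V)) : Set (Cfg V) := {η | ∀ e ∈ R, (η e = true ↔ e ∈ S)}

/-- the event depends on the pairs in `R` only -/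
def Dep (R : Finset (Sym2 V)) (D : Set (Cfg V)) : Prop :=
  ∀ η η' : Cfg V, (∀ e ∈ R, η e = η' e) → (η ∈ D → η' ∈ D)

theorem Dep.iff {R : Finset (Sym2 V)} {D : Set (Cfg V)} (h : Dep R D) {η η' : Cfg V}
    (he : ∀ e ∈ R, η e = η' e) : η ∈ D ↔ η' ∈ D :=
  ⟨h η η' he, h η' η fun e h' => (he e h').symm⟩

theorem Dep.mono {R R' : Finset (Sym2 V)} {D : Set (Cfg V)} (h : Dep R D) (hR : R ⊆ R') :
    Dep R' D := fun η η' he => h η η' fun e h' => he e (hR h')

theorem Dep.inter {R R' : Finset (Sym2 V)} {D D' : Set (Cfg V)} (h : Dep R D) (h' : Dep R' D') :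
    Dep (R ∪ R') (D ∩ D') := fun η η' he hη =>
  ⟨h η η' (fun e h1 => he e (Finset.mem_union_left _ h1)) hη.1,
    h' η η' (fun e h1 => he e (Finset.mem_union_right _ h1)) hη.2⟩

theorem Dep.compl {R : Finset (Sym2 V)} {D : Set (Cfg V)} (h : Dep R D) : Dep R Dᶜ :=
  fun _ _ he hη h' => hη ((h.iff he).2 h')

theorem dep_cyl (R S : Finset (Sym2 V)) : Dep R (Cyl R S) := by
  intro η η' he hη e h
  rw [← he e h]
  exact hη e h

theorem Dep.isClopen {R : Finset (Sym2 V)} {D : Set (Cfg V)} (h : Dep R D) : IsClopen D := by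
  have e1 : D = (fun (η : Cfg V) (e : R) => η e.1) ⁻¹'
      ((fun (η : Cfg V) (e : R) => η e.1) '' D) := by
    ext η
    constructor
    · exact fun hη => ⟨η, hη, rfl⟩
    · rintro ⟨η', h1, h2⟩
      refine h η' η (fun e he => ?_) h1
      exact congrFun h2 ⟨e, he⟩
  rw [e1]
  refine IsClopen.preimage ?_ ?_
  · exact isClopen_discrete _
  · exact continuous_pi fun e => continuous_apply e.1

variable [Countable V]

instance : Countable (Sym2 V) := by
  unfold Sym2
  infer_instance

theorem Dep.meas {R : Finset (Sym2 V)} {D : Set (Cfg V)} (h : Dep R D) : MeasurableSet D :=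
  h.isClopen.isOpen.measurableSet

theorem Dep.tendsto {R : Finset (Sym2 V)} {D : Set (Cfg V)} (h : Dep R D)
    {Q : ℕ → ProbabilityMeasure (Cfg V)} {P : ProbabilityMeasure (Cfg V)}
    (hQ : Tendsto Q atTop (𝓝 P)) :
    Tendsto (fun k => (Q k : Measure (Cfg V)).real D) atTop (𝓝 ((P : Measure (Cfg V)).real D)) := by
  have h1 := ProbabilityMeasure.tendsto_measure_of_null_frontier_of_tendsto' hQ (E := D) (by
    rw [h.isClopen.frontier_eq]
    simp)
  exact (ENNReal.tendsto_toReal (measure_ne_top _ _)).comp h1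

/-- the configuration with the given set of open pairs -/
def conf (S : Finset (Sym2 V)) : Cfg V := fun e => decide (e ∈ S)

/-- the cylinder events form a generating system -/
theorem ext_cyl {m₁ m₂ : Measure (Cfg V)} [IsFiniteMeasure m₁]
    (h : ∀ R S : Finset (Sym2 V), S ⊆ R → m₁ (Cyl R S) = m₂ (Cyl R S)) : m₁ = m₂ := by
  obtain ⟨C, hC⟩ : ∃ C : Set (Set (Cfg V)), C = {D | D = ∅ ∨ ∃ R S, S ⊆ R ∧ D = Cyl R S} := ⟨_, rfl⟩
  have huniv : (Set.univ : Set (Cfg V)) = Cyl ∅ ∅ := by
    ext η
    simp [Cyl]
  refine MeasureTheory.ext_of_generate_finite C ?_ ?_ ?_ ?_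
  · apply le_antisymm
    · rw [MeasurableSpace.pi, iSup_le_iff]
      intro e
      rw [MeasurableSpace.comap_le_iff_le_map]
      intro s _
      show MeasurableSet[MeasurableSpace.generateFrom C] ((fun η : Cfg V => η e) ⁻¹' s)
      have e1 : ((fun η : Cfg V => η e) ⁻¹' s) =
          (if true ∈ s then Cyl {e} {e} else ∅) ∪ (if false ∈ s then Cyl {e} ∅ else ∅) := by
        ext η
        simp only [Set.mem_preimage, Set.mem_union]
        cases hη : η e with
        | true =>
          by_cases h1 : true ∈ s <;> by_cases h2 : false ∈ s <;> simp [h1, h2, Cyl, hη]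
        | false =>
          by_cases h1 : true ∈ s <;> by_cases h2 : false ∈ s <;> simp [h1, h2, Cyl, hη]
      rw [e1]
      refine @MeasurableSet.union _ (MeasurableSpace.generateFrom C) _ _ ?_ ?_
      · split_ifs
        · exact MeasurableSpace.measurableSet_generateFrom (by
            rw [hC]; exact Or.inr ⟨_, _, Finset.Subset.refl _, rfl⟩)
        · exact @MeasurableSet.empty _ (MeasurableSpace.generateFrom C)
      · split_ifs
        · exact MeasurableSpace.measurableSet_generateFrom (by
            rw [hC]; exact Or.inr ⟨_, _, Finset.empty_subset _, rfl⟩)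
        · exact @MeasurableSet.empty _ (MeasurableSpace.generateFrom C)
    · apply MeasurableSpace.generateFrom_le
      intro D hD
      rw [hC] at hD
      rcases hD with rfl | ⟨R, S, -, rfl⟩
      · exact MeasurableSet.empty
      · exact (dep_cyl R S).meas
  · rintro D hD D' hD' -
    rw [hC] at hD hD' ⊢
    rcases hD with rfl | ⟨R, S, hS, rfl⟩
    · left; simp
    rcases hD' with rfl | ⟨R', S', hS', rfl⟩
    · left; simp
    by_cases hc : ∀ e ∈ R, e ∈ R' → (e ∈ S ↔ e ∈ S')
    · right
      refine ⟨R ∪ R', S ∪ S', Finset.union_subset_union hS hS', ?_⟩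
      ext η
      simp only [Cyl, Set.mem_inter_iff, Set.mem_setOf_eq, Finset.mem_union]
      constructor
      · rintro ⟨h1, h2⟩ e (he | he)
        · rw [h1 e he]
          constructor
          · exact Or.inl
          · rintro (h3 | h3)
            · exact h3
            · exact (hc e he (hS' h3)).2 h3
        · rw [h2 e he]
          constructor
          · exact Or.inr
          · rintro (h3 | h3)
            · exact (hc e (hS h3) he).1 h3
            · exact h3
      · intro h1
        constructor
        · intro e he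
          rw [h1 e (Or.inl he)]
          constructor
          · rintro (h3 | h3)
            · exact h3
            · exact (hc e he (hS' h3)).2 h3
          · exact Or.inl
        · intro e he
          rw [h1 e (Or.inr he)]
          constructor
          · rintro (h3 | h3)
            · exact (hc e (hS h3) he).1 h3
            · exact h3
          · exact Or.inr
    · left
      push Not at hc
      obtain ⟨e, h1, h2, h3⟩ := hc
      rw [Set.eq_empty_iff_forall_notMem]
      rintro η ⟨h4, h5⟩
      have h6 := h4 e h1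
      have h7 := h5 e h2
      tauto
  · rintro D hD
    rw [hC] at hD
    rcases hD with rfl | ⟨R, S, hS, rfl⟩
    · simp
    · exact h R S hS
  · rw [huniv]
    exact h ∅ ∅ (Finset.Subset.refl _)

variable [AddCommGroup V] (G : Geo V)

/-- the vertex `x` is visited -/
def Vis (x : V) (η : Cfg V) : Prop := ∃ y, G.Adj x y ∧ η s(x, y) = true

/-- the pairs at `x` -/
def star (x : V) : Finset (Sym2 V) := (G.nb x).image (fun y => s(x, y))

theorem dep_vis (x : V) : Dep (star G x) {η : Cfg V | Vis G x η} := by
  rintro η η' he ⟨y, h1, h2⟩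
  refine ⟨y, h1, ?_⟩
  rw [← he _ (Finset.mem_image_of_mem _ ((G.mem_nb x y).2 h1))]
  exact h2

/-- **Gibbs property** at the fugacity `x`: if the states `A`, `A'` of the pairs in `Λ` are
exchangeable, then their probabilities are proportional to `x ^ |A|`, `x ^ |A'|`, also on every
event `C` which does not depend on the pairs in `Λ`, provided that on `C` the origin is visited in
both states. -/
def IsGibbs (x : ℝ) (P : Measure (Cfg V)) : Prop :=
  ∀ Λ A A' : Finset (Sym2 V), Exch G Λ A A' → ∀ C : Set (Cfg V), MeasurableSet C →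
    (∀ η η' : Cfg V, (∀ e, e ∉ Λ → η e = η' e) → η ∈ C → η' ∈ C) →
    (∀ η ∈ C, η ∈ Cyl Λ A ∪ Cyl Λ A' → Vis G 0 η) →
    x ^ A'.card * P.real (Cyl Λ A ∩ C) = x ^ A.card * P.real (Cyl Λ A' ∩ C)

/-- the Gibbs property for cylinder events -/
def Atomic (μ : ℝ) (P : Measure (Cfg V)) : Prop :=
  ∀ Λ A A' : Finset (Sym2 V), Exch G Λ A A' → Vis G 0 (conf A) → Vis G 0 (conf A') →
    μ ^ A.card * P.real (Cyl Λ A) = μ ^ A'.card * P.real (Cyl Λ A')

theorem decomp (P : Measure (Cfg V)) [IsFiniteMeasure P] {Λ A R : Finset (Sym2 V)} (hA : A ⊆ Λ)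
    (hR : Disjoint R Λ) {Q : Set (Cfg V)} (hQ : Dep R Q)
    [DecidablePred fun S : Finset (Sym2 V) => conf S ∈ Q] :
    P.real (Cyl Λ A ∩ Q) = ∑ S ∈ R.powerset.filter (fun S => conf S ∈ Q),
      P.real (Cyl (Λ ∪ R) (A ∪ S)) := by
  have e1 : Cyl Λ A ∩ Q = ⋃ S ∈ R.powerset.filter (fun S => conf S ∈ Q),
      Cyl (Λ ∪ R) (A ∪ S) := by
    ext η
    rw [Set.mem_iUnion₂]
    constructor
    · rintro ⟨h1, h2⟩
      refine ⟨R.filter (fun e => η e = true), ?_, ?_⟩
      · rw [Finset.mem_filter, Finset.mem_powerset]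
        refine ⟨Finset.filter_subset _ _, ?_⟩
        refine hQ η _ (fun e he => ?_) h2
        unfold conf
        cases hη : η e with
        | true => simp [he, hη]
        | false => simp [hη]
      · intro e he
        rw [Finset.mem_union, Finset.mem_filter]
        rw [Finset.mem_union] at he
        rcases he with he | he
        · rw [h1 e he]
          constructor
          · exact Or.inl
          · rintro (h | h)
            · exact h
            · exact absurd he ((Finset.disjoint_left.1 hR) h.1)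
        · constructor
          · exact fun h => Or.inr ⟨he, h⟩
          · rintro (h | h)
            · exact absurd (hA h) ((Finset.disjoint_left.1 hR) he)
            · exact h.2
    · rintro ⟨S, hS, h1⟩
      rw [Finset.mem_filter, Finset.mem_powerset] at hS
      constructor
      · intro e he
        rw [h1 e (Finset.mem_union_left _ he), Finset.mem_union]
        constructor
        · rintro (h | h)
          · exact h
          · exact absurd he ((Finset.disjoint_left.1 hR) (hS.1 h))
        · exact Or.inl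
      · refine hQ (conf S) η (fun e he => ?_) hS.2
        have h2 := h1 e (Finset.mem_union_right _ he)
        have h3 : e ∉ A := fun h => (Finset.disjoint_left.1 hR) he (hA h)
        rw [Finset.mem_union] at h2
        unfold conf
        cases hη : η e with
        | true =>
          rw [hη] at h2
          simpa [h3] using h2
        | false =>
          rw [hη] at h2
          simp only [Bool.false_eq_true, false_iff, not_or] at h2
          simpa using h2.2
  rw [e1, measureReal_biUnion_finset]
  · intro S hS S' hS' hne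
    rw [Finset.mem_coe, Finset.mem_filter, Finset.mem_powerset] at hS hS'
    rw [Function.onFun, Set.disjoint_left]
    intro η h1 h2
    apply hne
    have key : ∀ S S' : Finset (Sym2 V), S ⊆ R → S' ⊆ R → η ∈ Cyl (Λ ∪ R) (A ∪ S) →
        η ∈ Cyl (Λ ∪ R) (A ∪ S') → S ⊆ S' := by
      intro S S' hS _ h1 h2 e he
      have h3 := h1 e (Finset.mem_union_right _ (hS he))
      have h4 := h2 e (Finset.mem_union_right _ (hS he))
      rw [h3] at h4
      have h5 := h4.1 (Finset.mem_union_right _ he)
      rw [Finset.mem_union] at h5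
      rcases h5 with h5 | h5
      · exact absurd (hA h5) ((Finset.disjoint_left.1 hR) (hS he))
      · exact h5
    exact Finset.Subset.antisymm (key S S' hS.1 hS'.1 h1 h2) (key S' S hS'.1 hS.1 h2 h1)
  · intro S _
    exact (dep_cyl _ _).meas

/-- the state `X` is given to the window `Λ` -/
def put (Λ X : Finset (Sym2 V)) (η : Cfg V) : Cfg V := fun e => if e ∈ Λ then decide (e ∈ X) else η e

theorem measurable_put (Λ X : Finset (Sym2 V)) : Measurable (put Λ X) := by
  rw [measurable_pi_iff]
  intro e
  unfold put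
  by_cases h : e ∈ Λ
  · simp only [h, if_true]
    exact measurable_const
  · simp only [h, if_false]
    exact measurable_pi_apply e

theorem put_cyl {Λ X : Finset (Sym2 V)} (η : Cfg V) : put Λ X η ∈ Cyl Λ X := by
  intro e he
  unfold put
  simp [he]

theorem put_eq {Λ X : Finset (Sym2 V)} {η : Cfg V} (h : η ∈ Cyl Λ X) : put Λ X η = η := by
  funext e
  unfold put
  split_ifs with he
  · have := h e he
    cases hη : η e with
    | true => rw [hη] at this; simpa using this
    | false => rw [hη] at this; simpa using this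
  · rfl

theorem put_out {Λ X : Finset (Sym2 V)} {η : Cfg V} {e : Sym2 V} (h : e ∉ Λ) :
    put Λ X η e = η e := by
  unfold put
  rw [if_neg h]

theorem put_conf {Λ X S : Finset (Sym2 V)} (hX : X ⊆ Λ) (hS : Disjoint S Λ) :
    put Λ X (conf S) = conf (X ∪ S) := by
  funext e
  unfold put conf
  split_ifs with h
  · have h1 : e ∉ S := fun h' => (Finset.disjoint_left.1 hS) h' h
    simp [h1]
  · have h1 : e ∉ X := fun h' => h (hX h')
    simp [h1]

/-- the Gibbs property from the cylinder events -/
theorem gibbs_of_atomic {μ : ℝ} (hμ : 0 < μ) (P : Measure (Cfg V)) [IsFiniteMeasure P]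
    (h : Atomic G μ P) : IsGibbs G (1 / μ) P := by
  intro Λ A A' hE C hC hC1 hC2
  obtain ⟨VV, hVV⟩ : ∃ VV : Set (Cfg V), VV = {η | Vis G 0 (put Λ A η) ∧ Vis G 0 (put Λ A' η)} :=
    ⟨_, rfl⟩
  have hdep : Dep (star G 0 \ Λ) VV := by
    intro η η' he hη
    rw [hVV] at hη ⊢
    have h1 : ∀ X, ∀ e ∈ star G 0, put Λ X η e = put Λ X η' e := by
      intro X e h
      by_cases h2 : e ∈ Λ
      · unfold put; rw [if_pos h2, if_pos h2]
      · rw [put_out h2, put_out h2]
        exact he e (Finset.mem_sdiff.2 ⟨h, h2⟩)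
    exact ⟨(dep_vis G 0) _ _ (h1 A) hη.1, (dep_vis G 0) _ _ (h1 A') hη.2⟩
  have hCV : ∀ η ∈ C, η ∈ VV := by
    intro η hη
    rw [hVV]
    refine ⟨?_, ?_⟩
    · exact hC2 _ (hC1 η _ (fun e he => (put_out he).symm) hη) (Or.inl (put_cyl η))
    · exact hC2 _ (hC1 η _ (fun e he => (put_out he).symm) hη) (Or.inr (put_cyl η))
  have hpre : put Λ ∅ ⁻¹' C = C := by
    ext η
    rw [Set.mem_preimage]
    constructor
    · exact hC1 _ _ fun e he => put_out he
    · exact hC1 _ _ fun e he => (put_out he).symm
  have hint : ∀ X, Cyl Λ X ∩ C = put Λ ∅ ⁻¹' C ∩ (Cyl Λ X ∩ VV) := by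
    intro X
    rw [hpre]
    ext η
    constructor
    · rintro ⟨h1, h2⟩
      exact ⟨h2, h1, hCV η h2⟩
    · rintro ⟨h1, h2, -⟩
      exact ⟨h2, h1⟩
  have hmeas : ∀ X, MeasurableSet (Cyl Λ X ∩ VV) := fun X =>
    (dep_cyl Λ X).meas.inter hdep.meas
  obtain ⟨m, hm⟩ : ∃ m : Finset (Sym2 V) → Measure (Cfg V),
      m = fun X => (ENNReal.ofReal (μ ^ X.card)) • ((P.restrict (Cyl Λ X ∩ VV)).map (put Λ ∅)) :=
    ⟨_, rfl⟩
  have hfin : ∀ X, IsFiniteMeasure (m X) := by
    intro X
    rw [hm]
    constructor
    rw [Measure.smul_apply, Measure.map_apply (measurable_put Λ ∅) MeasurableSet.univ, smul_eq_mul]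
    exact ENNReal.mul_lt_top ENNReal.ofReal_lt_top (measure_lt_top _ _)
  have hval : ∀ X, ∀ D, MeasurableSet D → (m X).real D =
      μ ^ X.card * P.real (put Λ ∅ ⁻¹' D ∩ (Cyl Λ X ∩ VV)) := by
    intro X D hD
    rw [hm]
    unfold Measure.real
    rw [Measure.smul_apply, Measure.map_apply (measurable_put Λ ∅) hD,
      Measure.restrict_apply ((measurable_put Λ ∅) hD), smul_eq_mul, ENNReal.toReal_mul,
      ENNReal.toReal_ofReal (by positivity)]
  have hEq : m A = m A' := by
    haveI := hfin A
    haveI := hfin A'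
    refine ext_cyl fun R S hS => ?_
    have h1 : (m A).real (Cyl R S) = (m A').real (Cyl R S) := by
      rw [hval A _ (dep_cyl R S).meas, hval A' _ (dep_cyl R S).meas]
      obtain ⟨R1, hR1⟩ : ∃ R1, R1 = (R ∪ star G 0) \ Λ := ⟨_, rfl⟩
      have hd : Disjoint R1 Λ := by rw [hR1]; exact Finset.sdiff_disjoint
      have hQ : Dep R1 (put Λ ∅ ⁻¹' Cyl R S ∩ VV) := by
        intro η η' he hη
        refine ⟨?_, ?_⟩
        · refine (dep_cyl R S) _ _ (fun e h => ?_) hη.1
          by_cases h2 : e ∈ Λ
          · unfold put; rw [if_pos h2, if_pos h2]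
          · rw [put_out h2, put_out h2]
            exact he e (by rw [hR1, Finset.mem_sdiff, Finset.mem_union]; exact ⟨Or.inl h, h2⟩)
        · refine hdep _ _ (fun e h => ?_) hη.2
          rw [Finset.mem_sdiff] at h
          exact he e (by rw [hR1, Finset.mem_sdiff, Finset.mem_union]; exact ⟨Or.inr h.1, h.2⟩)
      have e1 : ∀ X, put Λ ∅ ⁻¹' Cyl R S ∩ (Cyl Λ X ∩ VV) =
          Cyl Λ X ∩ (put Λ ∅ ⁻¹' Cyl R S ∩ VV) := by
        intro X
        ext η
        simp only [Set.mem_inter_iff]
        tauto
      rw [e1 A, e1 A', decomp P hE.1 hd hQ, decomp P hE.2.1 hd hQ, Finset.mul_sum, Finset.mul_sum]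
      refine Finset.sum_congr rfl fun S1 hS1 => ?_
      rw [Finset.mem_filter, Finset.mem_powerset] at hS1
      have hdS : Disjoint S1 Λ := Finset.disjoint_of_subset_left hS1.1 hd
      have h2 := hS1.2.2
      rw [hVV] at h2
      obtain ⟨h3, h4⟩ := h2
      rw [put_conf hE.1 hdS] at h3
      rw [put_conf hE.2.1 hdS] at h4
      have h5 := h _ _ _ (hE.extend G hd hS1.1) h3 h4
      have dA : Disjoint A S1 := (Finset.disjoint_of_subset_right hE.1 hdS).symm
      have dA' : Disjoint A' S1 := (Finset.disjoint_of_subset_right hE.2.1 hdS).symm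
      rw [Finset.card_union_of_disjoint dA, Finset.card_union_of_disjoint dA', pow_add, pow_add] at h5
      have hp : 0 < μ ^ S1.card := by positivity
      have h6 : μ ^ S1.card * (μ ^ A.card * P.real (Cyl (Λ ∪ R1) (A ∪ S1))) =
          μ ^ S1.card * (μ ^ A'.card * P.real (Cyl (Λ ∪ R1) (A' ∪ S1))) := by linarith
      exact mul_left_cancel₀ hp.ne' h6
    unfold Measure.real at h1
    exact (ENNReal.toReal_eq_toReal_iff' (measure_ne_top _ _) (measure_ne_top _ _)).1 h1
  have h1 := hval A C hC
  have h2 := hval A' C hC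
  rw [← hint] at h1 h2
  rw [hEq, h2] at h1
  have hA : 0 < μ ^ A.card := by positivity
  have hA' : 0 < μ ^ A'.card := by positivity
  rw [one_div, inv_pow, inv_pow, inv_mul_eq_iff_eq_mul₀ hA'.ne']
  field_simp
  linarith

end

end U443.LG
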