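import Pool.Agent.U443.LG.Face
import Pool.Agent.TH966.AK.HexPoor

/-!
# Hexagons with four used edges have positive density
-/

set_option autoImplicit false

namespace U443.LG

/-- neighbours as a list -/
def nbL (p : ℤ × ℤ) : List (ℤ × ℤ) :=
  [(p.1 + 1, p.2), (p.1 - 1, p.2), (p.1, if (p.1 + p.2) % 2 = 0 then p.2 + 1 else p.2 - 1)]

/-- the hexagon with a given doubled centre -/
def cen (c : ℤ × ℤ) : ℤ × ℤ := (c.1 / 2 - 1, (c.2 - 1) / 2)

/-- doubled centre -/
def ctr0 (p q r : ℤ × ℤ) : ℤ × ℤ :=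
  (2 * (p.1 + r.1 - q.1), 2 * (p.2 + r.2 - q.2) + (if (p.1 + p.2) % 2 = 0 then 1 else -1))

/-- the relation between `p, q, r` and the hexagon `g` -/
def Rel (g p q r c : ℤ × ℤ) (s : ZMod 6) : Prop :=
  ([p, c - r, c - q, c - p, r] = (arc s 4).map (g + ·) ∧
      [p, q, r] = [g + hv s, g + hv (s + 5), g + hv (s + 4)]) ∨
    ([p, c - r, c - q, c - p, r] = ((arc s 4).map (g + ·)).reverse ∧
      [p, q, r] = [g + hv (s + 4), g + hv (s + 5), g + hv s])

instance (g p q r c : ℤ × ℤ) (s : ZMod 6) : Decidable (Rel g p q r c s) := by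
  unfold Rel
  infer_instance

theorem base : ∀ p ∈ ([(0, 0), (1, 0)] : List (ℤ × ℤ)), ∀ q ∈ nbL p, ∀ r ∈ nbL q, r ≠ p →
    ((cen (ctr0 p q r)).1 + (cen (ctr0 p q r)).2) % 2 = 0 ∧
    ∃ s : ZMod 6, Rel (cen (ctr0 p q r)) p q r (ctr0 p q r) s := by decide

theorem mem_nbL {p q : ℤ × ℤ} : q ∈ nbL p ↔ HexAdj p q := by
  unfold nbL HexAdj
  simp only [List.mem_cons, List.not_mem_nil, or_false, Prod.ext_iff]
  split_ifs with h <;> omega

theorem Rel_shift {g p q r c : ℤ × ℤ} {s : ZMod 6} (t : ℤ × ℤ) (h : Rel g p q r c s) :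
    Rel (t + g) (t + p) (t + q) (t + r) (2 * t + c) s := by
  have e1 : ∀ x : ℤ × ℤ, 2 * t + c - (t + x) = t + (c - x) := by
    intro x
    ext
    · simp only [Prod.fst_sub, Prod.fst_add, Prod.fst_mul]
      norm_num
      ring
    · simp only [Prod.snd_sub, Prod.snd_add, Prod.snd_mul]
      norm_num
      ring
  have e2 : (arc s 4).map ((t + g) + ·) = ((arc s 4).map (g + ·)).map (t + ·) := by
    rw [List.map_map]
    congr 1
    funext x
    simp [add_assoc]
  unfold Rel
  rw [e1, e1, e1, e2]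
  rcases h with ⟨h1, h2⟩ | ⟨h1, h2⟩
  · left
    refine ⟨?_, ?_⟩
    · rw [← h1]
      simp
    · have := congrArg (List.map (t + ·)) h2
      simpa [add_assoc] using this
  · right
    refine ⟨?_, ?_⟩
    · rw [← List.map_reverse, ← h1]
      simp
    · have := congrArg (List.map (t + ·)) h2
      simpa [add_assoc] using this

theorem rel_all {p q r : ℤ × ℤ} (h1 : HexAdj p q) (h2 : HexAdj q r) (h3 : r ≠ p) :
    ((cen (ctr0 p q r)).1 + (cen (ctr0 p q r)).2) % 2 = 0 ∧
    ∃ s : ZMod 6, Rel (cen (ctr0 p q r)) p q r (ctr0 p q r) s := by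
  obtain ⟨t, p0, ht, hp0, rfl⟩ : ∃ t p0 : ℤ × ℤ, (t.1 + t.2) % 2 = 0 ∧
      p0 ∈ ([(0, 0), (1, 0)] : List (ℤ × ℤ)) ∧ t + p0 = p := by
    by_cases h : (p.1 + p.2) % 2 = 0
    · exact ⟨p, (0, 0), h, by simp, by ext <;> simp⟩
    · refine ⟨p - (1, 0), (1, 0), ?_, by simp, by simp⟩
      simp only [Prod.fst_sub, Prod.snd_sub]
      omega
  obtain ⟨q0, rfl⟩ : ∃ q0, t + q0 = q := ⟨q - t, by abel⟩
  obtain ⟨r0, rfl⟩ : ∃ r0, t + r0 = r := ⟨r - t, by abel⟩
  have hT : t ∈ evenPts := ht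
  have a1 := (adj_shift hexG hT).1 h1
  have a2 := (adj_shift hexG hT).1 h2
  have hb := base p0 hp0 q0 (mem_nbL.2 a1) r0 (mem_nbL.2 a2) (by
    rintro rfl; exact h3 rfl)
  have e1 : ctr0 (t + p0) (t + q0) (t + r0) = 2 * t + ctr0 p0 q0 r0 := by
    unfold ctr0
    have e2 : ((t + p0).1 + (t + p0).2) % 2 = 0 ↔ (p0.1 + p0.2) % 2 = 0 := by
      simp only [Prod.fst_add, Prod.snd_add]
      omega
    simp only [e2]
    ext
    · simp only [Prod.fst_add, Prod.fst_mul, Prod.fst_ofNat]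
      ring
    · simp only [Prod.snd_add, Prod.snd_mul, Prod.snd_ofNat]
      ring
  have e3 : cen (2 * t + ctr0 p0 q0 r0) = t + cen (ctr0 p0 q0 r0) := by
    unfold cen
    ext
    · simp only [Prod.fst_add, Prod.fst_mul, Prod.fst_ofNat]
      omega
    · simp only [Prod.snd_add, Prod.snd_mul, Prod.snd_ofNat]
      omega
  rw [e1, e3]
  refine ⟨?_, ?_⟩
  · have := hb.1
    simp only [Prod.fst_add, Prod.snd_add]
    omega
  · obtain ⟨s, hs⟩ := hb.2
    exact ⟨s, Rel_shift t hs⟩

theorem arc4 : ∀ s : ZMod 6, arc s 4 = [hv s, hv (s + 1), hv (s + 2), hv (s + 3), hv (s + 4)] := by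
  decide

theorem six : ∀ s i : ZMod 6, i = s + 4 ∨ i = s + 5 ∨ i = s ∨ i = s + 1 ∨ i = s + 2 ∨ i = s + 3 := by
  decide

theorem four : ∀ s i : ZMod 6, i ≠ s → i ≠ s + ((4 : ℕ) : ZMod 6) →
    i = s + 5 ∨ i = s + 1 ∨ i = s + 2 ∨ i = s + 3 := by
  decide

open Finset MeasureTheory Filter Topology
open scoped Classical

noncomputable section

theorem exists_of_star {V : Type} [AddCommGroup V] {G : Geo V} {x : V} {e : Sym2 V}
    (h : e ∈ star G x) : ∃ y, e = s(x, y) := by
  unfold star at h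
  rw [Finset.mem_image] at h
  obtain ⟨y, -, rfl⟩ := h
  exact ⟨y, rfl⟩

theorem tr_infix {V : Type} {U l : List V} (h : U <:+: l) : tr U ⊆ tr l := by
  obtain ⟨p, q, rfl⟩ := h
  intro e he
  obtain ⟨p1, a, b, q1, rfl, rfl⟩ := mem_tr.1 he
  exact mem_tr.2 ⟨p ++ p1, a, b, q1 ++ q, by simp, rfl⟩

/-- the state of the hexagon -/
theorem state_of_infix {l : List (ℤ × ℤ)} (hnd : l.Nodup) {g : ℤ × ℤ} (hg : g ∈ evenPts) {s : ZMod 6}
    (hin : (arc s 4).map (g + ·) <:+: l) (hq : g + hv (s + 5) ∉ l) :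
    ∀ e ∈ hexW s (s + ((4 : ℕ) : ZMod 6)), (Sym2.map (g + ·) e ∈ tr l ↔ e ∈ tr (arc s 4)) := by
  have hsub := tr_infix hin
  rw [tr_map] at hsub
  have hq' : ∀ a b : ℤ × ℤ, (a = hv (s + 5) ∨ b = hv (s + 5)) → Sym2.map (g + ·) s(a, b) ∉ tr l := by
    intro a b h hmem
    rw [Sym2.map_mk] at hmem
    obtain ⟨h1, h2⟩ := tr_sub_left hmem
    rcases h with rfl | rfl
    · exact hq h1
    · exact hq h2
  intro e he
  constructor
  · intro hmem
    by_contra hnot
    unfold hexW at he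
    rw [Finset.mem_union] at he
    rcases he with he | he
    · unfold hexE at he
      rw [Finset.mem_image] at he
      obtain ⟨i, -, rfl⟩ := he
      have hi := six s i
      rw [arc4] at hnot
      rcases hi with rfl | rfl | rfl | rfl | rfl | rfl
      · exact hq' _ _ (Or.inr (by congr 1; ring)) hmem
      · exact hq' _ _ (Or.inl rfl) hmem
      · exact hnot (by simp [tr])
      · apply hnot
        simp only [tr, Finset.mem_insert]
        have e1 : s + 1 + 1 = s + 2 := by ring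
        rw [e1]
        tauto
      · apply hnot
        simp only [tr, Finset.mem_insert]
        have e1 : s + 2 + 1 = s + 3 := by ring
        rw [e1]
        tauto
      · apply hnot
        simp only [tr, Finset.mem_insert]
        have e1 : s + 3 + 1 = s + 4 := by ring
        rw [e1]
        tauto
    · rw [Finset.mem_biUnion] at he
      obtain ⟨i, hi, he⟩ := he
      rw [Finset.mem_filter] at hi
      obtain ⟨y, rfl⟩ := exists_of_star he
      have hi' := four s i hi.2.1 hi.2.2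
      obtain ⟨P, Q, hPQ⟩ := hin
      rw [arc4] at hPQ hnot
      simp only [List.map_cons, List.map_nil] at hPQ
      rw [Sym2.map_mk] at hmem
      rcases hi' with rfl | rfl | rfl | rfl
      · exact hq' _ _ (Or.inl rfl) (by rw [Sym2.map_mk]; exact hmem)
      · have e1 : l = P ++ (g + hv s) :: (g + hv (s + 1)) :: (g + hv (s + 2)) ::
            ((g + hv (s + 3)) :: (g + hv (s + 4)) :: Q) := by rw [← hPQ]; simp
        rw [e1] at hmem hnd
        rcases (nbrs_mid hnd).1 hmem with h | h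
        · have := add_left_cancel h
          subst this
          apply hnot
          simp only [tr, Finset.mem_insert]
          left
          exact Sym2.eq_swap
        · have := add_left_cancel h
          subst this
          apply hnot
          simp only [tr, Finset.mem_insert]
          tauto
      · have e1 : l = (P ++ [g + hv s]) ++ (g + hv (s + 1)) :: (g + hv (s + 2)) ::
            (g + hv (s + 3)) :: ((g + hv (s + 4)) :: Q) := by rw [← hPQ]; simp
        rw [e1] at hmem hnd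
        rcases (nbrs_mid hnd).1 hmem with h | h
        · have := add_left_cancel h
          subst this
          apply hnot
          simp only [tr, Finset.mem_insert]
          right; left
          exact Sym2.eq_swap
        · have := add_left_cancel h
          subst this
          apply hnot
          simp only [tr, Finset.mem_insert]
          tauto
      · have e1 : l = (P ++ [g + hv s, g + hv (s + 1)]) ++ (g + hv (s + 2)) ::
            (g + hv (s + 3)) :: (g + hv (s + 4)) :: Q := by rw [← hPQ]; simp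
        rw [e1] at hmem hnd
        rcases (nbrs_mid hnd).1 hmem with h | h
        · have := add_left_cancel h
          subst this
          apply hnot
          simp only [tr, Finset.mem_insert]
          right; right; left
          exact Sym2.eq_swap
        · have := add_left_cancel h
          subst this
          apply hnot
          simp only [tr, Finset.mem_insert]
          tauto
  · intro h
    exact hsub (sh_map.2 h)

/-- the set of the places of a state is finite -/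
theorem places_finite (l : List (ℤ × ℤ)) (s : ZMod 6) (R : Finset (Sym2 (ℤ × ℤ)))
    (hR : tr (arc s 4) ⊆ R) :
    {g : ℤ × ℤ | g ∈ hexG.T ∧ ∀ e ∈ R, (Sym2.map (g + ·) e ∈ tr l ↔ e ∈ tr (arc s 4))}.Finite := by
  refine Set.Finite.subset (Finset.finite_toSet (l.toFinset.image (fun x => x - hv s))) ?_
  rintro g ⟨-, hg⟩
  rw [Finset.mem_coe, Finset.mem_image]
  have h1 : s(hv s, hv (s + 1)) ∈ tr (arc s 4) := by
    rw [arc4]
    simp only [tr, Finset.mem_insert]
    tauto
  have h2 := (hg _ (hR h1)).2 h1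
  rw [Sym2.map_mk] at h2
  exact ⟨g + hv s, List.mem_toFinset.2 (tr_sub_left h2).1, by abel⟩

/-- the two windows of a place -/
def Psi (x : (Σ _ : ZMod 6, ℤ × ℤ) × Bool) : List (ℤ × ℤ) × List (ℤ × ℤ) :=
  if x.2 = true then
    ([x.1.2 + hv x.1.1, x.1.2 + hv (x.1.1 + 5), x.1.2 + hv (x.1.1 + 4)],
      (arc x.1.1 4).map (x.1.2 + ·))
  else ([x.1.2 + hv (x.1.1 + 4), x.1.2 + hv (x.1.1 + 5), x.1.2 + hv x.1.1],
      ((arc x.1.1 4).map (x.1.2 + ·)).reverse)

theorem B_le_faces {l : List (ℤ × ℤ)} (hnd : l.Nodup) :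
    (TH966.AK.Hex.rule.B l).card ≤ 2 * faces 4 l := by
  have hR : ∀ s : ZMod 6, tr (arc s 4) ⊆ hexW s (s + ((4 : ℕ) : ZMod 6)) := fun s =>
    (tr_arc_sub s 4).trans Finset.subset_union_left
  obtain ⟨St, hSt⟩ : ∃ St : ZMod 6 → Finset (ℤ × ℤ), ∀ s g, g ∈ St s ↔ (g ∈ hexG.T ∧
      ∀ e ∈ hexW s (s + ((4 : ℕ) : ZMod 6)), (Sym2.map (g + ·) e ∈ tr l ↔ e ∈ tr (arc s 4))) :=
    ⟨fun s => (places_finite l s _ (hR s)).toFinset, fun s g => by
      rw [Set.Finite.mem_toFinset]; rfl⟩
  have hcard : faces 4 l = ∑ s : ZMod 6, (St s).card := by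
    unfold faces
    refine Finset.sum_congr rfl fun s _ => ?_
    unfold NN
    rw [← Set.ncard_coe_finset]
    congr 1
    ext g
    rw [Finset.mem_coe, hSt]
    rfl
  have hsub : TH966.AK.Hex.rule.B l ⊆
      (((Finset.univ : Finset (ZMod 6)).sigma St) ×ˢ (Finset.univ : Finset Bool)).image Psi := by
    rintro ⟨U, U'⟩ h
    rw [TH966.AK.Rule.mem_B] at h
    obtain ⟨⟨p, q, r, hU, hU', h1, h2, h3⟩, h4, h5⟩ := h
    simp only at hU hU' h4 h5
    have e0 : TH966.AK.Hex.ctr p q r = ctr0 p q r := rfl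
    rw [e0] at hU'
    obtain ⟨hg, s, hs⟩ := rel_all ((hexAdj_iff _ _).2 h1) ((hexAdj_iff _ _).2 h2) (Ne.symm h3)
    have hqU' : q ∉ U' := by
      obtain ⟨-, -, -, -, -, a6, a7, a8⟩ := TH966.AK.Hex.hexagon h1 h2 h3
      rw [hU']
      simp only [List.mem_cons, List.not_mem_nil, or_false, not_or]
      exact ⟨(TH966.AK.Hex.A_ne h1).symm, a6, a7, a8, TH966.AK.Hex.A_ne h2⟩
    have hql : q ∉ l := h5 q (by rw [hU]; simp) hqU'
    rw [Finset.mem_image]
    rcases hs with ⟨k1, k2⟩ | ⟨k1, k2⟩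
    · have hq : q = cen (ctr0 p q r) + hv (s + 5) := by
        have := congrArg (fun L => L[1]?) k2
        simpa using this
      refine ⟨(⟨s, cen (ctr0 p q r)⟩, true), ?_, ?_⟩
      · rw [Finset.mem_product, Finset.mem_sigma]
        refine ⟨⟨Finset.mem_univ _, ?_⟩, Finset.mem_univ _⟩
        rw [hSt]
        refine ⟨hg, state_of_infix hnd hg ?_ (by rw [← hq]; exact hql)⟩
        rw [← k1, ← hU']
        exact h4
      · unfold Psi
        simp only [if_true]
        rw [← k1, ← k2, hU, hU']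
    · have hq : q = cen (ctr0 p q r) + hv (s + 5) := by
        have := congrArg (fun L => L[1]?) k2
        simpa using this
      refine ⟨(⟨s, cen (ctr0 p q r)⟩, false), ?_, ?_⟩
      · rw [Finset.mem_product, Finset.mem_sigma]
        refine ⟨⟨Finset.mem_univ _, ?_⟩, Finset.mem_univ _⟩
        rw [hSt]
        refine ⟨hg, ?_⟩
        have h6 := state_of_infix (List.nodup_reverse.2 hnd) hg (s := s) (by
          rw [← List.reverse_infix, List.reverse_reverse, ← k1, ← hU']
          exact h4) (by rw [← hq, List.mem_reverse]; exact hql)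
        rwa [tr_reverse] at h6
      · unfold Psi
        simp only [Bool.false_eq_true, if_false]
        rw [← k1, ← k2, hU, hU']
  have h1 := (Finset.card_le_card hsub).trans Finset.card_image_le
  rw [Finset.card_product, Finset.card_sigma, Finset.card_univ, Fintype.card_bool] at h1
  rw [hcard]
  omega

theorem mu_sq : mu ^ 2 = 2 + Real.sqrt 2 := by
  unfold mu
  exact Real.sq_sqrt (by positivity)

theorem mu_gt : (459 / 250 : ℝ) < mu := by
  have h1 := mu_sq
  have h2 : (1.4142 : ℝ) ≤ Real.sqrt 2 := Real.le_sqrt_of_sq_le (by norm_num)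
  have h3 := one_le_mu
  by_contra hcon
  push Not at hcon
  nlinarith

/-- hexagons with four used edges have positive density -/
theorem faces_dense : ∃ c : ℝ, 0 < c ∧ ∀ᶠ n : ℕ in atTop,
    (((WL hexG n).filter (fun l => 20000 * faces 4 l ≤ n)).card : ℝ) ≤
      Real.exp (-(c * n)) * (WL hexG n).card := by
  obtain ⟨C0, hC0⟩ := TH966.AK.Hex.poor
  have hmu : 0 < mu := lt_of_lt_of_le one_pos one_le_mu
  obtain ⟨c, hc⟩ : ∃ c : ℝ, c = Real.log (mu / (459 / 250)) / 2 := ⟨_, rfl⟩
  have hc0 : 0 < c := by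
    rw [hc]
    have : 1 < mu / (459 / 250) := by
      rw [lt_div_iff₀ (by norm_num)]
      linarith [mu_gt]
    have := Real.log_pos this
    positivity
  refine ⟨c, hc0, ?_⟩
  have hlim : Tendsto (fun n : ℕ => Real.exp (c * (n : ℝ))) atTop atTop :=
    Real.tendsto_exp_atTop.comp (tendsto_natCast_atTop_atTop.const_mul_atTop hc0)
  filter_upwards [hlim.eventually_ge_atTop C0] with n hn
  have h1 : ((WL hexG n).filter (fun l => 20000 * faces 4 l ≤ n)).card ≤
      ((TH966.AK.Kw TH966.AK.Hex.A n).filter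
        (fun w => 10000 * (TH966.AK.Hex.rule.B w).card ≤ n)).card := by
    apply Finset.card_le_card
    intro l hl
    rw [Finset.mem_filter] at hl ⊢
    obtain ⟨h2, h3⟩ := hl
    rw [mem_WL] at h2
    refine ⟨?_, ?_⟩
    · rw [TH966.AK.Rule.mem_K TH966.AK.Hex.rule]
      refine ⟨h2.2, h2.1.1, h2.1.2.1, ?_⟩
      exact h2.1.2.2.imp fun a b h => (hexAdj_iff a b).1 h
    · have := B_le_faces h2.1.2.1
      omega
  refine (Nat.cast_le.2 h1).trans ((hC0 n).trans ?_)
  have h4 : (459 / 250 : ℝ) ^ n = Real.exp (-(2 * c * n)) * mu ^ n := by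
    have e1 : Real.exp (-(2 * c * n)) = ((459 / 250) / mu) ^ n := by
      have : -(2 * c * (n : ℝ)) = n * (-Real.log (mu / (459 / 250))) := by
        rw [hc]; ring
      rw [this, Real.exp_nat_mul, Real.exp_neg, Real.exp_log (by positivity), inv_div]
    rw [e1, ← mul_pow, div_mul_cancel₀ _ hmu.ne']
  rw [h4]
  have h5 : C0 * (Real.exp (-(2 * c * n)) * mu ^ n) ≤
      Real.exp (c * n) * (Real.exp (-(2 * c * n)) * mu ^ n) := by gcongr
  refine h5.trans ?_
  rw [← mul_assoc, ← Real.exp_add]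
  have e2 : c * (n : ℝ) + -(2 * c * n) = -(c * n) := by ring
  rw [e2]
  apply mul_le_mul_of_nonneg_left (hex_growth.1 n) (by positivity)

theorem inv_mu_sq : 1 / mu ^ 2 = 1 - 1 / Real.sqrt 2 := by
  rw [mu_sq]
  have h1 : Real.sqrt 2 ^ 2 = 2 := Real.sq_sqrt (by norm_num)
  have h2 : 0 < Real.sqrt 2 := Real.sqrt_pos.2 (by norm_num)
  field_simp
  nlinarith

/-- **the ratio of the numbers of hexagons** -/
theorem ratio_law {ε : ℝ} (hε : 0 < ε) : ∃ c : ℝ, 0 < c ∧ ∀ᶠ n : ℕ in atTop,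
    (((WL hexG n).filter (fun l => ε ≤ |(faces 4 l : ℝ) / faces 2 l -
      (1 - 1 / Real.sqrt 2)|)).card : ℝ) ≤ Real.exp (-(c * n)) * (WL hexG n).card := by
  obtain ⟨c1, hc1, h1⟩ := faces_dense
  obtain ⟨K, c2, hc2, h2⟩ := faces_law
  have hmu1 := one_le_mu
  have hmu : 0 < mu := lt_of_lt_of_le one_pos hmu1
  obtain ⟨δ, hδ⟩ : ∃ δ : ℝ, δ = min (ε / 40000) (1 / 40000) := ⟨_, rfl⟩
  have hδ0 : 0 < δ := by rw [hδ]; positivity
  have hδ1 : δ ≤ ε / 40000 := by rw [hδ]; exact min_le_left _ _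
  have hδ2 : δ ≤ 1 / 40000 := by rw [hδ]; exact min_le_right _ _
  obtain ⟨c3, hc3⟩ : ∃ c3 : ℝ, c3 = min c1 (c2 * δ ^ 2 / 2) := ⟨_, rfl⟩
  have hc30 : 0 < c3 := by rw [hc3]; positivity
  have hc31 : c3 ≤ c1 := by rw [hc3]; exact min_le_left _ _
  have hc32 : c3 ≤ c2 * δ ^ 2 / 2 := by rw [hc3]; exact min_le_right _ _
  refine ⟨c3 / 2, by positivity, ?_⟩
  have hlim : Tendsto (fun n : ℕ => (c3 / 2) * (n : ℝ)) atTop atTop :=
    tendsto_natCast_atTop_atTop.const_mul_atTop (by positivity)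
  obtain ⟨D, hD⟩ : ∃ D : ℝ, D = 64 * |K| ^ 2 / (c2 * δ ^ 2 / 2) := ⟨_, rfl⟩
  filter_upwards [h1, hlim.eventually_ge_atTop (Real.log (1 + Real.exp D)),
    eventually_ge_atTop 2] with n g1 g2 g3
  have hn' : (2 : ℝ) ≤ n := by exact_mod_cast g3
  have hn0 : (0 : ℝ) < n := by linarith
  have g4 := h2 ⟨2, by norm_num⟩ (by norm_num) n g3 (δ * n) (by positivity)
  simp only [Nat.add_one_sub_one, Nat.reduceSub] at g4
  have hsub : (WL hexG n).filter (fun l => ε ≤ |(faces 4 l : ℝ) / faces 2 l -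
      (1 - 1 / Real.sqrt 2)|) ⊆ ((WL hexG n).filter (fun l => 20000 * faces 4 l ≤ n)) ∪
      ((WL hexG n).filter (fun l => δ * n ≤ |mu ^ 2 * faces 2 l - mu ^ 4 * faces 4 l|)) := by
    intro l hl
    rw [Finset.mem_filter] at hl
    rw [Finset.mem_union, Finset.mem_filter, Finset.mem_filter]
    by_contra hcon
    rw [not_or, not_and, not_and, not_le, not_le] at hcon
    have k1 := hcon.1 hl.1
    have k2 := hcon.2 hl.1
    have k3 := hl.2
    rw [← inv_mu_sq] at k3
    have k1' : (n : ℝ) < 20000 * faces 4 l := by exact_mod_cast k1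
    obtain ⟨x, hx⟩ : ∃ x : ℝ, x = faces 2 l := ⟨_, rfl⟩
    obtain ⟨y, hy⟩ : ∃ y : ℝ, y = faces 4 l := ⟨_, rfl⟩
    rw [← hx, ← hy] at k3
    rw [← hx, ← hy] at k2
    rw [← hy] at k1'
    have hm2 : 1 ≤ mu ^ 2 := one_le_pow₀ hmu1
    have hm2' : 0 < mu ^ 2 := by positivity
    have e1 : mu ^ 2 * x - mu ^ 4 * y = mu ^ 2 * (x - mu ^ 2 * y) := by ring
    rw [e1, abs_mul, abs_of_pos hm2'] at k2
    have k4 : |x - mu ^ 2 * y| < δ * n := by
      have := abs_nonneg (x - mu ^ 2 * y)
      nlinarith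
    have k5 := abs_lt.1 k4
    have hy0 : 0 < y := by linarith
    have hx0 : (n : ℝ) / 40000 < x := by
      have : (n : ℝ) / 20000 < mu ^ 2 * y := by nlinarith
      nlinarith
    have hx1 : 0 < x := by
      have : 0 < (n : ℝ) / 40000 := by positivity
      linarith
    have e2 : y / x - 1 / mu ^ 2 = -(x - mu ^ 2 * y) / (mu ^ 2 * x) := by
      field_simp
      ring
    rw [e2, abs_div, abs_neg, abs_of_pos (show 0 < mu ^ 2 * x by positivity),
      le_div_iff₀ (by positivity)] at k3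
    have k6 : ε * (mu ^ 2 * x) ≥ ε * x := by
      apply mul_le_mul_of_nonneg_left _ hε.le
      nlinarith
    have k7 : δ * n ≤ ε / 40000 * n := mul_le_mul_of_nonneg_right hδ1 hn0.le
    nlinarith
  have k1 := (Nat.cast_le (α := ℝ)).2 ((Finset.card_le_card hsub).trans (Finset.card_union_le _ _))
  rw [Nat.cast_add] at k1
  have hW : (0 : ℝ) ≤ (WL hexG n).card := Nat.cast_nonneg _
  have k2 : Real.exp (K * Real.log n ^ 2 - c2 * (δ * n) ^ 2 / n) ≤
      Real.exp D * Real.exp (-(c3 * n)) := by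
    rw [← Real.exp_add, Real.exp_le_exp]
    have k3 := log_sq_le (abs_nonneg K) (show 0 < c2 * δ ^ 2 / 2 by positivity) n (by omega)
    rw [← hD] at k3
    have k4 : K * Real.log n ^ 2 ≤ |K| * Real.log n ^ 2 :=
      mul_le_mul_of_nonneg_right (le_abs_self K) (by positivity)
    have e1 : c2 * (δ * (n : ℝ)) ^ 2 / n = c2 * δ ^ 2 * n := by
      field_simp
    rw [e1]
    nlinarith
  have k3 : Real.exp (-(c1 * n)) ≤ Real.exp (-(c3 * n)) := by
    rw [Real.exp_le_exp]
    nlinarith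
  calc _ ≤ _ := k1
    _ ≤ Real.exp (-(c1 * n)) * (WL hexG n).card +
        Real.exp (K * Real.log n ^ 2 - c2 * (δ * n) ^ 2 / n) * (WL hexG n).card :=
        add_le_add g1 g4
    _ ≤ Real.exp (-(c3 * n)) * (WL hexG n).card +
        Real.exp D * Real.exp (-(c3 * n)) * (WL hexG n).card := by gcongr
    _ = (1 + Real.exp D) * Real.exp (-(c3 * n)) * (WL hexG n).card := by ring
    _ ≤ Real.exp (c3 / 2 * n) * Real.exp (-(c3 * n)) * (WL hexG n).card := by
        gcongr
        rw [← Real.exp_log (show 0 < 1 + Real.exp D by positivity), Real.exp_le_exp]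
        exact g2
    _ = _ := by
        rw [← Real.exp_add]
        congr 2
        ring

end

end U443.LG
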