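import Pool.Agent.U443.LG.Emp

/-!
# Almost all walks are locally close to a Gibbs measure
-/

set_option autoImplicit false

namespace U443.LG

open Finset MeasureTheory Filter Topology
open scoped Classical

noncomputable section

variable {V : Type} [AddCommGroup V] (G : Geo V)

/-- growth of the number of walks -/
structure Growth (μ : ℝ) : Prop where
  one : 1 ≤ μ
  low : ∀ n : ℕ, μ ^ n ≤ ((WL G n).card : ℝ)
  up : ∀ δ : ℝ, 0 < δ → ∃ H : ℝ, ∀ n : ℕ, ((WL G n).card : ℝ) ≤ H * Real.exp (δ * n) * μ ^ n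

theorem exp_small {μ : ℝ} (hg : Growth G μ) {Λ A A' : Finset (Sym2 V)} (h : Exch G Λ A A')
    (h0 : A.Nonempty) (h0' : A'.Nonempty) {ε : ℝ} (hε : 0 < ε) :
    ∃ c : ℝ, 0 < c ∧ ∀ᶠ n : ℕ in atTop,
      (((WL G n).filter (fun l => ε * l.length ≤ |μ ^ A.card * NN G Λ A (tr l) -
        μ ^ A'.card * NN G Λ A' (tr l)|)).card : ℝ) ≤ Real.exp (-(c * n)) * (WL G n).card := by
  obtain ⟨c, hc, hbal⟩ := balance G hg.one h h0 h0'
  obtain ⟨H, hH⟩ := hg.up (c * ε ^ 2 / 4) (by positivity)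
  have hH0 : 0 < H := by
    have h1 := hH 0
    have h2 := hg.low 0
    simp only [pow_zero, Nat.cast_zero, mul_zero, Real.exp_zero, mul_one] at h1 h2
    linarith
  refine ⟨c * ε ^ 2 / 4, by positivity, ?_⟩
  have hlim : Tendsto (fun n : ℕ => (c * ε ^ 2 / 4) * (n : ℝ)) atTop atTop :=
    tendsto_natCast_atTop_atTop.const_mul_atTop (by positivity)
  have hmu : 0 < μ := lt_of_lt_of_le one_pos hg.one
  filter_upwards [hlim.eventually_ge_atTop (Real.log (2 * Real.exp 1 * H)),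
    eventually_ge_atTop 1] with n hn hn1
  have hn' : (1 : ℝ) ≤ n := by exact_mod_cast hn1
  have h1 := hbal (H * Real.exp (c * ε ^ 2 / 4 * (2 * n))) n hn1 (by
    intro j hj
    refine (hH j).trans ?_
    have hj' : (j : ℝ) ≤ 2 * n := by exact_mod_cast hj
    gcongr) (ε * n) (by positivity)
  have h2 : ((WL G n).filter (fun l => ε * l.length ≤ |μ ^ A.card * NN G Λ A (tr l) -
        μ ^ A'.card * NN G Λ A' (tr l)|)).card ≤
      ((WL G n).filter (fun l => ε * n ≤ |μ ^ A.card * NN G Λ A (tr l) -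
        μ ^ A'.card * NN G Λ A' (tr l)|)).card := by
    apply Finset.card_le_card
    intro l hl
    rw [Finset.mem_filter] at hl ⊢
    refine ⟨hl.1, le_trans ?_ hl.2⟩
    have h3 := ((mem_WL G).1 hl.1).2
    rw [h3]
    push_cast
    nlinarith
  refine (Nat.cast_le.2 h2).trans (h1.trans ?_)
  have e1 : c * ((ε * n) ^ 2 / n) = c * ε ^ 2 * n := by
    field_simp
  rw [e1]
  have hX : 0 < 2 * Real.exp 1 * H := by positivity
  have e2 : 2 * Real.exp 1 * (H * Real.exp (c * ε ^ 2 / 4 * (2 * n))) * μ ^ n *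
      Real.exp (-(c * ε ^ 2 * n)) =
      (2 * Real.exp 1 * H * Real.exp (-(c * ε ^ 2 / 4 * n))) *
        (Real.exp (-(c * ε ^ 2 / 4 * n)) * μ ^ n) := by
    have e3 : Real.exp (c * ε ^ 2 / 4 * (2 * n)) * Real.exp (-(c * ε ^ 2 * n)) =
        Real.exp (-(c * ε ^ 2 / 4 * n)) * Real.exp (-(c * ε ^ 2 / 4 * n)) := by
      rw [← Real.exp_add, ← Real.exp_add]
      congr 1
      ring
    calc 2 * Real.exp 1 * (H * Real.exp (c * ε ^ 2 / 4 * (2 * n))) * μ ^ n *
          Real.exp (-(c * ε ^ 2 * n)) = 2 * Real.exp 1 * H * μ ^ n *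
          (Real.exp (c * ε ^ 2 / 4 * (2 * n)) * Real.exp (-(c * ε ^ 2 * n))) := by ring
      _ = _ := by rw [e3]; ring
  rw [e2]
  have h3 : 2 * Real.exp 1 * H * Real.exp (-(c * ε ^ 2 / 4 * n)) ≤ 1 := by
    rw [← Real.exp_log hX, ← Real.exp_add, Real.exp_le_one_iff]
    linarith
  calc 2 * Real.exp 1 * H * Real.exp (-(c * ε ^ 2 / 4 * n)) *
        (Real.exp (-(c * ε ^ 2 / 4 * n)) * μ ^ n)
      ≤ 1 * (Real.exp (-(c * ε ^ 2 / 4 * n)) * μ ^ n) := by
        apply mul_le_mul_of_nonneg_right h3 (by positivity)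
    _ ≤ _ := by
        rw [one_mul]
        apply mul_le_mul_of_nonneg_left (hg.low n) (by positivity)

/-- the exceptional walks for a finite set of exchangeable pairs -/
theorem exp_small_union {μ : ℝ} (hg : Growth G μ)
    (τ : ℕ → Finset (Sym2 V) × Finset (Sym2 V) × Finset (Sym2 V)) {ε : ℝ} (hε : 0 < ε) (m : ℕ) :
    ∃ c : ℝ, 0 < c ∧ ∀ᶠ n : ℕ in atTop,
      (((WL G n).filter (fun l => ∃ j < m, Exch G (τ j).1 (τ j).2.1 (τ j).2.2 ∧
        (τ j).2.1.Nonempty ∧ (τ j).2.2.Nonempty ∧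
        ε * l.length ≤ |μ ^ (τ j).2.1.card * NN G (τ j).1 (τ j).2.1 (tr l) -
        μ ^ (τ j).2.2.card * NN G (τ j).1 (τ j).2.2 (tr l)|)).card : ℝ) ≤
          Real.exp (-(c * n)) * (WL G n).card := by
  induction m with
  | zero =>
    refine ⟨1, one_pos, Eventually.of_forall fun n => ?_⟩
    rw [Finset.filter_eq_empty_iff.2 (fun l _ => by
      rintro ⟨j, hj, -⟩
      omega)]
    simp only [Finset.card_empty, Nat.cast_zero]
    positivity
  | succ m ih =>
    obtain ⟨c1, hc1, h1⟩ := ih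
    by_cases hE : Exch G (τ m).1 (τ m).2.1 (τ m).2.2 ∧ (τ m).2.1.Nonempty ∧ (τ m).2.2.Nonempty
    · obtain ⟨c2, hc2, h2⟩ := exp_small G hg hE.1 hE.2.1 hE.2.2 hε
      have hcm : 0 < min c1 c2 := lt_min hc1 hc2
      refine ⟨min c1 c2 / 2, by positivity, ?_⟩
      have hlim : Tendsto (fun n : ℕ => (min c1 c2 / 2) * (n : ℝ)) atTop atTop :=
        tendsto_natCast_atTop_atTop.const_mul_atTop (by positivity)
      filter_upwards [h1, h2, hlim.eventually_ge_atTop (Real.log 2)] with n h3 h4 h5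
      have hsub : ((WL G n).filter (fun l => ∃ j < m + 1, Exch G (τ j).1 (τ j).2.1 (τ j).2.2 ∧
        (τ j).2.1.Nonempty ∧ (τ j).2.2.Nonempty ∧
        ε * l.length ≤ |μ ^ (τ j).2.1.card * NN G (τ j).1 (τ j).2.1 (tr l) -
        μ ^ (τ j).2.2.card * NN G (τ j).1 (τ j).2.2 (tr l)|)) ⊆
        ((WL G n).filter (fun l => ∃ j < m, Exch G (τ j).1 (τ j).2.1 (τ j).2.2 ∧
        (τ j).2.1.Nonempty ∧ (τ j).2.2.Nonempty ∧
        ε * l.length ≤ |μ ^ (τ j).2.1.card * NN G (τ j).1 (τ j).2.1 (tr l) -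
        μ ^ (τ j).2.2.card * NN G (τ j).1 (τ j).2.2 (tr l)|)) ∪
        ((WL G n).filter (fun l => ε * l.length ≤ |μ ^ (τ m).2.1.card * NN G (τ m).1 (τ m).2.1 (tr l) -
        μ ^ (τ m).2.2.card * NN G (τ m).1 (τ m).2.2 (tr l)|)) := by
        intro l hl
        rw [Finset.mem_filter] at hl
        obtain ⟨hl1, j, hj, hl2⟩ := hl
        rw [Finset.mem_union, Finset.mem_filter, Finset.mem_filter]
        rcases Nat.lt_succ_iff_lt_or_eq.1 hj with h6 | h6
        · exact Or.inl ⟨hl1, j, h6, hl2⟩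
        · subst h6
          exact Or.inr ⟨hl1, hl2.2.2.2⟩
      have h6 := (Finset.card_le_card hsub).trans (Finset.card_union_le _ _)
      have h7 := (Nat.cast_le (α := ℝ)).2 h6
      rw [Nat.cast_add] at h7
      have hn0 : (0 : ℝ) ≤ n := Nat.cast_nonneg _
      have hW : (0 : ℝ) ≤ (WL G n).card := Nat.cast_nonneg _
      have h8 : Real.exp (-(c1 * n)) ≤ Real.exp (-(min c1 c2 * n)) := by
        rw [Real.exp_le_exp]
        nlinarith [min_le_left c1 c2]
      have h9 : Real.exp (-(c2 * n)) ≤ Real.exp (-(min c1 c2 * n)) := by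
        rw [Real.exp_le_exp]
        nlinarith [min_le_right c1 c2]
      have h10 : 2 * Real.exp (-(min c1 c2 * n)) ≤ Real.exp (-(min c1 c2 / 2 * n)) := by
        have e1 : (2 : ℝ) = Real.exp (Real.log 2) := (Real.exp_log two_pos).symm
        conv_lhs => rw [e1]
        rw [← Real.exp_add, Real.exp_le_exp]
        linarith
      calc _ ≤ _ := h7
        _ ≤ Real.exp (-(c1 * n)) * (WL G n).card + Real.exp (-(c2 * n)) * (WL G n).card :=
            add_le_add h3 h4
        _ ≤ Real.exp (-(min c1 c2 * n)) * (WL G n).card +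
            Real.exp (-(min c1 c2 * n)) * (WL G n).card := by gcongr
        _ = (2 * Real.exp (-(min c1 c2 * n))) * (WL G n).card := by ring
        _ ≤ _ := by gcongr
    · refine ⟨c1, hc1, ?_⟩
      filter_upwards [h1] with n h3
      refine le_trans (Nat.cast_le.2 (Finset.card_le_card ?_)) h3
      intro l hl
      rw [Finset.mem_filter] at hl ⊢
      obtain ⟨hl1, j, hj, hl2⟩ := hl
      rcases Nat.lt_succ_iff_lt_or_eq.1 hj with h6 | h6
      · exact ⟨hl1, j, h6, hl2⟩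
      · subst h6
        exact absurd ⟨hl2.1, hl2.2.1, hl2.2.2.1⟩ hE

variable [Countable V]

/-- `l` is `ε`-close in the window `R` to a stationary Gibbs measure of two-sided infinite walks -/
def Near (x ε : ℝ) (R : Finset (Sym2 V)) (l : List V) : Prop :=
  ∃ P : Measure (Cfg V), Phase G x P ∧
    ∀ S, S ⊆ R → |(emp G l).real (Cyl R S) - P.real (Cyl R S)| ≤ ε

/-- **almost all walks are locally close to a Gibbs measure** -/
theorem quenched {μ : ℝ} (hg : Growth G μ) {ε : ℝ} (hε : 0 < ε) (R : Finset (Sym2 V)) :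
    ∃ c : ℝ, 0 < c ∧ ∀ᶠ n : ℕ in atTop,
      (((WL G n).filter (fun l => ¬ Near G (1 / μ) ε R l)).card : ℝ) ≤
        Real.exp (-(c * n)) * (WL G n).card := by
  by_contra hcon
  push Not at hcon
  have hmu : 0 < μ := lt_of_lt_of_le one_pos hg.one
  haveI : Countable (Finset (Sym2 V)) := inferInstance
  obtain ⟨τ, hτ⟩ : ∃ τ : ℕ → Finset (Sym2 V) × Finset (Sym2 V) × Finset (Sym2 V),
      Function.Surjective τ := exists_surjective_nat _
  -- choice of the walks
  have hex : ∀ m : ℕ, ∃ l : List V, Walk G.Adj 0 l ∧ m ≤ l.length ∧ ¬ Near G (1 / μ) ε R l ∧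
      ∀ j < m, Exch G (τ j).1 (τ j).2.1 (τ j).2.2 → (τ j).2.1.Nonempty → (τ j).2.2.Nonempty →
        |μ ^ (τ j).2.1.card * NN G (τ j).1 (τ j).2.1 (tr l) -
        μ ^ (τ j).2.2.card * NN G (τ j).1 (τ j).2.2 (tr l)| < 1 / ((m : ℝ) + 1) * l.length := by
    intro m
    obtain ⟨c, hc, h1⟩ := exp_small_union G hg τ (ε := 1 / ((m : ℝ) + 1)) (by positivity) m
    obtain ⟨n, h2, h3, h4⟩ := ((hcon c hc).and_eventually (h1.and (eventually_ge_atTop m))).exists
    have h5 := lt_of_le_of_lt h3 h2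
    have h6 := (Nat.cast_lt (α := ℝ)).1 h5
    have h7 : ¬ (((WL G n).filter (fun l => ¬ Near G (1 / μ) ε R l)) ⊆
      ((WL G n).filter (fun l => ∃ j < m, Exch G (τ j).1 (τ j).2.1 (τ j).2.2 ∧
        (τ j).2.1.Nonempty ∧ (τ j).2.2.Nonempty ∧
        1 / ((m : ℝ) + 1) * l.length ≤ |μ ^ (τ j).2.1.card * NN G (τ j).1 (τ j).2.1 (tr l) -
        μ ^ (τ j).2.2.card * NN G (τ j).1 (τ j).2.2 (tr l)|))) :=
      fun h => absurd (Finset.card_le_card h) (by omega)
    rw [Finset.not_subset] at h7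
    obtain ⟨l, h8, h9⟩ := h7
    rw [Finset.mem_filter] at h8 h9
    have h10 := (mem_WL G).1 h8.1
    refine ⟨l, h10.1, by rw [h10.2]; omega, h8.2, fun j hj a1 a2 a3 => ?_⟩
    by_contra h11
    rw [not_lt] at h11
    exact h9 ⟨h8.1, j, hj, a1, a2, a3, h11⟩
  choose l hl1 hl2 hl3 hl4 using hex
  obtain ⟨Q, hQ⟩ : ∃ Q : ℕ → ProbabilityMeasure (Cfg V), ∀ k, (Q k : Measure (Cfg V)) =
      emp G (l k) :=
    ⟨fun k => ⟨emp G (l k), emp_prob G (hl1 k)⟩, fun k => rfl⟩
  haveI : TopologicalSpace.PseudoMetrizableSpace (Cfg V) := by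
    haveI : TopologicalSpace.MetrizableSpace (Cfg V) :=
      TopologicalSpace.metrizableSpace_of_t3_secondCountable _
    infer_instance
  obtain ⟨P, -, φ, hφ, hP⟩ := (isCompact_univ (X := ProbabilityMeasure (Cfg V))).isSeqCompact
    (x := Q) (fun _ => Set.mem_univ _)
  have hlen : Tendsto (fun k => (l (φ k)).length) atTop atTop :=
    tendsto_atTop_mono (fun k => hl2 (φ k)) hφ.tendsto_atTop
  have hph : Phase G (1 / μ) (P : Measure (Cfg V)) := by
    refine phase_of_limit G hmu hP (fun k => l (φ k)) (fun k => hl1 _) hlen (fun k => hQ _) ?_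
    intro Λ A A' hE h0 h0'
    obtain ⟨j, hj⟩ := hτ (Λ, A, A')
    rw [tendsto_zero_iff_abs_tendsto_zero]
    have h1 : Tendsto (fun k => 1 / ((φ k : ℝ) + 1)) atTop (𝓝 0) :=
      (tendsto_one_div_add_atTop_nhds_zero_nat (𝕜 := ℝ)).comp hφ.tendsto_atTop
    refine squeeze_zero' (Eventually.of_forall fun k => abs_nonneg _) ?_ h1
    filter_upwards [hφ.tendsto_atTop.eventually_gt_atTop j] with k hk
    have h2 := hl4 (φ k) j hk (by rw [hj]; exact hE) (by rw [hj]; exact h0) (by rw [hj]; exact h0')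
    rw [hj] at h2
    simp only at h2
    have h3 : (0 : ℝ) < (l (φ k)).length := by
      have h4 : 0 < (l (φ k)).length := by
        have := hl2 (φ k)
        omega
      exact_mod_cast h4
    simp only [Function.comp_apply]
    rw [abs_div, abs_of_pos h3, div_le_iff₀ h3]
    exact h2.le
  -- contradiction
  have hev : ∀ᶠ k in atTop, ∀ S ∈ R.powerset,
      |(emp G (l (φ k))).real (Cyl R S) - (P : Measure (Cfg V)).real (Cyl R S)| ≤ ε := by
    rw [Filter.eventually_all_finset]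
    intro S _
    have h1 := (dep_cyl R S).tendsto hP
    have h2 : Tendsto (fun k => (emp G (l (φ k))).real (Cyl R S)) atTop
        (𝓝 ((P : Measure (Cfg V)).real (Cyl R S))) := by
      simpa only [Function.comp_apply, hQ] using h1
    have h3 := (Metric.tendsto_nhds.1 h2) ε hε
    filter_upwards [h3] with k hk
    rw [Real.dist_eq] at hk
    exact hk.le
  obtain ⟨k, hk⟩ := hev.exists
  exact hl3 (φ k) ⟨P, hph, fun S hS => hk S (Finset.mem_powerset.2 hS)⟩

end

end U443.LG
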